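import Pool.Agent.H61.GX.Rk

/-!
# The Cauchy-Schwarz inequality and the rank bound for homogeneous classes
-/

open CategoryTheory AlgebraicGeometry

universe u v

namespace Pool.Agent.H61.GX

open Module
open Pool.Agent.H914 Pool.Agent.H914.VarClass Pool.Agent.H914.VarClass.Obj
  Pool.Agent.H914.WeilCohomology Pool.Agent.Y133.Half Pool.Agent.H61.ZX

variable {k : Type u} [Field k] {𝒱 : VarClass k} {ops : CycleOps 𝒱}
  {W : WeilCohomology.{u, v} ops} {P Q Z Z' X Y M N : 𝒱.Obj} (S : Sys W)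

/-- The rank of the intersection form on the classes of middle codimension on `Y × Y`. -/
noncomputable def ac (Y : 𝒱.Obj) : ℕ := ag S (Y.prod Y) Y.dim Y.dim

lemma ext_idem {g : Module.End W.K (W.H P)} (hgg : g ∘ₗ g = g) {h : Module.End W.K (W.H Y)}
    (hh : h ∘ₗ h = h) : extOp W g h ∘ₗ extOp W g h = extOp W g h := by
  have := extOp_mul (W := W) g g h h
  change extOp W g h * extOp W g h = _
  rw [this]
  change extOp W (g ∘ₗ g) (h ∘ₗ h) = _
  rw [hgg, hh]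

/-- **The Cauchy-Schwarz inequality.** -/
theorem csg {g g' : Module.End W.K (W.H P)} (hg : g ∈ GOp S P P 0) (hgg : g ∘ₗ g = g)
    (hadj : Adj W g' g) (Y : 𝒱.Obj) {d e : ℤ} (hde : d + e = P.dim + 2 * Y.dim) :
    rg S P g (Y.prod Y) d e ^ 2 ≤ rg S (P.prod P) (extOp W g' g) (Y.prod Y)
      (P.dim + Y.dim) (P.dim + Y.dim) * ac S Y := by
  let X : Fin 2 → 𝒱.Obj := ![P.prod Y, Y]
  let α : Fin 2 → ℤ := ![d - Y.dim, 0]
  have h1 : extOp W g (1 : Module.End W.K (W.H Y)) ∈ GOp S (P.prod Y) (P.prod Y) 0 :=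
    GOp.ext hg GOp.id
  have h1' : extOp W g (1 : Module.End W.K (W.H Y)) ∈
      GOp S (P.prod Y) (P.prod Y) ((d - Y.dim) - (d - Y.dim)) := GOp.cast h1 (by ring)
  have h2 : extOp W g (1 : Module.End W.K (W.H Y)) ∘ₗ extOp W g 1 = extOp W g 1 :=
    ext_idem hgg rfl
  have h3 : (LinearMap.id : W.H Y →ₗ[W.K] W.H Y) ∈ GOp S Y Y (0 - 0) := GOp.cast GOp.id (by ring)
  have key := (gcat S X α).rk_B_sq_le' (i := 0) (j := 1) (g := extOp W g 1) h1' h2
    (g' := (LinearMap.id : W.H Y →ₗ[W.K] W.H Y)) h3 rfl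
  have e01 := gcat_B S X α 0 1 (extOp W g 1) (LinearMap.id : W.H Y →ₗ[W.K] W.H Y)
  have e00 := gcat_B S X α 0 0 (extOp W g 1) (extOp W g 1)
  have e11 := gcat_B S X α 1 1 (LinearMap.id : W.H Y →ₗ[W.K] W.H Y)
    (LinearMap.id : W.H Y →ₗ[W.K] W.H Y)
  have f01 : rk (A := GOp S Y (P.prod Y) (d - Y.dim - 0)) (B := GOp S (P.prod Y) Y (0 - (d - Y.dim)))
      (BG S (P.prod Y) Y (extOp W g 1) LinearMap.id (d - Y.dim - 0) (0 - (d - Y.dim))) =
      rg S P g (Y.prod Y) d e := by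
    rw [rk_BG S (GOp.ev h1) Ev.id (g'' := 1) Adj.one]
    rw [show (Y.dim : ℤ) + (d - Y.dim - 0) = d by ring,
      show ((P.prod Y).dim : ℤ) + (0 - (d - Y.dim)) = e by
        simp only [dim_prod]; push_cast; omega]
    exact cg_iso S (θ₁ Y P Y) (by simp only [dim_prod]; ring) (fun x => θ₁_op (GOp.ev hg) x) d e
  have f00 : rk (A := GOp S (P.prod Y) (P.prod Y) (d - Y.dim - (d - Y.dim)))
      (B := GOp S (P.prod Y) (P.prod Y) (d - Y.dim - (d - Y.dim)))
      (BG S (P.prod Y) (P.prod Y) (extOp W g 1) (extOp W g 1) (d - Y.dim - (d - Y.dim))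
        (d - Y.dim - (d - Y.dim))) =
      rg S (P.prod P) (extOp W g' g) (Y.prod Y) (P.dim + Y.dim) (P.dim + Y.dim) := by
    rw [rk_BG S (GOp.ev h1) (GOp.ev h1) (g'' := extOp W g' 1)
      (hadj.extOp Adj.one (GOp.ev hg) Ev.id)]
    rw [show ((P.prod Y).dim : ℤ) + (d - Y.dim - (d - Y.dim)) = P.dim + Y.dim by
        simp only [dim_prod]; push_cast; ring]
    exact cg_iso S (θ₂ P Y P Y) (by simp only [dim_prod]; ring)
      (fun x => θ₂_op (GOp.ev hg) x) _ _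
  have f11 : rk (A := GOp S Y Y (0 - 0)) (B := GOp S Y Y (0 - 0))
      (BG S Y Y LinearMap.id LinearMap.id (0 - 0) (0 - 0)) = ac S Y := by
    rw [rk_BG S Ev.id Ev.id (g'' := 1) Adj.one]
    change cg S (Y.prod Y) (extOp W 1 1) _ _ = _
    rw [extOp_one, ac, ag, show (Y.dim : ℤ) + (0 - 0) = Y.dim by ring]
  rw [← f01, ← f00, ← f11]
  exact key

lemma pow_boundg (Y : 𝒱.Obj) (j : ℕ) : ∀ (P : 𝒱.Obj) (g : Module.End W.K (W.H P)) (d e : ℤ),
    d + e = P.dim + 2 * Y.dim →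
    g ∈ GOp S P P 0 → g ∘ₗ g = g → rg S P g (Y.prod Y) d e ^ (2 ^ j) * ac S Y ≤
      finrank W.K (LinearMap.range g) ^ (2 ^ j) * finrank W.K (W.H (Y.prod Y)) *
        ac S Y ^ (2 ^ j) := by
  induction j with
  | zero =>
    intro P g d e _ _ hgg
    simp only [pow_zero, pow_one]
    exact Nat.mul_le_mul_right _ (rg_le S g hgg d e)
  | succ j ih =>
    intro P g d e hde hg hgg
    obtain ⟨g', hg', hadj⟩ := GOp.exists_adj (S := S) (t := 0) hg (by omega)
    have hadj := hadj.symm (GOp.ev hg) (GOp.ev hg')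
    have h1 := csg S hg hgg hadj Y hde
    have hgg' := hadj.idem hgg
    have hE : extOp W g' g ∘ₗ extOp W g' g = extOp W g' g := ext_idem hgg' hgg
    have h2 := ih (P.prod P) (extOp W g' g) (P.dim + Y.dim) (P.dim + Y.dim)
      (by simp only [dim_prod]; push_cast; ring) (GOp.ext hg' hg) hE
    rw [finrank_extOp hgg' hgg, hadj.finrank_eq] at h2
    set α := ac S Y
    set D := finrank W.K (W.H (Y.prod Y))
    set ρ := rg S P g (Y.prod Y) d e
    set ρ' := rg S (P.prod P) (extOp W g' g) (Y.prod Y) (P.dim + Y.dim) (P.dim + Y.dim)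
    set m := finrank W.K (LinearMap.range g)
    calc ρ ^ (2 ^ (j + 1)) * α = (ρ ^ 2) ^ (2 ^ j) * α := by rw [← pow_mul, pow_succ, mul_comm 2]
      _ ≤ (ρ' * α) ^ (2 ^ j) * α := Nat.mul_le_mul_right _ (Nat.pow_le_pow_left h1 _)
      _ = (ρ' ^ (2 ^ j) * α) * α ^ (2 ^ j) := by rw [mul_pow]; ring
      _ ≤ ((m * m) ^ (2 ^ j) * D * α ^ (2 ^ j)) * α ^ (2 ^ j) := Nat.mul_le_mul_right _ h2
      _ = m ^ (2 ^ (j + 1)) * D * α ^ (2 ^ (j + 1)) := by
        rw [pow_succ 2 j, pow_mul, pow_mul]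
        ring

/-- **The rank bound.** -/
theorem rg_le_rank {g : Module.End W.K (W.H P)} (hg : g ∈ GOp S P P 0) (hgg : g ∘ₗ g = g)
    (Y : 𝒱.Obj) {d e : ℤ} (hde : d + e = P.dim + 2 * Y.dim) :
    rg S P g (Y.prod Y) d e ≤ finrank W.K (LinearMap.range g) * ac S Y := by
  rcases Nat.eq_zero_or_pos (ac S Y) with h0 | h0
  · obtain ⟨g', hg', hadj⟩ := GOp.exists_adj (S := S) (t := 0) hg (by omega)
    have hadj := hadj.symm (GOp.ev hg) (GOp.ev hg')
    have h1 := csg S hg hgg hadj Y hde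
    rw [h0, mul_zero] at h1
    rw [h0, mul_zero]
    have : rg S P g (Y.prod Y) d e ^ 2 = 0 := Nat.le_zero.1 h1
    exact (pow_eq_zero_iff two_ne_zero).1 this |>.le
  · apply le_of_pow_bound (D := finrank W.K (W.H (Y.prod Y)))
    intro j
    have h := pow_boundg S Y j P g d e hde hg hgg
    calc rg S P g (Y.prod Y) d e ^ (2 ^ j) ≤ rg S P g (Y.prod Y) d e ^ (2 ^ j) * ac S Y :=
          Nat.le_mul_of_pos_right _ h0
      _ ≤ _ := h
      _ = (finrank W.K (LinearMap.range g) * ac S Y) ^ (2 ^ j) *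
          finrank W.K (W.H (Y.prod Y)) := by rw [mul_pow]; ring

end Pool.Agent.H61.GX
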