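import Pool.Agent.H61.GX.Tate

/-!
# Numerically trivial classes on the powers of a variety, codimension by codimension
-/

open CategoryTheory AlgebraicGeometry

universe u v

namespace Pool.Agent.H61.GX

open Module
open Pool.Agent.H914 Pool.Agent.H914.VarClass Pool.Agent.H914.VarClass.Obj
  Pool.Agent.H914.WeilCohomology Pool.Agent.Y133.Half Pool.Agent.H61.ZX

variable {k : Type u} [Field k] {𝒱 : VarClass k} {ops : CycleOps 𝒱}
  {W : WeilCohomology.{u, v} ops} {P P₀ Q Z Z' X Y M N : 𝒱.Obj} {S T : Sys W}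

/-- The lower bound is uniform in the idempotent. -/
theorem glow_unif (hS : GBig S X) (m : ℕ) (s : ℤ) {δ : ℝ} (hδ : 0 < δ) (J : ℕ) :
    ∃ n₀ : ℕ, ∀ n ≥ n₀, ∀ (Z : 𝒱.Obj) (e : Module.End W.K (W.H Z)), e ∈ GOp S Z Z 0 →
      e ∘ₗ e = e → ∀ (u : W.H (pw X m) →ₗ[W.K] W.H Z), u ∈ GOp S (pw X m) Z (-s) →
      ∀ (v : W.H Z →ₗ[W.K] W.H (pw X m)), v ∈ GOp S Z (pw X m) s → u ∘ₗ v = e →
      ∀ d d' : ℤ, d + d' = Z.dim + (n + 1) * X.dim → |2 * d - (n + 1) * X.dim| ≤ J →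
      ((finrank W.K (LinearMap.range e) : ℝ) - δ) * nrmg S X n ≤ rg S Z e (pw X n) d d' := by
  have key : ∀ p : ℕ, ∃ n₀ : ℕ, ∀ n ≥ n₀, n % 2 = p % 2 →
      ∀ (Z : 𝒱.Obj) (e : Module.End W.K (W.H Z)), e ∈ GOp S Z Z 0 →
      e ∘ₗ e = e → ∀ (u : W.H (pw X m) →ₗ[W.K] W.H Z), u ∈ GOp S (pw X m) Z (-s) →
      ∀ (v : W.H Z →ₗ[W.K] W.H (pw X m)), v ∈ GOp S Z (pw X m) s → u ∘ₗ v = e →
      ∀ d d' : ℤ,
      d + d' = Z.dim + (n + 1) * X.dim → |2 * d - (n + 1) * X.dim| ≤ J →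
      ((finrank W.K (LinearMap.range e) : ℝ) - δ) * nrmg S X n ≤ rg S Z e (pw X n) d d' := by
    intro p
    set D := X.dim with hD
    have hD1 : 1 ≤ D := hS.hd
    set K₀ : ℕ := m * D + J + 2 * s.natAbs with hK₀
    set k : ℕ := K₀ + ((K₀ + p + m + 1) % 2) with hk
    have hkK : K₀ ≤ k := Nat.le_add_right _ _
    set b := finrank W.K (W.H X) with hb
    have hb1 : (1 : ℝ) ≤ b := by exact_mod_cast hS.hX
    obtain ⟨j, hj⟩ : ∃ j, (m + k + 1) + p % 2 + 2 = 2 * j :=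
      ⟨((m + k + 1) + p % 2 + 2) / 2, by omega⟩
    have hB2 : (0 : ℝ) < (b : ℝ) ^ 2 := by positivity
    obtain ⟨c, hc0, hcB, hc⟩ := exists_close hB2 j hδ
    obtain ⟨l₀, hl₀⟩ := hS.hB c hc0 hcB
    refine ⟨2 * l₀ + p % 2 + 2, fun n hn hpar Z e he hee u hu v hv h_1 d d' hd hJ => ?_⟩
    have hn2 : 2 ≤ n := by omega
    obtain ⟨l, hl⟩ : ∃ l, l = (n - n % 2 - 2) / 2 := ⟨_, rfl⟩
    have hl' : l ≥ l₀ := by omega
    have hnl : n = n % 2 + 2 * l + 2 := by omega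
    -- the twist
    obtain ⟨h, hh⟩ : ∃ h, m + k + n + 3 = 2 * h := ⟨(m + k + n + 3) / 2, by omega⟩
    have hh' : h = l + j + 1 := by omega
    have hkD : k ≤ k * D := Nat.le_mul_of_pos_right _ hD1
    have hi0 : 0 ≤ (h : ℤ) * D - d - s := by
      have h2 : 2 * ((h : ℤ) * D - d - s) = ((m : ℤ) + k + 2) * D - (2 * d - (n + 1) * D) - 2 * s := by
        have : (2 : ℤ) * h = m + k + n + 3 := by exact_mod_cast hh.symm
        linear_combination (D : ℤ) * this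
      have h3 := abs_le.1 hJ
      have h4 : (k : ℤ) ≤ k * D := by exact_mod_cast hkD
      have h5 : ((m : ℤ) * D + J + 2 * s.natAbs) ≤ k := by exact_mod_cast hkK
      have h6 : (0 : ℤ) ≤ m * D := by positivity
      have h7 : s ≤ s.natAbs := Int.le_natAbs
      have h8 : ((m : ℤ) + k + 2) * D = m * D + k * D + 2 * D := by ring
      have h9 : (0 : ℤ) ≤ D := by positivity
      have h10 := h3.2
      rw [h8] at h2
      linarith
    obtain ⟨i, hi⟩ : ∃ i : ℕ, (i : ℤ) = (h : ℤ) * D - d - s := ⟨_, Int.toNat_of_nonneg hi0⟩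
    have hi1 : i ≤ (k + 1) * D := by
      have h2 : 2 * (i : ℤ) = ((m : ℤ) + k + 2) * D - (2 * d - (n + 1) * D) - 2 * s := by
        have : (2 : ℤ) * h = m + k + n + 3 := by exact_mod_cast hh.symm
        rw [hi]
        linear_combination (D : ℤ) * this
      have h3 := abs_le.1 hJ
      have h4 : (k : ℤ) ≤ k * D := by exact_mod_cast hkD
      have h5 : ((m : ℤ) * D + J + 2 * s.natAbs) ≤ k := by exact_mod_cast hkK
      have h7 : -s ≤ s.natAbs := by
        have := Int.le_natAbs (a := -s)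
        rwa [Int.natAbs_neg] at this
      have h8 : ((m : ℤ) + k + 2) * D = m * D + k * D + 2 * D := by ring
      have h10 := h3.1
      rw [h8] at h2
      have h11 : (i : ℤ) ≤ ((k : ℤ) + 1) * D := by
        have : ((k : ℤ) + 1) * D = k * D + D := by ring
        rw [this]
        linarith
      exact_mod_cast h11
    obtain ⟨u', hu', v', hv', h'⟩ := fac_tw hS.tw hu hv k i hi1
    rw [h_1] at h'
    set g : Module.End W.K (W.H (pw X (m + k + 1))) := v' ∘ₗ e ∘ₗ u' with hg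
    have hgm : g ∈ GOp S (pw X (m + k + 1)) (pw X (m + k + 1)) 0 :=
      GOp.comp' hv' (GOp.comp' he hu' rfl) (by ring)
    have hgg : g ∘ₗ g = g := by
      apply LinearMap.ext
      intro x
      have e1 : ∀ y, u' (v' y) = e y := fun y => congrArg (fun f => f y) h'
      have e2 : ∀ y, e (e y) = e y := fun y => congrArg (fun f => f y) hee
      change v' (e (u' (v' (e (u' x))))) = v' (e (u' x))
      rw [e1, e2, e2]
    have hrk : finrank W.K (LinearMap.range g) = finrank W.K (LinearMap.range e) := by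
      have e1 := trace_idem (K := W.K) (f := g) hgg
      have e2 := trace_idem (K := W.K) (f := e) hee
      have e3 : LinearMap.trace W.K _ g = LinearMap.trace W.K _ e := by
        rw [hg, LinearMap.trace_comp_comm' (e ∘ₗ u') v', LinearMap.comp_assoc, h', hee]
      rw [e1, e2] at e3
      exact_mod_cast e3
    have hsum : ((h : ℤ) * D) + (h : ℤ) * D =
        ((pw X (m + k + 1)).dim + (pw X (n % 2)).dim) + 2 * (pw X l).dim := by
      rw [dim_pw, dim_pw, dim_pw, ← hD]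
      push_cast
      have h2 : (2 : ℤ) * h = m + k + n + 3 := by exact_mod_cast hh.symm
      have h3 : (n : ℤ) = ((n % 2 : ℕ) : ℤ) + 2 * l + 2 := by exact_mod_cast hnl
      push_cast at h3
      linear_combination (D : ℤ) * h2 + (D : ℤ) * h3
    have h1 := rg_lower' S (P₀ := pw X (n % 2)) hgm hgg (pw X l) hsum
    have h2 : ag S (((pw X (m + k + 1)).prod (pw X (n % 2))).prod ((pw X l).prod (pw X l)))
        ((h : ℤ) * D) ((h : ℤ) * D) = alc S X (l + j) := by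
      rw [ag_iso S (prodCongr (pwAdd X (m + k + 1) (n % 2)) (Iso.refl _))
        (by simp only [dim_prod, dim_pw]; ring)]
      refine ag_pw X (by omega) ?_
      rw [hh', ← hD]
      push_cast
      ring
    have h3 : ac S (pw X l) = alc S X l := rfl
    rw [h2, h3, hrk, finrank_pw, finrank_pw, ← hb] at h1
    have h4 := rg_le_of_fac S he hu' hv' (pw X n) (d := d) (e' := d') (d₁ := (h : ℤ) * D)
      (e₁ := (h : ℤ) * D) (by rw [hd, dim_pw]; push_cast; ring) (by rw [hi]; ring)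
      (by
        rw [dim_pw, dim_pw, ← hD]
        push_cast
        have h2 : (2 : ℤ) * h = m + k + n + 3 := by exact_mod_cast hh.symm
        linear_combination (D : ℤ) * h2)
    rw [← hg] at h4
    have h5 : rg S (pw X (m + k + 1)) g ((pw X (n % 2)).prod ((pw X l).prod (pw X l)))
        ((h : ℤ) * D) ((h : ℤ) * D) =
        rg S (pw X (m + k + 1)) g (pw X n) ((h : ℤ) * D) ((h : ℤ) * D) := by
      rw [hl]
      exact rg_iso S g (phi X n hn2) (dim_phi X n hn2) _ _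
    rw [h5] at h1
    have h6 := ratio_pow hc0 hl₀ j l hl'
    have h7 : (alc S X (l + j) : ℝ) + finrank W.K (LinearMap.range e) * (b : ℝ) ^ (n % 2 + 1) *
        alc S X l ≤ rg S Z e (pw X n) d d' +
          (b : ℝ) ^ (m + k + 1 + 1) * (b : ℝ) ^ (n % 2 + 1) * alc S X l := by
      exact_mod_cast h1.trans (Nat.add_le_add_right h4 _)
    have h8 : (b : ℝ) ^ (m + k + 1 + 1) * (b : ℝ) ^ (n % 2 + 1) = ((b : ℝ) ^ 2) ^ j := by
      rw [← pow_add, ← pow_mul]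
      congr 1
      omega
    rw [h8] at h7
    have h9 : (0 : ℝ) ≤ alc S X l := Nat.cast_nonneg _
    have h10 : nrmg S X n = (b : ℝ) ^ (n % 2 + 1) * alc S X l := by rw [nrmg, hl]
    rw [h10]
    have h11 : (1 : ℝ) ≤ (b : ℝ) ^ (n % 2 + 1) := one_le_pow₀ hb1
    have h12 : δ * alc S X l ≤ δ * ((b : ℝ) ^ (n % 2 + 1) * alc S X l) :=
      mul_le_mul_of_nonneg_left (le_mul_of_one_le_left h9 h11) hδ.le
    have h13 : (((b : ℝ) ^ 2) ^ j - δ) * alc S X l ≤ c ^ j * alc S X l :=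
      mul_le_mul_of_nonneg_right hc.le h9
    nlinarith
  obtain ⟨n₁, h₁⟩ := key 0
  obtain ⟨n₂, h₂⟩ := key 1
  refine ⟨max n₁ n₂, fun n hn => ?_⟩
  rcases Nat.mod_two_eq_zero_or_one n with h | h
  · exact h₁ n ((le_max_left _ _).trans hn) h
  · exact h₂ n ((le_max_right _ _).trans hn) h

/-- The idempotents on varieties isomorphic to a power of `X`. -/
theorem glow_pw (hS : GBig S X) (m : ℕ) {δ : ℝ} (hδ : 0 < δ) (J : ℕ) :
    ∃ n₀ : ℕ, ∀ n ≥ n₀, ∀ (P : 𝒱.Obj) (_ : P ≅ pw X m) (e : Module.End W.K (W.H P)),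
      e ∈ GOp S P P 0 → e ∘ₗ e = e →
      ∀ d d' : ℤ, d + d' = P.dim + (n + 1) * X.dim → |2 * d - (n + 1) * X.dim| ≤ J →
      ((finrank W.K (LinearMap.range e) : ℝ) - δ) * nrmg S X n ≤ rg S P e (pw X n) d d' := by
  obtain ⟨n₀, hn₀⟩ := glow_unif hS m 0 hδ J
  refine ⟨n₀, fun n hn P θ e he hee d d' hd hJ => ?_⟩
  refine hn₀ n hn P e he hee (e ∘ₗ (W.map θ.hom).toLinearMap) ?_ (W.map θ.inv).toLinearMap ?_ ?_
    d d' hd hJ
  · exact GOp.comp' he (GOp.map θ.hom) (by ring)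
  · exact GOp.map θ.inv
  · apply LinearMap.ext
    intro x
    change e (W.map θ.hom (W.map θ.inv x)) = e x
    rw [← W.map_comp, θ.hom_inv_id, W.map_id]

/-- A non-nilpotent numerically trivial operator of degree zero yields an idempotent. -/
lemma exists_idemg {x : Module.End W.K (W.H P)} (hx : x ∈ GOp S P P 0)
    (h0 : ∀ y ∈ GOp S P P 0, LinearMap.trace W.K (W.H P) (par (W.isInternal P) ∘ₗ x ∘ₗ y) = 0)
    (hn : ¬ IsNilpotent x) :
    ∃ g ∈ GOp S P P 0, g ∘ₗ g = g ∧ g ≠ 0 ∧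
      ∀ y ∈ GOp S P P 0, LinearMap.trace W.K (W.H P) (par (W.isInternal P) ∘ₗ g ∘ₗ y) = 0 := by
  let X' : Fin 1 → 𝒱.Obj := fun _ => P
  let α : Fin 1 → ℤ := fun _ => 0
  obtain ⟨g, hg, hgg, hg0, hB⟩ := (gcat S X' α).exists_idem (i := 0) (x := x)
    (GOp.cast hx (show (0 : ℤ) = 0 - 0 by ring))
    (fun y hy => h0 y (GOp.cast (S := S) (X := P) (Y := P) hy (show (0 : ℤ) - 0 = 0 by ring))) hn
  refine ⟨g, GOp.cast (S := S) (X := P) (Y := P) hg (show (0 : ℤ) - 0 = 0 by ring), hgg, hg0,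
    fun y hy => ?_⟩
  have hy' : y ∈ GOp S P P (α 0 - α 0) := GOp.cast hy (show (0 : ℤ) = 0 - 0 by ring)
  have hid : (LinearMap.id : Module.End W.K (W.H P)) ∈ GOp S P P (α 0 - α 0) :=
    GOp.cast GOp.id (show (0 : ℤ) = 0 - 0 by ring)
  have h1 := hB 0
  have h2 := congrArg (fun f => f ⟨y, hy'⟩ ⟨LinearMap.id, hid⟩) h1
  rw [Cat.B_apply] at h2
  exact h2

/-- Numerically trivial idempotents have no forms. -/
lemma rg_eq_zero_of_trace {g : Module.End W.K (W.H P)} (hg : g ∈ GOp S P P 0)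
    (h : ∀ y ∈ GOp S P P 0, LinearMap.trace W.K (W.H P) (par (W.isInternal P) ∘ₗ g ∘ₗ y) = 0)
    (Q : 𝒱.Obj) {d d' : ℤ} (hd : d + d' = P.dim + Q.dim) : rg S P g Q d d' = 0 := by
  let X' : Fin 2 → 𝒱.Obj := ![P, Q]
  let α : Fin 2 → ℤ := ![0, Q.dim - d]
  have a1 : d = (Q.dim : ℤ) + (0 - (Q.dim - d)) := by ring
  have a2 : d' = (P.dim : ℤ) + ((Q.dim - d) - 0) := by linarith
  have e1 := rBg S X' α 0 1 (g := g) (GOp.ev hg) a1 a2
  refine e1.symm.trans ?_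
  have h2 : (gcat S X' α).B 0 1 g LinearMap.id = 0 := by
    apply LinearMap.ext
    intro s
    apply LinearMap.ext
    intro t
    rw [Cat.B_apply]
    have hs : (s.1 : W.H Q →ₗ[W.K] W.H P) ∈ GOp S Q P (0 - (Q.dim - d)) := s.2
    have ht : (t.1 : W.H P →ₗ[W.K] W.H Q) ∈ GOp S P Q ((Q.dim - d) - 0) := t.2
    exact h _ (GOp.comp' hs ht (by ring))
  rw [h2, rk]
  simp

/-- Numerically trivial operators of degree zero on the powers of `X` are nilpotent. -/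
theorem nilp_g (hS : GBig S X) {m : ℕ} (θ : P ≅ pw X m) {x : Module.End W.K (W.H P)}
    (hx : x ∈ GOp S P P 0)
    (h0 : ∀ y ∈ GOp S P P 0, LinearMap.trace W.K (W.H P) (par (W.isInternal P) ∘ₗ x ∘ₗ y) = 0) :
    IsNilpotent x := by
  by_contra hn
  obtain ⟨g, hg, hgg, hg0, h⟩ := exists_idemg hx h0 hn
  obtain ⟨n₀, hn₀⟩ := glow_pw hS m (δ := 1 / 2) (by norm_num) 1
  have hJ : |2 * (((n₀ + 1) * X.dim / 2 : ℕ) : ℤ) - (n₀ + 1) * X.dim| ≤ (1 : ℕ) := by
    have h1 : (((n₀ + 1) * X.dim : ℕ) : ℤ) = (n₀ + 1) * X.dim := by push_cast; ring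
    rw [← h1, abs_le]
    generalize (n₀ + 1) * X.dim = m
    constructor <;> omega
  have h1 := hn₀ n₀ le_rfl P θ g hg hgg _ (P.dim + (n₀ + 1) * X.dim -
    (((n₀ + 1) * X.dim / 2 : ℕ) : ℤ)) (by ring) hJ
  rw [rg_eq_zero_of_trace hg h (pw X n₀) (by rw [dim_pw]; push_cast; ring)] at h1
  have h2 : (1 : ℝ) ≤ finrank W.K (LinearMap.range g) := by
    exact_mod_cast Sys.finrank_range_pos hg0
  have h3 := nrmg_pos hS n₀
  push_cast at h1
  nlinarith

/-- **Chains of stable subspaces**, for homogeneous classes. -/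
theorem gkey_chain (hST : ∀ X, S.C X ≤ T.C X) (P Q : 𝒱.Obj)
    (M : ℕ → Submodule W.K (W.H P)) (hM : ∀ n, ∀ a ∈ GOp S P P 0, ∀ m ∈ M n, a m ∈ M n) (l : ℕ)
    (hlt : ∀ n < l, M n < M (n + 1)) {d₀ : ℤ} (hT : M l ≤ GC T P d₀) (d : ℤ) :
    ∃ g : ℕ → Module.End W.K (W.H P),
      (∀ n < l, g n ∈ GOp S P P 0 ∧ g n ∘ₗ g n = g n ∧ g n ≠ 0) ∧
      ∑ n ∈ Finset.range l, rg S P (g n) Q (Q.dim + d₀ - d) (P.dim + d - d₀) ≤
        finrank W.K (GC T Q d) := by
  let X' : Fin 2 → 𝒱.Obj := ![P, Q]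
  let α : Fin 2 → ℤ := ![0, d - d₀]
  have hM' : ∀ n, (gcat S X' α).Stable (i := 0) (M n) := by
    intro n a ha m hm
    exact hM n a (GOp.cast (S := S) (X := P) (Y := P) ha (show (0 : ℤ) - 0 = 0 by ring)) m hm
  obtain ⟨g, hg, hs⟩ := (gcat S X' α).chain (i := 0) M hM' l hlt 1
  have hg' : ∀ n < l, g n ∈ GOp S P P 0 := fun n hn =>
    GOp.cast (S := S) (X := P) (Y := P) (hg n hn).1 (show (0 : ℤ) - 0 = 0 by ring)
  refine ⟨g, fun n hn => ⟨hg' n hn, (hg n hn).2⟩, ?_⟩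
  have h1 : ∑ n ∈ Finset.range l, rg S P (g n) Q (Q.dim + d₀ - d) (P.dim + d - d₀) =
      ∑ n ∈ Finset.range l,
      rk (A := (gcat S X' α).S 0 1) (B := (gcat S X' α).S 1 0)
        ((gcat S X' α).B 0 1 (g n) LinearMap.id) := by
    refine Finset.sum_congr rfl fun n hn => ?_
    exact (rBg S X' α 0 1 (g := g n) (GOp.ev (hg' n (Finset.mem_range.1 hn)))
      (show (Q.dim : ℤ) + d₀ - d = Q.dim + (0 - (d - d₀)) by ring)
      (show (P.dim : ℤ) + d - d₀ = P.dim + ((d - d₀) - 0) by ring)).symm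
  rw [h1]
  have h3 : (gcat S X' α).gen 0 1 (M l) ≤ (GC T Q d : Submodule W.K (W.H Q)) := by
    refine Submodule.span_le.2 ?_
    rintro _ ⟨v, hv, m, hm, rfl⟩
    have hv' : (v : W.H P →ₗ[W.K] W.H Q) ∈ GOp S P Q ((d - d₀) - 0) := hv
    exact GOp.apply (S := S) (X := P) (Y := Q) hST (T := T) hv' (hT hm) (by ring)
  refine hs.trans ?_
  exact Submodule.finrank_mono (R := W.K) (M := W.H Q) h3

/-- **The lower bound from a chain of stable subspaces.** -/
theorem low_chain (hST : ∀ X, S.C X ≤ T.C X) (hS : GBig S X) {m : ℕ} (θ : P ≅ pw X m)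
    (M : ℕ → Submodule W.K (W.H P)) (hM : ∀ n, ∀ a ∈ GOp S P P 0, ∀ m ∈ M n, a m ∈ M n) (l : ℕ)
    (hlt : ∀ n < l, M n < M (n + 1)) {d₀ : ℤ} (hT : M l ≤ GC T P d₀) {δ : ℝ} (hδ : 0 < δ)
    (J : ℕ) : ∃ n₀ : ℕ, ∀ n ≥ n₀, ∀ d : ℤ, |2 * d - (n + 1) * X.dim| ≤ J →
      ((l : ℝ) - δ) * nrmg S X n ≤ finrank W.K (GC T (pw X n) d) := by
  obtain ⟨n₀, hn₀⟩ := glow_pw hS m (δ := δ / (l + 1)) (by positivity) (J + 2 * d₀.natAbs)
  refine ⟨n₀, fun n hn d hd => ?_⟩
  obtain ⟨g, hg, hs⟩ := gkey_chain hST P (pw X n) M hM l hlt hT d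
  have h1 : ∀ i < l, (1 - δ / (l + 1)) * nrmg S X n ≤
      rg S P (g i) (pw X n) ((pw X n).dim + d₀ - d) (P.dim + d - d₀) := by
    intro i hi
    obtain ⟨g1, g2, g3⟩ := hg i hi
    have h2 := hn₀ n hn P θ (g i) g1 g2 ((pw X n).dim + d₀ - d) (P.dim + d - d₀)
      (by rw [dim_pw]; push_cast; ring) (by
        rw [dim_pw]
        push_cast
        have h3 := abs_le.1 hd
        have h4 : d₀ ≤ |d₀| := le_abs_self d₀
        have h5 : -d₀ ≤ |d₀| := neg_le_abs d₀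
        rw [abs_le]
        constructor
        · linarith [h3.2]
        · linarith [h3.1])
    have h3 : (1 : ℝ) ≤ finrank W.K (LinearMap.range (g i)) := by
      exact_mod_cast Sys.finrank_range_pos g3
    have h4 := nrmg_nonneg (S := S) (X := X) n
    refine le_trans ?_ h2
    exact mul_le_mul_of_nonneg_right (by linarith) h4
  have h2 : (l : ℝ) * ((1 - δ / (l + 1)) * nrmg S X n) ≤ finrank W.K (GC T (pw X n) d) := by
    have h3 : ∑ _i ∈ Finset.range l, (1 - δ / (l + 1)) * nrmg S X n ≤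
        ∑ i ∈ Finset.range l, (rg S P (g i) (pw X n) ((pw X n).dim + d₀ - d) (P.dim + d - d₀) : ℝ) :=
      Finset.sum_le_sum fun i hi => h1 i (Finset.mem_range.1 hi)
    rw [Finset.sum_const, Finset.card_range, nsmul_eq_mul] at h3
    refine h3.trans ?_
    exact_mod_cast hs
  refine le_trans ?_ h2
  have h4 := nrmg_nonneg (S := S) (X := X) n
  rw [← mul_assoc]
  refine mul_le_mul_of_nonneg_right ?_ h4
  have h5 : (l : ℝ) * (δ / (l + 1)) ≤ δ := by
    rw [mul_div_assoc', div_le_iff₀ (by positivity)]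
    nlinarith
  nlinarith

end Pool.Agent.H61.GX
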