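import Pool.Graph.R_seed8.Y163.Defs
import Pool.Graph.R_seed8.Y133.Half.PwDefs

/-!
# Integers near the middle
-/

open CategoryTheory AlgebraicGeometry

universe u

namespace Pool.Agent.H61.GX

open Pool.Agent.H914 VarClass Obj

variable {k : Type u} [Field k] {𝒱 : VarClass k}

/-- The integers `i n` stay at a bounded distance from `(n + 1) dim X / 2`. -/
def NearMiddle (X : 𝒱.Obj) (i : ℕ → ℕ) : Prop :=
  ∃ J : ℕ, ∀ n : ℕ, |2 * (i n : ℤ) - (n + 1) * X.dim| ≤ J

end Pool.Agent.H61.GX
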