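import Pool.Agent.H61.GX.Tate
import Pool.Agent.H61.GX.Defs

/-!
# The local index law for the orders of the poles of zeta functions
-/

open CategoryTheory AlgebraicGeometry

open scoped ENNReal

universe u v

namespace Pool.Agent.H61.GX

open Module Filter Topology
open Pool.Agent.H914 Pool.Agent.H914.VarClass Pool.Agent.H914.VarClass.Obj
  Pool.Agent.H914.WeilCohomology Pool.Agent.Y133.Half Pool.Agent.H61.ZX Pool.Agent.W534

variable {k : Type u} [Field k] {𝒱 : VarClass k} {ops : CycleOps 𝒱}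
  {W : WeilCohomology.{u, v} ops} {Q Z X Y : 𝒱.Obj} {S T : Sys W}

lemma Asy.tendsto {f : ℕ → ℤ → ℕ} {c : ℝ} {ν : ℕ → ℝ} (h : Asy X f c ν) (hν : ∀ n, 0 < ν n)
    {i : ℕ → ℕ} (hi : NearMiddle X i) :
    Tendsto (fun n => (f n (i n) : ℝ) / ν n) atTop (𝓝 c) := by
  obtain ⟨J, hJ⟩ := hi
  rw [Metric.tendsto_atTop]
  intro ε hε
  obtain ⟨n₀, hn₀⟩ := h (ε / 2) (by positivity) J
  refine ⟨n₀, fun n hn => ?_⟩
  have h1 := abs_le.1 (hn₀ n hn (i n) (hJ n))
  have h2 := hν n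
  rw [Real.dist_eq, abs_lt]
  constructor
  · rw [lt_sub_iff_add_lt, lt_div_iff₀ h2]
    nlinarith [h1.1]
  · rw [sub_lt_iff_lt_add, div_lt_iff₀ h2]
    nlinarith [h1.2]

/-- The limit of a ratio. -/
lemma ratio_lim {f g : ℕ → ℕ} {ν μ : ℕ → ℝ} {c c' : ℝ} (hc : 0 < c) (hc' : 0 < c')
    (hν : ∀ n, 0 < ν n) (hμ : ∀ n, 0 < μ n)
    (hf : Tendsto (fun n => (f n : ℝ) / ν n) atTop (𝓝 c))
    (hg : Tendsto (fun n => (g n : ℝ) / μ n) atTop (𝓝 c')) {R : ℝ≥0∞}
    (hR : Tendsto (fun n => ENNReal.ofReal (ν n / μ n)) atTop (𝓝 R)) :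
    Tendsto (fun n => (f n : ℝ≥0∞) / g n) atTop (𝓝 (R * ENNReal.ofReal (c / c'))) := by
  have h1 : Tendsto (fun n => ENNReal.ofReal (((f n : ℝ) / ν n) / ((g n : ℝ) / μ n))) atTop
      (𝓝 (ENNReal.ofReal (c / c'))) := ENNReal.tendsto_ofReal (hf.div hg hc'.ne')
  have hcc : 0 < c / c' := div_pos hc hc'
  have h2 : Tendsto (fun n => ENNReal.ofReal (ν n / μ n) *
      ENNReal.ofReal (((f n : ℝ) / ν n) / ((g n : ℝ) / μ n))) atTop
      (𝓝 (R * ENNReal.ofReal (c / c'))) := by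
    refine ENNReal.Tendsto.mul hR (Or.inr ENNReal.ofReal_ne_top) h1 (Or.inl ?_)
    exact (ENNReal.ofReal_pos.2 hcc).ne'
  refine h2.congr' ?_
  have h3 : ∀ᶠ n in atTop, 0 < (g n : ℝ) / μ n := hg.eventually (lt_mem_nhds hc')
  filter_upwards [h3] with n hn
  have hgn : (0 : ℝ) < g n := by
    by_contra h
    have h4 : (g n : ℝ) / μ n ≤ 0 := div_nonpos_of_nonpos_of_nonneg (not_lt.1 h) (hμ n).le
    linarith
  have hνn := hν n
  have hμn := hμ n
  rw [← ENNReal.ofReal_mul (div_pos hνn hμn).le]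
  have h5 : ν n / μ n * (((f n : ℝ) / ν n) / ((g n : ℝ) / μ n)) = (f n : ℝ) / g n := by
    field_simp
  rw [h5, ENNReal.ofReal_div_of_pos hgn, ENNReal.ofReal_natCast, ENNReal.ofReal_natCast]

section Pole

variable {p : ℕ} (Φ : FrobSystem W p) (σ : W.K →+* ℂ)

/-- The dimension of the space of generalised Tate classes of codimension `j`. -/
noncomputable def zz (Y : 𝒱.Obj) (j : ℕ) : ℕ := finrank W.K (Y163.genU Φ Y j)

lemma zz_eq (Y : 𝒱.Obj) (j : ℕ) : zz Φ Y j = finrank W.K (GC (tateSys Φ) Y (j : ℤ)) := by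
  rw [zz, gc_tate]

lemma zz_eq_ag (Y : 𝒱.Obj) (j : ℕ) : zz Φ Y j = ag (tateSys Φ) Y j (Y.dim - j) := by
  rw [zz_eq, ag_eq_of_gnondeg (gnondeg_tate Φ Y j) rfl]

lemma rr_eq (W : WeilCohomology.{u, v} ops) {Y : 𝒱.Obj} {j : ℕ} (hj : j ≤ Y.dim) :
    numRank ops Y j = ag (algSys W) Y j (Y.dim - j) := by
  rw [numRank_eq (W := W) hj, kRank_eq_ag, Nat.cast_sub hj]

lemma rr_le {Y : 𝒱.Obj} {j : ℕ} (hj : j ≤ Y.dim) : numRank ops Y j ≤ zz Φ Y j := by
  rw [rr_eq W hj, zz_eq_ag]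
  exact ag_mono (alg_le_tate Φ) _ _ _

variable {Φ σ}

lemma pf_iff (hp : 1 < p) {Y : 𝒱.Obj} (hRH : RiemannHyp Φ σ Y) {j : ℕ} (hj : j ≤ Y.dim) :
    PoleFormula Φ σ Y j ↔ numRank ops Y j = zz Φ Y j := by
  have h0 := (exists_stable Φ Y j).choose_spec.1
  rw [poleFormula_iff Φ hp σ hRH hj, numRank_eq (W := W) hj]
  constructor
  · rintro ⟨t, ht, h⟩
    rw [h (t * (exists_stable Φ Y j).choose) (Nat.mul_pos ht h0) (Dvd.intro _ rfl), zz,
      Y163.genU_eq Φ (Nat.mul_pos ht h0) (Dvd.intro_left _ rfl)]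
  · intro h
    refine ⟨_, h0, fun s hs hts => ?_⟩
    rw [h, zz, Y163.genU_eq Φ hs hts]

lemma zz_iso (θ : Z ≅ Y) (hd : Z.dim = Y.dim) (j : ℕ) : zz Φ Z j = zz Φ Y j := by
  rw [zz_eq_ag, zz_eq_ag, hd]
  exact ag_iso _ θ hd _ _

lemma rr_iso (W : WeilCohomology.{u, v} ops) (θ : Z ≅ Y) (hd : Z.dim = Y.dim) {j : ℕ}
    (hj : j ≤ Y.dim) : numRank ops Z j = numRank ops Y j := by
  rw [rr_eq W hj, rr_eq W (by omega), hd]
  exact ag_iso _ θ hd _ _

lemma order_unique (hp : 1 < p) {Y : 𝒱.Obj} (hRH : RiemannHyp Φ σ Y) {j z : ℕ} (hj : j ≤ Y.dim)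
    (h : Y163.PoleOrderIs Φ σ Y j z) : z = zz Φ Y j := by
  obtain ⟨t, ht, h1⟩ := h
  obtain ⟨t', ht', h2⟩ := Y163.poleOrderIs (Z := Y) hp hRH hj
  have e1 := h1 (t * t') (Nat.mul_pos ht ht') (Dvd.intro _ rfl)
  have e2 := h2 (t * t') (Nat.mul_pos ht ht') (Dvd.intro_left _ rfl)
  rw [e1] at e2
  have h3 := WithTop.coe_injective e2
  change z = finrank W.K (Y163.genU Φ Y j)
  omega

lemma alc_tate (X : 𝒱.Obj) (n : ℕ) :
    alc (tateSys Φ) X n = zz Φ (Y163.sq X n) ((n + 1) * X.dim) := by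
  rw [zz_eq_ag, alc, ac, ← ag_iso (tateSys Φ) (prodCongr (revPw X n) (revPw X n))
    (by simp only [dim_prod, dim_pw']), dim_pw, Y163.dim_sq]
  have h1 : ((2 * ((n + 1) * X.dim) : ℕ) : ℤ) - (((n + 1) * X.dim : ℕ) : ℤ) =
      (((n + 1) * X.dim : ℕ) : ℤ) := by push_cast; ring
  rw [h1]
  rfl

lemma alc_alg (W : WeilCohomology.{u, v} ops) (X : 𝒱.Obj) (n : ℕ) :
    alc (algSys W) X n = numRank ops (Y163.sq X n) ((n + 1) * X.dim) := by
  rw [Y163.numRank_sq (W := W), mrank_eq_alc]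

/-- The base law. -/
theorem base_index [IsAlgClosed W.K] (hp : 1 < p) (hRH : ∀ Z : 𝒱.Obj, RiemannHyp Φ σ Z)
    {D : X.Cycles} (hD : X.IsCyc 1 D) (hbig : Y163.Big ops X D) :
    ∃ N : ℕ∞, 1 ≤ N ∧ Tendsto (fun l => ENNReal.ofReal
        ((alc (tateSys Φ) X l : ℝ) / alc (algSys W) X l)) atTop (𝓝 (N : ℝ≥0∞)) ∧
      (N = 1 ↔ ∀ n, ∀ j ≤ (pw X n).dim, PoleFormula Φ σ (pw X n) j) := by
  obtain ⟨z, hz, hpos, hcase, -⟩ := Y163.tate_index' hp Φ σ hRH hD hbig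
  have hz' : ∀ n, z n = alc (tateSys Φ) X n := by
    intro n
    rw [order_unique hp (hRH _) (by rw [Y163.dim_sq]; omega) (hz n), alc_tate]
  simp only [hz', ← alc_alg W] at hcase hpos
  -- the formula for all powers implies that the ratios are one
  have hone : (∀ n, ∀ j ≤ (pw X n).dim, PoleFormula Φ σ (pw X n) j) →
      ∀ l, alc (algSys W) X l = alc (tateSys Φ) X l := by
    intro h l
    have e1 : (((l + 1) * X.dim : ℕ)) ≤ (pw X (l + l + 1)).dim := by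
      rw [dim_pw]
      exact Nat.mul_le_mul_right _ (by omega)
    have h1 := (pf_iff hp (hRH _) e1).1 (h (l + l + 1) ((l + 1) * X.dim) e1)
    have e2 : (((pw X l).prod (pw X l))).dim = (pw X (l + l + 1)).dim := by
      simp only [dim_prod, dim_pw]; ring
    rw [rr_eq W e1, zz_eq_ag, ← ag_iso (algSys W) (pwAdd X l l) e2,
      ← ag_iso (tateSys Φ) (pwAdd X l l) e2] at h1
    rw [alc, alc, ac, ac, dim_pw]
    have e3 : ((pw X (l + l + 1)).dim : ℤ) - (((l + 1) * X.dim : ℕ) : ℤ) =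
        (((l + 1) * X.dim : ℕ) : ℤ) := by rw [dim_pw]; push_cast; ring
    rw [e3] at h1
    exact h1
  have hposR : ∀ l, (0 : ℝ) < alc (algSys W) X l := fun l => by exact_mod_cast (hpos l).1
  have hlim1 : (∀ n, ∀ j ≤ (pw X n).dim, PoleFormula Φ σ (pw X n) j) →
      Tendsto (fun l => ENNReal.ofReal
        ((alc (tateSys Φ) X l : ℝ) / alc (algSys W) X l)) atTop (𝓝 1) := by
    intro h
    have h1 : (fun l => ENNReal.ofReal ((alc (tateSys Φ) X l : ℝ) / alc (algSys W) X l)) =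
        fun _ => 1 := by
      funext l
      rw [← hone h l, div_self (hposR l).ne', ENNReal.ofReal_one]
    rw [h1]
    exact tendsto_const_nhds
  rcases hcase with h | ⟨d, hd, -, hlim⟩ | hlim
  · have hall : ∀ n, ∀ j ≤ (pw X n).dim, PoleFormula Φ σ (pw X n) j := by
      intro n j hj
      have e1 : j ≤ (Y163.pw X n).dim := by rw [dim_pw']; exact hj
      rw [pf_iff hp (hRH _) hj]
      have h1 := (pf_iff hp (hRH _) e1).1 (h n j e1)
      rwa [zz_iso (revPw X n) (dim_pw' X n), rr_iso W (revPw X n) (dim_pw' X n) hj] at h1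
    exact ⟨1, le_rfl, by rw [ENat.toENNReal_one]; exact hlim1 hall, fun _ => hall, fun _ => rfl⟩
  · have h1 : Tendsto (fun l => ENNReal.ofReal
        ((alc (tateSys Φ) X l : ℝ) / alc (algSys W) X l)) atTop (𝓝 ((d : ℕ∞) : ℝ≥0∞)) := by
      have h2 := ENNReal.tendsto_ofReal hlim
      rw [ENNReal.ofReal_natCast] at h2
      exact h2
    refine ⟨(d : ℕ∞), by exact_mod_cast (by omega : 1 ≤ d), h1, ?_, ?_⟩
    · intro h
      have h2 : d = 1 := by exact_mod_cast h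
      omega
    · intro h
      have h2 := tendsto_nhds_unique h1 (hlim1 h)
      have h3 : d = 1 := by exact_mod_cast h2
      exact_mod_cast h3
  · have h1 : Tendsto (fun l => ENNReal.ofReal
        ((alc (tateSys Φ) X l : ℝ) / alc (algSys W) X l)) atTop (𝓝 ((⊤ : ℕ∞) : ℝ≥0∞)) :=
      ENNReal.tendsto_ofReal_atTop.comp hlim
    refine ⟨⊤, le_top, h1, ?_, ?_⟩
    · intro h
      exact absurd h (by decide)
    · intro h
      have h2 := tendsto_nhds_unique h1 (hlim1 h)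
      exact absurd h2 (by simp)

lemma ag_le_of_gc {d e : ℤ} (h1 : GC S Q d ≤ GC T Q d) (h2 : GC S Q e ≤ GC T Q e) :
    ag S Q d e ≤ ag T Q d e := by
  rw [ag, ag, cg, cg]
  have h : FG S Q 1 d e = (FG T Q 1 d e).compl₁₂ (Submodule.inclusion h1)
      (Submodule.inclusion h2) := rfl
  rw [h]
  exact rk_comp_le _ _ _

lemma ag_le_finrank (S : Sys W) (Q : 𝒱.Obj) (d e : ℤ) : ag S Q d e ≤ finrank W.K (GC S Q d) :=
  LinearMap.finrank_range_le _

/-- The formula for all integers implies that all generalised Tate classes are algebraic. -/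
lemma c_eq_of_pf (hp : 1 < p) {Y : 𝒱.Obj} (hRH : RiemannHyp Φ σ Y)
    (h : ∀ j ≤ Y.dim, PoleFormula Φ σ Y j) : (algSys W).C Y = (tateSys Φ).C Y := by
  apply le_antisymm (alg_le_tate Φ Y)
  intro x hx
  refine TC.ind (Φ := Φ) (q := fun x => x ∈ (algSys W).C Y) ?_ (Submodule.zero_mem _)
    (fun a b ha hb => Submodule.add_mem _ ha hb) hx
  intro s j hs x hx
  by_cases hj : j ≤ Y.dim
  · have h1 := (pf_iff hp hRH hj).1 (h j hj)
    rw [rr_eq W hj, zz_eq] at h1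
    have h2 := ag_le_finrank (algSys W) Y j (Y.dim - j)
    have h3 := Submodule.eq_of_le_of_finrank_le (GC_mono (alg_le_tate Φ) Y j) (by omega)
    have h4 : x ∈ GC (tateSys Φ) Y (j : ℤ) := ⟨TC.of hs hx, by rw [gz_nat]; exact hx.2⟩
    rw [← h3] at h4
    exact h4.1
  · have h1 := hx.2
    rw [W.gr_eq_bot Y (2 * j) (by omega)] at h1
    rw [(Submodule.mem_bot _).1 h1]
    exact Submodule.zero_mem _

lemma pf_of_gc (hp : 1 < p) {Y : 𝒱.Obj} (hRH : RiemannHyp Φ σ Y)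
    (h : ∀ d, GC (algSys W) Y d = GC (tateSys Φ) Y d) {j : ℕ} (hj : j ≤ Y.dim) :
    PoleFormula Φ σ Y j := by
  rw [pf_iff hp hRH hj, rr_eq W hj, zz_eq_ag]
  exact le_antisymm (ag_le_of_gc (h _).le (h _).le) (ag_le_of_gc (h _).ge (h _).ge)

/-- The middle. -/
lemma nearMiddle_half (X : 𝒱.Obj) : NearMiddle X (fun n => (n + 1) * X.dim / 2) := by
  refine ⟨1, fun n => ?_⟩
  have h1 : (((n + 1) * X.dim : ℕ) : ℤ) = (n + 1) * X.dim := by push_cast; ring
  change |2 * (((n + 1) * X.dim / 2 : ℕ) : ℤ) - (n + 1) * X.dim| ≤ (1 : ℕ)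
  rw [← h1, abs_le]
  generalize (n + 1) * X.dim = m
  constructor <;> omega

/-- The normalising factors of two systems. -/
lemma nrm_ratio (hS : GBig S X) {N : ℕ∞}
    (h : Tendsto (fun l => ENNReal.ofReal ((alc T X l : ℝ) / alc S X l)) atTop (𝓝 (N : ℝ≥0∞))) :
    Tendsto (fun n => ENNReal.ofReal (nrmg T X n / nrmg S X n)) atTop (𝓝 (N : ℝ≥0∞)) := by
  have hb : (0 : ℝ) < finrank W.K (W.H X) := by exact_mod_cast hS.hX
  have h1 : (fun n => ENNReal.ofReal (nrmg T X n / nrmg S X n)) =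
      (fun l => ENNReal.ofReal ((alc T X l : ℝ) / alc S X l)) ∘
        (fun n => (n - n % 2 - 2) / 2) := by
    funext n
    rw [Function.comp_apply, nrmg, nrmg, mul_div_mul_left _ _ (by positivity)]
  rw [h1]
  refine h.comp (tendsto_atTop_atTop.2 fun b => ⟨2 * b + 4, fun n hn => ?_⟩)
  omega

lemma NearMiddle.le {i : ℕ → ℕ} (hi : NearMiddle X i) (hd : 0 < X.dim) :
    ∃ n₀, ∀ n ≥ n₀, i n ≤ (n + 1) * X.dim := by
  obtain ⟨J, hJ⟩ := hi
  refine ⟨J, fun n hn => ?_⟩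
  have h1 := (abs_le.1 (hJ n)).2
  have h2 : (J : ℤ) ≤ (n + 1) * X.dim := by
    have h3 : (J : ℤ) ≤ n := by exact_mod_cast hn
    have h4 : (1 : ℤ) ≤ X.dim := by exact_mod_cast hd
    nlinarith
  have h3 : (i n : ℤ) ≤ (n + 1) * X.dim := by linarith
  exact_mod_cast h3

/-- A gap from a limit which is at least `1 / c`. -/
lemma gap_of_lim {f g : ℕ → ℕ → ℕ} {L : ℝ≥0∞} {c : ℝ} (hc : 0 < c)
    (hL : ENNReal.ofReal (1 / c) ≤ L)
    (h : ∀ i, NearMiddle X i → Tendsto (fun n => (f n (i n) : ℝ≥0∞) / g n (i n)) atTop (𝓝 L))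
    (J : ℕ) {ε : ℝ} (hε : 0 < ε) : ∃ n₀ : ℕ, ∀ n ≥ n₀, ∀ i : ℕ,
      |2 * (i : ℤ) - (n + 1) * X.dim| ≤ J → (g n i : ℝ) ≤ (c + ε) * f n i := by
  classical
  by_contra hcon
  push Not at hcon
  let P : ℕ → ℕ → Prop := fun n i => |2 * (i : ℤ) - (n + 1) * X.dim| ≤ J ∧
    (c + ε) * f n i < g n i
  let i : ℕ → ℕ := fun n => if h : ∃ i, P n i then h.choose else (n + 1) * X.dim / 2
  have hi : NearMiddle X i := by
    obtain ⟨J', hJ'⟩ := nearMiddle_half X
    refine ⟨max J J', fun n => ?_⟩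
    by_cases h : ∃ i, P n i
    · have h1 : i n = h.choose := dif_pos h
      rw [h1]
      exact h.choose_spec.1.trans (by exact_mod_cast le_max_left _ _)
    · have h1 : i n = (n + 1) * X.dim / 2 := dif_neg h
      rw [h1]
      exact (hJ' n).trans (by exact_mod_cast le_max_right _ _)
  have h1 : ENNReal.ofReal (1 / (c + ε)) < L := by
    refine lt_of_lt_of_le ?_ hL
    rw [ENNReal.ofReal_lt_ofReal_iff (by positivity)]
    exact one_div_lt_one_div_of_lt hc (by linarith)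
  obtain ⟨n₀, hn₀⟩ := eventually_atTop.1 ((h i hi).eventually (lt_mem_nhds h1))
  obtain ⟨n, hn, i', hi', hlt⟩ := hcon n₀
  have hP : ∃ i, P n i := ⟨i', hi', hlt⟩
  have e1 : i n = hP.choose := dif_pos hP
  have e2 := hP.choose_spec.2
  rw [← e1] at e2
  have e3 := hn₀ n hn
  have hg : (0 : ℝ) < g n (i n) := lt_of_le_of_lt (by positivity) e2
  have e4 : (f n (i n) : ℝ≥0∞) / g n (i n) = ENNReal.ofReal ((f n (i n) : ℝ) / g n (i n)) := by
    rw [ENNReal.ofReal_div_of_pos hg, ENNReal.ofReal_natCast, ENNReal.ofReal_natCast]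
  rw [e4, ENNReal.ofReal_lt_ofReal_iff_of_nonneg (by positivity), div_lt_div_iff₀ (by positivity) hg]
    at e3
  nlinarith

lemma gap_const {N : ℕ∞} {q r β : ℕ} (hN : 1 ≤ N) (hq : 1 ≤ q) (hqr : q ≤ r) (hr : r ≤ β)
    (h : ¬ (N = 1 ∧ r = q)) :
    ENNReal.ofReal (1 / max (1 / 2 : ℝ) (1 - 1 / β)) ≤ (N : ℝ≥0∞) * ((r : ℝ≥0∞) / q) := by
  have hq' : (q : ℝ≥0∞) ≠ 0 := by exact_mod_cast (by omega : q ≠ 0)
  have h5 : (1 : ℝ≥0∞) ≤ (r : ℝ≥0∞) / q := by
    rw [ENNReal.le_div_iff_mul_le (Or.inl hq') (Or.inl (ENNReal.natCast_ne_top _)), one_mul]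
    exact_mod_cast hqr
  by_cases hN1 : N = 1
  · have hrq : q + 1 ≤ r := by
      have : r ≠ q := fun h' => h ⟨hN1, h'⟩
      omega
    have hq0 : (0 : ℝ) < q := by exact_mod_cast hq
    have hr0 : (0 : ℝ) < r := by exact_mod_cast (by omega : 0 < r)
    have hβ0 : (0 : ℝ) < β := by exact_mod_cast (by omega : 0 < β)
    rw [hN1, ENat.toENNReal_one, one_mul]
    have e1 : (r : ℝ≥0∞) / q = ENNReal.ofReal ((r : ℝ) / q) := by
      rw [ENNReal.ofReal_div_of_pos hq0, ENNReal.ofReal_natCast, ENNReal.ofReal_natCast]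
    rw [e1]
    apply ENNReal.ofReal_le_ofReal
    have e2 : (q : ℝ) / r ≤ max (1 / 2 : ℝ) (1 - 1 / β) := by
      refine le_trans ?_ (le_max_right _ _)
      have e3 : (q : ℝ) + 1 ≤ r := by exact_mod_cast hrq
      have e4 : (1 : ℝ) / β ≤ 1 / r := one_div_le_one_div_of_le hr0 (by exact_mod_cast hr)
      have e5 : (q : ℝ) / r ≤ 1 - 1 / r := by
        rw [div_le_iff₀ hr0, sub_mul, one_mul, one_div, inv_mul_cancel₀ hr0.ne']
        linarith
      linarith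
    have e6 : (r : ℝ) / q = 1 / ((q : ℝ) / r) := by rw [one_div_div]
    rw [e6]
    exact one_div_le_one_div_of_le (by positivity) e2
  · have h2 : (2 : ℝ≥0∞) ≤ N := by
      have h3 : (2 : ℕ∞) ≤ N := by
        have h4 : (1 : ℕ∞) < N := lt_of_le_of_ne hN (Ne.symm hN1)
        have h5 := Order.add_one_le_of_lt h4
        rwa [one_add_one_eq_two] at h5
      exact_mod_cast h3
    calc ENNReal.ofReal (1 / max (1 / 2 : ℝ) (1 - 1 / β)) ≤ ENNReal.ofReal 2 := by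
          apply ENNReal.ofReal_le_ofReal
          rw [div_le_iff₀ (lt_of_lt_of_le (by norm_num) (le_max_left _ _))]
          have := le_max_left (1 / 2 : ℝ) (1 - 1 / β)
          linarith
      _ = 2 := by norm_num
      _ ≤ N := h2
      _ = N * 1 := (mul_one _).symm
      _ ≤ _ := mul_le_mul_right h5 _

/-- **The local index law.** -/
theorem local_index [IsAlgClosed W.K] (hp : 1 < p) (hRH : ∀ Z : 𝒱.Obj, RiemannHyp Φ σ Z)
    {D : X.Cycles} (hD : X.IsCyc 1 D) (hbig : Y163.Big ops X D) (hd : 0 < X.dim)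
    {E : Z.Cycles} (hE : Z.IsCyc 1 E) (hbigZ : Y163.Big ops Z E) :
    ∃ (N : ℕ∞) (q r : ℕ), 1 ≤ N ∧ 1 ≤ q ∧ q ≤ r ∧ r ≤ finrank W.K (W.H Z) ∧
      (∀ i j : ℕ → ℕ, NearMiddle X i → NearMiddle X j →
        Tendsto (fun n => (zz Φ (pw X n) (i n) : ℝ≥0∞) / numRank ops (pw X n) (j n)) atTop
          (𝓝 (N : ℝ≥0∞)) ∧
        Tendsto (fun n => (zz Φ (Z.prod (pw X n)) (i n) : ℝ≥0∞) / zz Φ (pw X n) (j n)) atTop
          (𝓝 (r : ℝ≥0∞)) ∧
        Tendsto (fun n => (numRank ops (Z.prod (pw X n)) (i n) : ℝ≥0∞) /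
          numRank ops (pw X n) (j n)) atTop (𝓝 (q : ℝ≥0∞)) ∧
        Tendsto (fun n => (zz Φ (Z.prod (pw X n)) (i n) : ℝ≥0∞) /
          numRank ops (Z.prod (pw X n)) (j n)) atTop (𝓝 ((N : ℝ≥0∞) * ((r : ℝ≥0∞) / q)))) ∧
      (N = 1 ↔ ∀ n, ∀ j ≤ (pw X n).dim, PoleFormula Φ σ (pw X n) j) ∧
      ((N = 1 ∧ r = q) ↔ ∀ n, ∀ j ≤ (Z.prod (pw X n)).dim,
        PoleFormula Φ σ (Z.prod (pw X n)) j) ∧
      (¬ (N = 1 ∧ r = q) → ∀ (J : ℕ) (ε : ℝ), 0 < ε → ∃ n₀ : ℕ, ∀ n ≥ n₀, ∀ i : ℕ,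
        |2 * (i : ℤ) - (n + 1) * X.dim| ≤ J → (numRank ops (Z.prod (pw X n)) i : ℝ) ≤
          (max (1 / 2 : ℝ) (1 - 1 / finrank W.K (W.H Z)) + ε) * zz Φ (Z.prod (pw X n)) i) := by
  have hX : par (W.isInternal X) ∈ KOp W X X 0 := Y163.par_mem_of_RH Φ hp σ (hRH X)
  have htr : W.tr X (W.cl X D ^ X.dim) ≠ 0 := hbig.tr hD
  have htrZ : W.tr Z (W.cl Z E ^ Z.dim) ≠ 0 := hbigZ.tr hE
  have hS : GBig (algSys W) X := gbig_alg hX hD htr hd
  have hT : GBig (tateSys Φ) X := hS.mono' (alg_le_tate Φ) (e := finrank W.K (W.H X) ^ 2)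
    fun n => by
      rw [← mrank_eq_alc]
      exact Y163.mrank_growth hX n
  obtain ⟨N, hN1, hN2, hN3⟩ := base_index hp hRH hD hbig
  obtain ⟨q, r, hq1, hqr, hr, a1, a2, a3⟩ := glaw (X := X) (Z := Z) (alg_le_tate Φ) hS hT
    (gnondeg_tate Φ) (alg_pt hE htrZ)
  have a4 := asy_pw hS
  have a5 : Asy X (fun n d => finrank W.K (GC (tateSys Φ) (pw X n) d)) 1 (nrmg (tateSys Φ) X) := by
    refine (asy_pw hT).congr fun n d => ?_
    rw [ag_eq_of_gnondeg (gnondeg_tate Φ _ d)]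
    rw [dim_pw]; push_cast; ring
  have hq0 : (0 : ℝ) < q := by exact_mod_cast hq1
  have hr0 : (0 : ℝ) < r := by exact_mod_cast hq1.trans hqr
  have hNr := nrm_ratio hS hN2
  -- the four sequences
  have t1 : ∀ i, NearMiddle X i → Tendsto (fun n => (zz Φ (pw X n) (i n) : ℝ) /
      nrmg (tateSys Φ) X n) atTop (𝓝 1) := by
    intro i hi
    refine (a5.tendsto (nrmg_pos hT) hi).congr fun n => ?_
    rw [zz_eq]
  have t2 : ∀ i, NearMiddle X i → Tendsto (fun n => (numRank ops (pw X n) (i n) : ℝ) /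
      nrmg (algSys W) X n) atTop (𝓝 1) := by
    intro i hi
    refine (a4.tendsto (nrmg_pos hS) hi).congr' ?_
    obtain ⟨n₀, hn₀⟩ := hi.le hd
    filter_upwards [eventually_ge_atTop n₀] with n hn
    rw [rr_eq W (by rw [dim_pw]; exact hn₀ n hn), dim_pw]
    push_cast
    rfl
  have t3 : ∀ i, NearMiddle X i → Tendsto (fun n => (zz Φ (Z.prod (pw X n)) (i n) : ℝ) /
      nrmg (tateSys Φ) X n) atTop (𝓝 r) := by
    intro i hi
    refine (a2.tendsto (nrmg_pos hT) hi).congr fun n => ?_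
    rw [zz_eq]
  have t4 : ∀ i, NearMiddle X i → Tendsto (fun n => (numRank ops (Z.prod (pw X n)) (i n) : ℝ) /
      nrmg (algSys W) X n) atTop (𝓝 q) := by
    intro i hi
    refine (a1.tendsto (nrmg_pos hS) hi).congr' ?_
    obtain ⟨n₀, hn₀⟩ := hi.le hd
    filter_upwards [eventually_ge_atTop n₀] with n hn
    have h1 : i n ≤ (Z.prod (pw X n)).dim := by
      rw [dim_prod, dim_pw]
      exact (hn₀ n hn).trans (Nat.le_add_left _ _)
    rw [rr_eq W h1, dim_prod, dim_pw]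
    push_cast
    rfl
  have hself : ∀ {U : Sys W}, GBig U X →
      Tendsto (fun n => ENNReal.ofReal (nrmg U X n / nrmg U X n)) atTop (𝓝 1) := by
    intro U hU
    have h1 : (fun n => ENNReal.ofReal (nrmg U X n / nrmg U X n)) = fun _ => 1 := by
      funext n
      rw [div_self (nrmg_pos hU n).ne', ENNReal.ofReal_one]
    rw [h1]
    exact tendsto_const_nhds
  have hlim : ∀ i j : ℕ → ℕ, NearMiddle X i → NearMiddle X j →
        Tendsto (fun n => (zz Φ (Z.prod (pw X n)) (i n) : ℝ≥0∞) /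
          numRank ops (Z.prod (pw X n)) (j n)) atTop (𝓝 ((N : ℝ≥0∞) * ((r : ℝ≥0∞) / q))) := by
    intro i j hi hj
    have h := ratio_lim hr0 hq0 (nrmg_pos hT) (nrmg_pos hS) (t3 i hi) (t4 j hj) hNr
    rwa [ENNReal.ofReal_div_of_pos hq0, ENNReal.ofReal_natCast, ENNReal.ofReal_natCast] at h
  refine ⟨N, q, r, hN1, hq1, hqr, hr, fun i j hi hj => ⟨?_, ?_, ?_, hlim i j hi hj⟩, hN3, ?_,
    fun hne J ε hε => gap_of_lim (lt_of_lt_of_le (by norm_num) (le_max_left _ _))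
      (gap_const hN1 hq1 hqr hr hne) (fun i hi => hlim i i hi hi) J hε⟩
  · have h := ratio_lim one_pos one_pos (nrmg_pos hT) (nrmg_pos hS) (t1 i hi) (t2 j hj) hNr
    rwa [div_one, ENNReal.ofReal_one, mul_one] at h
  · have h := ratio_lim hr0 one_pos (nrmg_pos hT) (nrmg_pos hT) (t3 i hi) (t1 j hj) (hself hT)
    rwa [div_one, ENNReal.ofReal_natCast, one_mul] at h
  · have h := ratio_lim hq0 one_pos (nrmg_pos hS) (nrmg_pos hS) (t4 i hi) (t2 j hj) (hself hS)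
    rwa [div_one, ENNReal.ofReal_natCast, one_mul] at h
  · constructor
    · rintro ⟨rfl, hrq⟩ n j hj
      have hpf := hN3.1 rfl
      exact pf_of_gc hp (hRH _) (a3 hrq.symm (fun n => c_eq_of_pf hp (hRH _) (hpf n)) n) hj
    · intro h
      have hi := nearMiddle_half X
      have h1 := hlim _ _ hi hi
      have h2 : ∀ᶠ n in atTop, 0 < (zz Φ (Z.prod (pw X n)) ((n + 1) * X.dim / 2) : ℝ) /
          nrmg (tateSys Φ) X n := (t3 _ hi).eventually (lt_mem_nhds hr0)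
      obtain ⟨n₀, hn₀⟩ := hi.le hd
      have h3 : Tendsto (fun n => (zz Φ (Z.prod (pw X n)) ((n + 1) * X.dim / 2) : ℝ≥0∞) /
          numRank ops (Z.prod (pw X n)) ((n + 1) * X.dim / 2)) atTop (𝓝 1) := by
        refine tendsto_const_nhds.congr' ?_
        filter_upwards [h2, eventually_ge_atTop n₀] with n hn hn'
        have h4 : (n + 1) * X.dim / 2 ≤ (Z.prod (pw X n)).dim := by
          rw [dim_prod, dim_pw]
          exact (hn₀ n hn').trans (Nat.le_add_left _ _)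
        rw [(pf_iff hp (hRH _) h4).1 (h n _ h4)]
        have h5 : zz Φ (Z.prod (pw X n)) ((n + 1) * X.dim / 2) ≠ 0 := by
          intro h6
          rw [h6] at hn
          simp at hn
        rw [ENNReal.div_self (by exact_mod_cast h5) (ENNReal.natCast_ne_top _)]
      have h4 := tendsto_nhds_unique h1 h3
      have hq' : (q : ℝ≥0∞) ≠ 0 := by exact_mod_cast (by omega : q ≠ 0)
      have h5 : (1 : ℝ≥0∞) ≤ (r : ℝ≥0∞) / q := by
        rw [ENNReal.le_div_iff_mul_le (Or.inl hq') (Or.inl (ENNReal.natCast_ne_top _)), one_mul]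
        exact_mod_cast hqr
      have h6 : (N : ℝ≥0∞) ≤ 1 := by
        rw [← h4]
        calc (N : ℝ≥0∞) = N * 1 := (mul_one _).symm
          _ ≤ N * ((r : ℝ≥0∞) / q) := mul_le_mul_right h5 _
      have h7 : N ≤ 1 := by exact_mod_cast h6
      have h8 : N = 1 := le_antisymm h7 hN1
      refine ⟨h8, ?_⟩
      rw [h8, ENat.toENNReal_one, one_mul] at h4
      rw [ENNReal.div_eq_one_iff hq' (ENNReal.natCast_ne_top _)] at h4
      exact_mod_cast h4

end Pole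

end Pool.Agent.H61.GX
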