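import Pool.Agent.H61.GX.Num
import Pool.Agent.H61.GX.Pole

/-!
# The gap law for the homogeneous classes on `Z × X^n`
-/

open CategoryTheory AlgebraicGeometry

universe u v

namespace Pool.Agent.H61.GX

open Module Filter Topology
open Pool.Agent.H914 Pool.Agent.H914.VarClass Pool.Agent.H914.VarClass.Obj
  Pool.Agent.H914.WeilCohomology Pool.Agent.Y133.Half Pool.Agent.H61.ZX

/-- Two orthogonal subspaces meeting neither kernel. -/
lemma isotropic_le₂ {K V U : Type*} [Field K] [AddCommGroup V] [Module K V] [FiniteDimensional K V]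
    [AddCommGroup U] [Module K U] [FiniteDimensional K U]
    (Φ : V →ₗ[K] U →ₗ[K] K) (N : Submodule K V) (N' : Submodule K U)
    (h0 : ∀ x ∈ N, ∀ y ∈ N', Φ x y = 0)
    (hl : ∀ x ∈ N, Φ x = 0 → x = 0) (hr : ∀ x ∈ N', Φ.flip x = 0 → x = 0) :
    finrank K N + finrank K N' ≤ rk Φ := by
  let β : N' →ₗ[K] V →ₗ[K] K := Φ.flip ∘ₗ N'.subtype
  have h1 : rk β = finrank K N' := by
    have h2 : Function.Injective β := by
      rw [← LinearMap.ker_eq_bot, LinearMap.ker_eq_bot']
      intro x hx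
      exact Subtype.ext (hr x x.2 hx)
    exact LinearMap.finrank_range_of_inj h2
  have h2 := rk_flip β
  have h3 := LinearMap.finrank_range_add_finrank_ker β.flip
  have h4 := LinearMap.finrank_range_add_finrank_ker Φ
  have h5 : LinearMap.ker Φ ⊔ N ≤ LinearMap.ker β.flip := by
    refine sup_le ?_ ?_
    · intro x hx
      rw [LinearMap.mem_ker] at hx ⊢
      apply LinearMap.ext
      intro y
      change Φ x y = 0
      rw [hx]
      rfl
    · intro x hx
      rw [LinearMap.mem_ker]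
      apply LinearMap.ext
      intro y
      exact h0 x hx y y.2
  have h6 := Submodule.finrank_sup_add_finrank_inf_eq (LinearMap.ker Φ) N
  have h7 : LinearMap.ker Φ ⊓ N = ⊥ := by
    rw [eq_bot_iff]
    rintro x ⟨hx, hx'⟩
    rw [Submodule.mem_bot]
    exact hl x hx' (LinearMap.mem_ker.1 hx)
  rw [h7, finrank_bot, add_zero] at h6
  have h8 := Submodule.finrank_mono h5
  change rk β.flip + _ = _ at h3
  change rk Φ + _ = _ at h4
  omega

variable {k : Type u} [Field k] {𝒱 : VarClass k} {ops : CycleOps 𝒱}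
  {W : WeilCohomology.{u, v} ops} {P P₀ Q Z Z' X Y M N : 𝒱.Obj} {S T : Sys W}

lemma finrank_comap {d : ℤ} {M : Submodule W.K (W.H Q)} (h : M ≤ GC T Q d) :
    finrank W.K (M.comap (GC T Q d).subtype) = finrank W.K M :=
  (Submodule.comapSubtypeEquivOfLe h).finrank_eq

lemma gnum_ker (hS : SGr S) (Q : 𝒱.Obj) (d : ℤ) :
    finrank W.K (LinearMap.ker (FG S Q 1 d (Q.dim - d))) = finrank W.K (GNum S Q d) := by
  have h2 : (LinearMap.ker (FG S Q 1 d (Q.dim - d))).map (GC S Q d).subtype = GNum S Q d := by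
    ext x
    constructor
    · rintro ⟨c, hc, rfl⟩
      rw [mem_gnum hS]
      refine ⟨c.2, fun y hy => ?_⟩
      exact congrArg (fun f : GC S Q (Q.dim - d) →ₗ[W.K] W.K => f ⟨y, hy⟩)
        (LinearMap.mem_ker.1 hc)
    · intro hx
      rw [mem_gnum hS] at hx
      refine ⟨⟨x, hx.1⟩, ?_, rfl⟩
      rw [SetLike.mem_coe, LinearMap.mem_ker]
      apply LinearMap.ext
      intro y
      exact hx.2 y y.2
  rw [← h2]
  exact (Submodule.equivMapOfInjective _ (Submodule.subtype_injective _) _).finrank_eq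

lemma ag_add_gnum (hS : SGr S) (Q : 𝒱.Obj) (d : ℤ) :
    ag S Q d (Q.dim - d) + finrank W.K (GNum S Q d) = finrank W.K (GC S Q d) := by
  rw [← gnum_ker hS]
  exact LinearMap.finrank_range_add_finrank_ker (FG S Q 1 d (Q.dim - d))

lemma eq_zero_right {d d' : ℤ} (hd : d = Q.dim - d') (hT : GNondeg T Q d')
    {y : W.H Q} (hy : y ∈ GC T Q d') (h : ∀ c ∈ GC T Q d, W.tr Q (c * y) = 0) : y = 0 := by
  subst hd
  refine hT y hy fun c hc => ?_
  rw [PH.even_comm (T.even hy.1)]
  exact h c hc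

/-- **Half of the classes**, on average over a codimension and the complementary one. -/
lemma half_pair (hS : SGr S) (hST : ∀ X, S.C X ≤ T.C X) {d d' : ℤ} (hd : d + d' = Q.dim)
    (hT : GNondeg T Q d) (hT' : GNondeg T Q d') :
    finrank W.K (GC S Q d) + finrank W.K (GC S Q d') ≤
      ag S Q d d' + finrank W.K (GC T Q d) := by
  have e1 : d' = Q.dim - d := by linarith
  have e2 : d = Q.dim - d' := by linarith
  have h1 := ag_add_gnum hS Q d
  rw [← e1] at h1
  have h2 : ag T Q d d' = finrank W.K (GC T Q d) := ag_eq_of_gnondeg hT e1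
  have h3 : GNum S Q d ≤ GC T Q d := (gnum_le Q d).trans (GC_mono hST Q d)
  have h4 : GC S Q d' ≤ GC T Q d' := GC_mono hST Q d'
  have h5 := isotropic_le₂ (FG T Q 1 d d') ((GNum S Q d).comap (GC T Q d).subtype)
    ((GC S Q d').comap (GC T Q d').subtype) (fun x hx y hy => hx.1.2 y hy.1)
    (fun x hx h => Subtype.ext (by
      subst e1
      exact hT x x.2 fun y hy =>
        congrArg (fun f : GC T Q (Q.dim - d) →ₗ[W.K] W.K => f ⟨y, hy⟩) h))
    (fun y hy h => Subtype.ext (eq_zero_right e2 hT' y.2 fun c hc =>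
        congrArg (fun f : GC T Q d →ₗ[W.K] W.K => f ⟨c, hc⟩) h))
  rw [finrank_comap h3, finrank_comap h4] at h5
  change _ ≤ ag T Q d d' at h5
  omega

lemma gidl_le_idl (S : Sys W) (X Z : 𝒱.Obj) : gidl S S X Z ≤ idl S S X Z := by
  refine Submodule.span_le.2 ?_
  rintro _ ⟨n, r, s, hs, v, hv, rfl⟩
  exact Submodule.subset_span ⟨n, s, GOp.op hs, v, GOp.op hv, rfl⟩

/-- **The numerically trivial classes of given codimension.** -/
theorem gnum_le_rg (hST : ∀ X, S.C X ≤ T.C X) (hN : ∀ n, S.Num (pw X n) = ⊥)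
    {n : ℕ} {d d' : ℤ} (hd : d + d' = (Z.prod (pw X n)).dim)
    (hT : GNondeg T (Z.prod (pw X n)) d) (hT' : GNondeg T (Z.prod (pw X n)) d')
    {π : Module.End W.K (W.H Z)} (hπ : π ∈ GOp S Z Z 0) (hgen : π ∈ gidl S S X Z) :
    finrank W.K (GNum S (Z.prod (pw X n)) d) + finrank W.K (GNum S (Z.prod (pw X n)) d') ≤
      rg T Z (1 - π) (pw X n) d d' := by
  have hev : Ev W π := GOp.ev hπ
  obtain ⟨π', hπ', hadj⟩ := Sys.Op.exists_adj (GOp.op hπ)
  have hadj' : Adj W π' π := hadj.symm hev (Sys.Op.ev hπ')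
  -- `π ⊗ 1` vanishes on the numerically trivial classes
  have e1 : ∀ c ∈ S.Num (Z.prod (pw X n)), extOp W π 1 c = 0 := by
    intro c hc
    have h1 : W.map (swap (pw X n) Z) c ∈ S.Num ((pw X n).prod Z) := Sys.Num.map _ hc
    have h2 := idl_comp_N hN (gidl_le_idl S X Z hgen) (Sys.NOp.corr h1)
    rw [← corr_one_ext hev, ← ext_swap hev] at h2
    have h3 := congrArg (W.map (swap Z (pw X n))) (corr_inj h2)
    rwa [swap_swap, map_zero] at h3
  have e2 : ∀ c ∈ S.Num (Z.prod (pw X n)), extOp W π' 1 c = 0 := by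
    intro c hc
    have h2 := N_comp_idl hN (gidl_le_idl S X Z hgen) (Sys.NOp.corr hc)
    have h3 : W.corr (extOp W π' 1 c) = 1 ∘ₗ W.corr c ∘ₗ π := corr_extOp hadj' hev Ev.id c
    rw [h2, LinearMap.comp_zero] at h3
    exact corr_inj h3
  have hsub : ∀ (g : Module.End W.K (W.H Z)) (c : W.H (Z.prod (pw X n))),
      extOp W (1 - g) 1 c = c - extOp W g 1 c := by
    intro g c
    have h1 : extOp W (1 - g) (1 : Module.End W.K (W.H (pw X n))) = 1 - extOp W g 1 := by
      apply xp_ext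
      intro i j a _ b _
      rw [extOp_xp, LinearMap.sub_apply, LinearMap.sub_apply, extOp_xp, Module.End.one_apply,
        Module.End.one_apply, Module.End.one_apply, sub_eq_add_neg, xp_add_left,
        sub_eq_add_neg]
      congr 1
      have h2 := xp_add_left (W := W) (-(g a)) (g a) b
      rw [neg_add_cancel] at h2
      have h3 : xp W (0 : W.H Z) b = 0 := by rw [xp, map_zero, zero_mul]
      rw [h3] at h2
      exact eq_neg_of_add_eq_zero_left h2.symm
    rw [h1]
    rfl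
  have hadj1 : Adj W (extOp W (1 - π) (1 : Module.End W.K (W.H (pw X n))))
      (extOp W (1 - π') 1) :=
    (Adj.one.sub hadj).extOp Adj.one
      (Sys.Op.ev (Submodule.sub_mem _ Sys.Op.id hπ')) Ev.id
  have hc1 : ∀ d, GNum S (Z.prod (pw X n)) d ≤ GC T (Z.prod (pw X n)) d := fun d =>
    (gnum_le _ d).trans (GC_mono hST _ d)
  rw [← finrank_comap (hc1 d), ← finrank_comap (hc1 d')]
  refine isotropic_le₂ (FG T (Z.prod (pw X n)) (extOp W (1 - π) 1) d d') _ _ ?_ ?_ ?_
  · intro c hc y hy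
    rw [FG_apply, hsub, e1 (c : W.H _) hc.1, sub_zero]
    exact hc.1.2 y hy.1.1
  · intro c hc h
    apply Subtype.ext
    have hd' : d' = (Z.prod (pw X n)).dim - d := by linarith
    subst hd'
    refine hT c c.2 fun y hy => ?_
    have h1 := congrArg (fun f : GC T (Z.prod (pw X n)) ((Z.prod (pw X n)).dim - d) →ₗ[W.K] W.K =>
      f ⟨y, hy⟩) h
    simp only [FG_apply, LinearMap.zero_apply] at h1
    rw [hsub, e1 (c : W.H _) hc.1, sub_zero] at h1
    exact h1
  · intro y hy h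
    apply Subtype.ext
    refine eq_zero_right (show d = (Z.prod (pw X n)).dim - d' by linarith) hT' y.2 fun c hc => ?_
    have h1 := congrArg (fun f : GC T (Z.prod (pw X n)) d →ₗ[W.K] W.K => f ⟨c, hc⟩) h
    rw [LinearMap.flip_apply, FG_apply, LinearMap.zero_apply, hadj1, hsub,
      e2 (y : W.H _) hy.1, sub_zero] at h1
    exact h1

lemma sgr_of_le (h : ∀ Q, S.C Q ≤ ⨆ j : ℕ, GC S Q (j : ℤ)) : SGr S := by
  intro Q c hc
  refine Submodule.iSup_induction (fun j : ℕ => GC S Q (j : ℤ))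
    (motive := fun c => (∀ j : ℕ, proj (W.isInternal Q) (2 * j) c ∈ S.C Q) ∧
      ∑ j ∈ Finset.range (Q.dim + 1), proj (W.isInternal Q) (2 * j) c = c) (h Q hc) ?_ ?_ ?_
  · rintro i x ⟨hx, hx'⟩
    rw [gz_nat] at hx'
    have h1 : ∀ j, j ≠ i → proj (W.isInternal Q) (2 * j) x = 0 := fun j hj =>
      proj_ne _ hx' (by omega)
    constructor
    · intro j
      by_cases hj : j = i
      · rw [hj, proj_same _ hx']; exact hx
      · rw [h1 j hj]; exact Submodule.zero_mem _
    · by_cases hi : i ∈ Finset.range (Q.dim + 1)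
      · rw [Finset.sum_eq_single_of_mem i hi fun j _ hj => h1 j hj, proj_same _ hx']
      · rw [W.gr_eq_bot Q _ (by rw [Finset.mem_range] at hi; omega)] at hx'
        have hx0 : x = 0 := (Submodule.mem_bot _).1 hx'
        simp [hx0]
  · exact ⟨fun j => by rw [map_zero]; exact Submodule.zero_mem _, by simp⟩
  · rintro x y ⟨hx, hx'⟩ ⟨hy, hy'⟩
    refine ⟨fun j => by rw [map_add]; exact Submodule.add_mem _ (hx j) (hy j), ?_⟩
    simp only [map_add, Finset.sum_add_distrib, hx', hy']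

lemma c_eq_of_gc (hT : SGr T) (hST : ∀ X, S.C X ≤ T.C X)
    (h : ∀ d : ℕ, GC S Q (d : ℤ) = GC T Q (d : ℤ)) : S.C Q = T.C Q := by
  refine le_antisymm (hST Q) fun c hc => ?_
  rw [← (hT Q c hc).2]
  refine Submodule.sum_mem _ fun j _ => ?_
  have h1 : proj (W.isInternal Q) (2 * j) c ∈ GC T Q (j : ℤ) :=
    ⟨(hT Q c hc).1 j, by rw [gz_nat]; exact proj_mem _ _ _⟩
  rw [← h] at h1
  exact h1.1

lemma gc_eq_of_c (h : S.C Q = T.C Q) (d : ℤ) : GC S Q d = GC T Q d := by rw [GC, GC, h]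

lemma nrm_mono_g (hST : ∀ X, S.C X ≤ T.C X) (n : ℕ) : nrmg S X n ≤ nrmg T X n := by
  rw [nrmg, nrmg]
  refine mul_le_mul_of_nonneg_left ?_ (by positivity)
  exact_mod_cast ag_mono hST _ _ _

lemma mid_le (X : 𝒱.Obj) (n : ℕ) :
    |2 * (((n + 1) * X.dim / 2 : ℕ) : ℤ) - (n + 1) * X.dim| ≤ (1 : ℕ) := by
  have h1 : (((n + 1) * X.dim : ℕ) : ℤ) = (n + 1) * X.dim := by push_cast; ring
  rw [← h1, abs_le]
  generalize (n + 1) * X.dim = m
  constructor <;> omega

/-- **The limit law in single codimensions** if `S` and `T` agree on the powers of `X`. -/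
theorem glim (hST : ∀ X, S.C X ≤ T.C X) (heq : ∀ n, S.C (pw X n) = T.C (pw X n))
    (hT : GBig T X) (hTn : ∀ Q d, GNondeg T Q d) (hX : ∃ l ∈ GC S X X.dim, W.tr X l = 1)
    (hZ : ∃ l ∈ GC S Z Z.dim, W.tr Z l = 1) :
    ∃ u v : ℕ, 1 ≤ u ∧ u ≤ v ∧ v ≤ finrank W.K (W.H Z) ∧
      Asy X (fun n d => finrank W.K (GC S (Z.prod (pw X n)) d)) u (nrmg T X) ∧
      Asy X (fun n d => finrank W.K (GC T (Z.prod (pw X n)) d)) v (nrmg T X) ∧
      (u = v ↔ ∀ n d, GC S (Z.prod (pw X n)) d = GC T (Z.prod (pw X n)) d) := by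
  obtain ⟨π, hπ, hmax, -⟩ := exists_gmax (Z := Z) (X := X) hST GGood.zero
  obtain ⟨ρ, hρ, hρmax, hρπ⟩ := exists_gmax (fun _ => le_rfl) (hπ.mono hST)
  set u := finrank W.K (LinearMap.range π) with hu
  set v := finrank W.K (LinearMap.range ρ) with hv
  have huv : u ≤ v := by
    rcases hρπ with h | h
    · rw [hu, hv, h]
    · exact h.le
  have hmax' : GMaxi S S X Z π := fun n r s hs t ht => hmax n r s hs t (GOp_mono hST _ _ _ ht)
  have hu1 : 1 ≤ u := Sys.finrank_range_pos (gmaxi_ne_zero hX hZ hmax')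
  have e1 : ∀ n d, rg T Z π (pw X n) d (Z.dim + (n + 1) * X.dim - d) =
      finrank W.K (GC S (Z.prod (pw X n)) d) := fun n d =>
    finrank_GC_eq hST heq (fun d => hTn _ d) (fun d => hTn _ d) hπ hmax (by ring)
  have e2 : ∀ n d, rg T Z ρ (pw X n) d (Z.dim + (n + 1) * X.dim - d) =
      finrank W.K (GC T (Z.prod (pw X n)) d) := fun n d =>
    finrank_GC_eq (fun _ => le_rfl) (fun _ => rfl) (fun d => hTn _ d) (fun d => hTn _ d) hρ hρmax
      (by ring)
  have a1 : Asy X (fun n d => finrank W.K (GC S (Z.prod (pw X n)) d)) u (nrmg T X) :=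
    (asy_of_low hπ.mem hπ.idem (hπ.low T hT fun _ => le_rfl)).congr e1
  have a2 : Asy X (fun n d => finrank W.K (GC T (Z.prod (pw X n)) d)) v (nrmg T X) :=
    (asy_of_low hρ.mem hρ.idem (hρ.low T hT fun _ => le_rfl)).congr e2
  refine ⟨u, v, hu1, huv, Submodule.finrank_le _, a1, a2, ?_, ?_⟩
  · intro h n d
    refine Submodule.eq_of_le_of_finrank_eq (GC_mono hST _ _) ?_
    have h1 : ρ = π := by
      rcases hρπ with h' | h'
      · exact h'
      · omega
    rw [← e1, ← e2, h1]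
  · intro h
    have t1 := a1.tendsto (nrmg_pos hT) (nearMiddle_half X)
    have t2 := a2.tendsto (nrmg_pos hT) (nearMiddle_half X)
    have t3 : Tendsto (fun n => (finrank W.K (GC S (Z.prod (pw X n))
        (((n + 1) * X.dim / 2 : ℕ) : ℤ)) : ℝ) / nrmg T X n) atTop (𝓝 v) := by
      refine t2.congr fun n => ?_
      rw [h]
    have h2 := tendsto_nhds_unique t1 t3
    exact_mod_cast h2

/-- **The gap law in pairs of complementary codimensions.** -/
theorem ggap (hgr : SGr S) (hgrT : SGr T) (hST : ∀ X, S.C X ≤ T.C X) (hS : GBig S X)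
    (hT : GBig T X) (hTn : ∀ Q d, GNondeg T Q d) (hZ : ∃ l ∈ GC S Z Z.dim, W.tr Z l = 1) :
    (∀ n d, GC S (Z.prod (pw X n)) d = GC T (Z.prod (pw X n)) d) ∨
      ∀ ε : ℝ, 0 < ε → ∀ J : ℕ, ∃ n₀ : ℕ, ∀ n ≥ n₀, ∀ d d' : ℤ,
        d + d' = Z.dim + (n + 1) * X.dim → |2 * d - (n + 1) * X.dim| ≤ J →
        (finrank W.K (GC S (Z.prod (pw X n)) d) : ℝ) + finrank W.K (GC S (Z.prod (pw X n)) d') ≤
          2 * (max (1 / 2 : ℝ) (1 - 1 / (finrank W.K (W.H Z) : ℝ)) + ε) *
            finrank W.K (GC T (Z.prod (pw X n)) d) := by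
  by_cases hall : ∀ n d, GC S (Z.prod (pw X n)) d = GC T (Z.prod (pw X n)) d
  · exact Or.inl hall
  right
  have hX : ∃ l ∈ GC S X X.dim, W.tr X l = 1 := by
    obtain ⟨a, ha, a', ha', h⟩ := hS.tw 0 (Nat.zero_le _)
    refine ⟨a * a', ?_, h⟩
    have := GC.mul ha ha'
    rwa [show ((0 : ℕ) : ℤ) + ((X.dim : ℤ) - (0 : ℕ)) = X.dim by push_cast; ring] at this
  by_cases heq : ∀ n, S.C (pw X n) = T.C (pw X n)
  · -- the classes agree on the powers of `X`
    obtain ⟨u, v, hu, huv, hv, a1, a2, h2⟩ := glim (Z := Z) hST heq hT hTn hX hZ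
    intro ε hε J
    have hne : u ≠ v := fun h => hall (h2.1 h)
    have hlt : u + 1 ≤ v := by omega
    have hv0 : (0 : ℝ) < v := by
      have : 0 < v := by omega
      exact_mod_cast this
    have hv1 : (1 : ℝ) ≤ v := by
      have : 1 ≤ v := by omega
      exact_mod_cast this
    have hβ0 : (0 : ℝ) < finrank W.K (W.H Z) := hv0.trans_le (by exact_mod_cast hv)
    set c : ℝ := max (1 / 2 : ℝ) (1 - 1 / (finrank W.K (W.H Z) : ℝ)) with hc
    have hc0 : 0 < c := lt_of_lt_of_le (by norm_num) (le_max_left _ _)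
    have huc : (u : ℝ) ≤ c * v := by
      have h4 : (u : ℝ) ≤ (1 - 1 / v) * v := by
        rw [sub_mul, one_mul, one_div, inv_mul_cancel₀ hv0.ne', le_sub_iff_add_le]
        exact_mod_cast hlt
      have h5 : (1 : ℝ) / finrank W.K (W.H Z) ≤ 1 / v :=
        one_div_le_one_div_of_le hv0 (by exact_mod_cast hv)
      have h6 : (1 : ℝ) - 1 / v ≤ c := by
        have := le_max_right (1 / 2 : ℝ) (1 - 1 / (finrank W.K (W.H Z) : ℝ))
        linarith
      exact h4.trans (mul_le_mul_of_nonneg_right h6 hv0.le)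
    set δ : ℝ := min (1 / 2) (ε / (2 * (c + ε + 1))) with hδ
    have hδ0 : 0 < δ := by positivity
    have hδ1 : δ ≤ 1 / 2 := min_le_left _ _
    have hδ2 : δ * (c + ε + 1) ≤ ε / 2 := by
      have h3 : δ ≤ ε / (2 * (c + ε + 1)) := min_le_right _ _
      rw [le_div_iff₀ (by positivity)] at h3
      linarith
    obtain ⟨n₁, hn₁⟩ := a1 δ hδ0 (J + 2 * Z.dim)
    obtain ⟨n₂, hn₂⟩ := a2 δ hδ0 (J + 2 * Z.dim)
    refine ⟨max n₁ n₂, fun n hn d d' hd hJ => ?_⟩
    have hJ1 : |2 * d - (n + 1) * X.dim| ≤ ((J + 2 * Z.dim : ℕ) : ℤ) := by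
      refine hJ.trans ?_
      push_cast
      have : (0 : ℤ) ≤ Z.dim := by positivity
      linarith
    have hJ2 : |2 * d' - (n + 1) * X.dim| ≤ ((J + 2 * Z.dim : ℕ) : ℤ) := by
      have h3 := abs_le.1 hJ
      have : (0 : ℤ) ≤ Z.dim := by positivity
      rw [abs_le]
      push_cast
      constructor
      · linarith [h3.2]
      · linarith [h3.1]
    have b1 := (abs_le.1 (hn₁ n ((le_max_left _ _).trans hn) d hJ1)).2
    have b2 := (abs_le.1 (hn₁ n ((le_max_left _ _).trans hn) d' hJ2)).2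
    have b3 := (abs_le.1 (hn₂ n ((le_max_right _ _).trans hn) d hJ1)).1
    have hν := nrmg_pos hT n
    set ν := nrmg T X n with hνd
    set t : ℝ := (finrank W.K (GC T (Z.prod (pw X n)) d) : ℝ) with ht
    have b4 : (v - δ) * ν ≤ t := by linarith
    have b5 : (finrank W.K (GC S (Z.prod (pw X n)) d) : ℝ) ≤ (u + δ) * ν := by linarith
    have b6 : (finrank W.K (GC S (Z.prod (pw X n)) d') : ℝ) ≤ (u + δ) * ν := by linarith
    have b7 : (u + δ : ℝ) ≤ (c + ε) * (v - δ) := by nlinarith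
    calc (finrank W.K (GC S (Z.prod (pw X n)) d) : ℝ) + finrank W.K (GC S (Z.prod (pw X n)) d')
        ≤ 2 * ((u + δ) * ν) := by linarith
      _ ≤ 2 * (((c + ε) * (v - δ)) * ν) := by
          have := mul_le_mul_of_nonneg_right b7 hν.le
          linarith
      _ = 2 * (c + ε) * ((v - δ) * ν) := by ring
      _ ≤ _ := mul_le_mul_of_nonneg_left b4 (by positivity)
  -- the classes do not agree on the powers of `X`
  obtain ⟨q, p, hq1, hqp, hpβ, -, aT, -⟩ := glaw (X := X) (Z := Z) hST hS hT hTn hZ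
  have hp1 : (1 : ℝ) ≤ p := by exact_mod_cast hq1.trans hqp
  obtain ⟨π, hπ, hmax, -⟩ := exists_gmax (S := S) (T := S) (Z := Z) (X := X) (fun _ => le_rfl)
    GGood.zero
  set u := finrank W.K (LinearMap.range π) with hu
  intro ε hε J
  set δ : ℝ := ε / (8 * (u + 1)) with hδ
  have hu0 : (0 : ℝ) ≤ u := Nat.cast_nonneg _
  have hδ0 : 0 < δ := by positivity
  have hδu : (u : ℝ) * δ ≤ ε / 8 := by
    rw [hδ, mul_div_assoc', div_le_div_iff₀ (by positivity) (by norm_num)]
    nlinarith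
  have hδ1 : δ ≤ ε / 8 := by
    rw [hδ]
    apply div_le_div_of_nonneg_left hε.le (by norm_num)
    nlinarith
  -- the comparison of `T` on `Z × X^n` and of the norming factor
  obtain ⟨n₁, hn₁⟩ := aT (1 / 2) (by norm_num) J
  suffices hkey : ∃ n₀ : ℕ, ∀ n ≥ n₀, ∀ d d' : ℤ,
        d + d' = Z.dim + (n + 1) * X.dim → |2 * d - (n + 1) * X.dim| ≤ J →
      (finrank W.K (GC S (Z.prod (pw X n)) d) : ℝ) + finrank W.K (GC S (Z.prod (pw X n)) d') ≤
      finrank W.K (GC T (Z.prod (pw X n)) d) + ε * nrmg T X n by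
    obtain ⟨n₀, hn₀⟩ := hkey
    refine ⟨max n₀ n₁, fun n hn d d' hd hJ => ?_⟩
    have h1 := hn₀ n ((le_max_left _ _).trans hn) d d' hd hJ
    have h2 := (abs_le.1 (hn₁ n ((le_max_right _ _).trans hn) d hJ)).1
    have h3 := le_max_left (1 / 2 : ℝ) (1 - 1 / (finrank W.K (W.H Z) : ℝ))
    have h5 := nrmg_pos hT n
    set t : ℝ := (finrank W.K (GC T (Z.prod (pw X n)) d) : ℝ) with ht
    have h4 : (0 : ℝ) ≤ t := Nat.cast_nonneg _
    have h6 : nrmg T X n ≤ 2 * t := by nlinarith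
    nlinarith
  -- the general bound for the rank of the form
  have hag : ∀ n : ℕ, 2 ≤ n → ∀ d d' : ℤ, d + d' = Z.dim + (n + 1) * X.dim →
      (ag S (Z.prod (pw X n)) d d' : ℝ) ≤ u * nrmg S X n := by
    intro n hn d d' hd
    rw [ag_le_rg hπ.mem hmax n hd]
    exact rg_nrm S hπ.mem hπ.idem n hn hd
  have e0 : ∀ n : ℕ, ((Z.prod (pw X n)).dim : ℤ) = Z.dim + (n + 1) * X.dim := by
    intro n
    rw [dim_prod, dim_pw]; push_cast; ring
  -- the number of classes of `T` on the powers of `X`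
  obtain ⟨n₅, hn₅⟩ := asy_pw hT (δ / 4) (by positivity) 1
  have htX : ∀ n ≥ n₅, (finrank W.K (GC T (pw X n) (((n + 1) * X.dim / 2 : ℕ) : ℤ)) : ℝ) ≤
      (1 + δ / 4) * nrmg T X n := by
    intro n hn
    have h1 := (abs_le.1 (hn₅ n hn _ (mid_le X n))).2
    have h2 : ag T (pw X n) (((n + 1) * X.dim / 2 : ℕ) : ℤ)
        ((n + 1) * X.dim - (((n + 1) * X.dim / 2 : ℕ) : ℤ)) =
        finrank W.K (GC T (pw X n) (((n + 1) * X.dim / 2 : ℕ) : ℤ)) :=
      ag_eq_of_gnondeg (hTn _ _) (by rw [dim_pw]; push_cast; rfl)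
    dsimp only at h1
    rw [h2] at h1
    linarith
  rcases gnum_or hgr hST hS with hN | hN
  · -- no numerically trivial classes on the powers of `X`
    have hex : ∃ m i, i ≤ (m + 1) * X.dim ∧ GC S (pw X m) ((i : ℕ) : ℤ) ≠ GC T (pw X m) (i : ℤ) := by
      by_contra hcon
      push Not at hcon
      apply heq
      intro n
      refine c_eq_of_gc hgrT hST fun d => ?_
      by_cases hd : d ≤ (n + 1) * X.dim
      · exact hcon n d hd
      · have h1 : W.gr (pw X n) (2 * d) = ⊥ := W.gr_eq_bot _ _ (by rw [dim_pw]; omega)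
        rw [GC, GC, gz_nat, h1, inf_bot_eq, inf_bot_eq]
    obtain ⟨m, i, hi, hne⟩ := hex
    obtain ⟨n₂, hn₂⟩ := gtwo hST hS hi hne (δ := δ / 4) (by positivity) 1
    obtain ⟨n₃, hn₃⟩ := hπ.low T hT hST δ hδ0 J
    refine ⟨max (max n₂ n₃) (max n₅ 2), fun n hn d d' hd hJ => ?_⟩
    have h1 := hn₂ n (by omega) _ (mid_le X n)
    have h1' := htX n (by omega)
    have h2 := hn₃ n (by omega) d d' hd hJ
    have h3 := hag n (by omega) d d' hd
    have hd' : d + d' = (Z.prod (pw X n)).dim := hd.trans (e0 n).symm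
    have h4 := gnum_le_rg hST hN hd' (hTn _ d) (hTn _ d') hπ.mem hπ.gen
    have hmT : π ∈ GOp T Z Z 0 := GOp_mono hST _ _ _ hπ.mem
    have h5 : rg T Z π (pw X n) d d' + rg T Z (1 - π) (pw X n) d d' ≤
        finrank W.K (GC T (Z.prod (pw X n)) d) := by
      have hππ : π * π = π := hπ.idem
      have h6 := rg_add_orth T hmT (Submodule.sub_mem _ GOp.id hmT) hπ.idem
        (Sys.finrank_compl hπ.idem).1
        (show π * (1 - π) = 0 by rw [mul_sub, hππ, mul_one, sub_self])
        (show (1 - π) * π = 0 by rw [sub_mul, hππ, one_mul, sub_self]) (pw X n)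
        (d := d) (e' := d') (by rw [hd, dim_pw]; push_cast; ring)
      have h7 : π + (LinearMap.id - π) = 1 := by
        rw [add_sub_cancel]; rfl
      rw [h7, rg_one, ag_eq_of_gnondeg (hTn _ d) (by linarith)] at h6
      exact h6
    have h6 : (rg T Z π (pw X n) d d' : ℝ) + rg T Z (1 - π) (pw X n) d d' ≤
        finrank W.K (GC T (Z.prod (pw X n)) d) := by exact_mod_cast h5
    have h7 : (finrank W.K (GNum S (Z.prod (pw X n)) d) : ℝ) +
        finrank W.K (GNum S (Z.prod (pw X n)) d') ≤ rg T Z (1 - π) (pw X n) d d' := by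
      exact_mod_cast h4
    have h8 : (finrank W.K (GC S (Z.prod (pw X n)) d) : ℝ) = ag S (Z.prod (pw X n)) d d' +
        finrank W.K (GNum S (Z.prod (pw X n)) d) := by
      have := ag_add_gnum hgr (Z.prod (pw X n)) d
      rw [show ((Z.prod (pw X n)).dim : ℤ) - d = d' by linarith] at this
      exact_mod_cast this.symm
    have h8' : (finrank W.K (GC S (Z.prod (pw X n)) d') : ℝ) = ag S (Z.prod (pw X n)) d' d +
        finrank W.K (GNum S (Z.prod (pw X n)) d') := by
      have := ag_add_gnum hgr (Z.prod (pw X n)) d'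
      rw [show ((Z.prod (pw X n)).dim : ℤ) - d' = d by linarith] at this
      exact_mod_cast this.symm
    have h3' := hag n (by omega) d' d (by rw [← hd]; ring)
    rw [← hu] at h2
    have h9 := nrmg_nonneg (S := T) (X := X) n
    have h9' := nrmg_nonneg (S := S) (X := X) n
    -- the norming factors
    have h10 : nrmg S X n ≤ (1 / 2 + δ) * nrmg T X n := by
      have h11 : (2 - δ / 4) * nrmg S X n ≤ (1 + δ / 4) * nrmg T X n := h1.trans h1'
      by_cases hδ4 : δ ≤ 4
      · have h12 : (1 + δ / 4) ≤ (2 - δ / 4) * (1 / 2 + δ) := by nlinarith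
        have h13 : (2 - δ / 4) * nrmg S X n ≤ (2 - δ / 4) * ((1 / 2 + δ) * nrmg T X n) := by
          refine h11.trans ?_
          rw [← mul_assoc]
          exact mul_le_mul_of_nonneg_right h12 h9
        exact le_of_mul_le_mul_left h13 (by linarith)
      · -- the trivial comparison
        exact (nrm_mono_g hST n).trans (le_mul_of_one_le_left h9 (by linarith))
    have h11 : (u : ℝ) * nrmg S X n ≤ u * ((1 / 2 + δ) * nrmg T X n) :=
      mul_le_mul_of_nonneg_left h10 hu0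
    have h12 : (u : ℝ) * δ * nrmg T X n ≤ ε / 8 * nrmg T X n :=
      mul_le_mul_of_nonneg_right hδu h9
    have h13 : δ * nrmg T X n ≤ ε / 8 * nrmg T X n := mul_le_mul_of_nonneg_right hδ1 h9
    rw [h8, h8']
    nlinarith
  · -- numerically trivial classes on the powers of `X`
    obtain ⟨N, hNN⟩ := exists_nat_gt (2 / δ)
    obtain ⟨n₂, hn₂⟩ := hN N 1
    refine ⟨max n₂ (max n₅ 2), fun n hn d d' hd hJ => ?_⟩
    have h1 := hn₂ n (by omega) _ (mid_le X n)
    have h1' := htX n (by omega)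
    have h3 := hag n (by omega) d d' hd
    have hd' : d + d' = (Z.prod (pw X n)).dim := hd.trans (e0 n).symm
    have h4 := half_pair hgr hST hd' (hTn _ d) (hTn _ d')
    have h7 : (finrank W.K (GC S (Z.prod (pw X n)) d) : ℝ) +
        finrank W.K (GC S (Z.prod (pw X n)) d') ≤ ag S (Z.prod (pw X n)) d d' +
        finrank W.K (GC T (Z.prod (pw X n)) d) := by
      exact_mod_cast h4
    have h9 := nrmg_nonneg (S := T) (X := X) n
    have h9' := nrmg_nonneg (S := S) (X := X) n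
    have h10 : (N : ℝ) * nrmg S X n ≤ (1 + δ / 4) * nrmg T X n := h1.trans h1'
    have h11 : nrmg S X n ≤ δ * nrmg T X n ∨ 4 < δ := by
      by_cases hδ4 : δ ≤ 4
      · left
        have h12 : 2 / δ * nrmg S X n ≤ 2 * nrmg T X n :=
          (mul_le_mul_of_nonneg_right hNN.le h9').trans (h10.trans
            (mul_le_mul_of_nonneg_right (by linarith) h9))
        rw [div_mul_eq_mul_div, div_le_iff₀ hδ0] at h12
        linarith
      · right
        linarith
    have h12 : nrmg S X n ≤ δ * nrmg T X n := by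
      rcases h11 with h | h
      · exact h
      · exact (nrm_mono_g hST n).trans (le_mul_of_one_le_left h9 (by linarith))
    have h13 : (u : ℝ) * nrmg S X n ≤ u * (δ * nrmg T X n) :=
      mul_le_mul_of_nonneg_left h12 hu0
    have h14 : (u : ℝ) * δ * nrmg T X n ≤ ε / 8 * nrmg T X n :=
      mul_le_mul_of_nonneg_right hδu h9
    have h15 : ε / 8 * nrmg T X n ≤ ε * nrmg T X n :=
      mul_le_mul_of_nonneg_right (by linarith) h9
    nlinarith

end Pool.Agent.H61.GX
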