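import Pool.Agent.H61.ZX.Asym
import Pool.Graph.R_seed8.H914R2.Graded

/-!
# Homogeneous classes and homogeneous operators
-/

open CategoryTheory AlgebraicGeometry

universe u v

namespace Pool.Agent.H61.GX

open Module
open Pool.Agent.H914 Pool.Agent.H914.VarClass Pool.Agent.H914.VarClass.Obj
  Pool.Agent.H914.WeilCohomology Pool.Agent.Y133.Half Pool.Agent.H61.ZX

variable {k : Type u} [Field k] {𝒱 : VarClass k} {ops : CycleOps 𝒱}
  {W : WeilCohomology.{u, v} ops} {P Q Z X Y M N : 𝒱.Obj} {S T : Sys W}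

/-- The cohomology in degree `2d`. -/
noncomputable def gz (W : WeilCohomology.{u, v} ops) (Q : 𝒱.Obj) (d : ℤ) : Submodule W.K (W.H Q) :=
  grZ (W.gr Q) (2 * d)

lemma gz_nat (d : ℕ) : gz W Q (d : ℤ) = W.gr Q (2 * d) := by
  rw [gz, ← grZ_natCast (gr := W.gr Q) (2 * d)]
  push_cast
  rfl

lemma gz_neg {d : ℤ} (h : d < 0) : gz W Q d = ⊥ := grZ_of_neg (by omega)

/-- Case distinction for homogeneous classes. -/
lemma gz_cases {d : ℤ} {x : W.H Q} (hx : x ∈ gz W Q d) {p : Prop}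
    (h0 : x = 0 → p) (h1 : ∀ n : ℕ, d = n → x ∈ W.gr Q (2 * n) → p) : p := by
  by_cases h : 0 ≤ d
  · lift d to ℕ using h
    exact h1 d rfl (by rwa [gz_nat] at hx)
  · rw [gz_neg (by omega), Submodule.mem_bot] at hx
    exact h0 hx

lemma gz_one : (1 : W.H Q) ∈ gz W Q 0 := by
  have h := gz_nat (W := W) (Q := Q) 0
  rw [Nat.cast_zero] at h
  rw [h]
  exact (W.isPoincareAlgebra Q).one_mem

lemma gz_mul {d e : ℤ} {x y : W.H Q} (hx : x ∈ gz W Q d) (hy : y ∈ gz W Q e) :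
    x * y ∈ gz W Q (d + e) := by
  refine gz_cases hx (fun h => ?_) (fun n hn hx => ?_)
  · rw [h, zero_mul]; exact Submodule.zero_mem _
  refine gz_cases hy (fun h => ?_) (fun m hm hy => ?_)
  · rw [h, mul_zero]; exact Submodule.zero_mem _
  have h1 := W.mul_mem hx hy
  subst hn hm
  have h2 := gz_nat (W := W) (Q := Q) (n + m)
  push_cast at h2
  rw [h2]
  rwa [show 2 * n + 2 * m = 2 * (n + m) by ring] at h1

lemma gz_map (f : X ⟶ Y) {d : ℤ} {x : W.H Y} (hx : x ∈ gz W Y d) : W.map f x ∈ gz W X d := by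
  refine gz_cases hx (fun h => ?_) (fun n hn hx => ?_)
  · rw [h, map_zero]; exact Submodule.zero_mem _
  subst hn
  rw [gz_nat]
  exact W.map_mem f hx

lemma gz_push (f : X ⟶ Y) {d e : ℤ} {x : W.H X} (hx : x ∈ gz W X d)
    (h : e = d + Y.dim - X.dim) : W.push f x ∈ gz W Y e := by
  subst h
  refine gz_cases hx (fun h => ?_) (fun n hn hx => ?_)
  · rw [h, map_zero]; exact Submodule.zero_mem _
  subst hn
  have h1 := W.push_mem f hx
  rw [gz, show 2 * ((n : ℤ) + Y.dim - X.dim) = ((2 * n : ℕ) : ℤ) + 2 * ((Y.dim : ℤ) - X.dim) by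
    push_cast; ring]
  exact h1

lemma gz_tr {d : ℤ} {x : W.H Q} (hx : x ∈ gz W Q d) (h : d ≠ Q.dim) : W.tr Q x = 0 := by
  refine gz_cases hx (fun h => ?_) (fun n hn hx => ?_)
  · rw [h, map_zero]
  · exact W.tr_eq_zero hx (by omega)

variable (S) in
/-- The classes of the system of codimension `d`. -/
noncomputable def GC (Q : 𝒱.Obj) (d : ℤ) : Submodule W.K (W.H Q) := S.C Q ⊓ gz W Q d

lemma GC.C {d : ℤ} {x : W.H Q} (hx : x ∈ GC S Q d) : x ∈ S.C Q := hx.1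

lemma GC.one : (1 : W.H Q) ∈ GC S Q 0 := ⟨S.one Q, gz_one⟩

lemma GC.mul {d e : ℤ} {x y : W.H Q} (hx : x ∈ GC S Q d) (hy : y ∈ GC S Q e) :
    x * y ∈ GC S Q (d + e) := ⟨S.mul hx.1 hy.1, gz_mul hx.2 hy.2⟩

lemma GC.map (f : X ⟶ Y) {d : ℤ} {x : W.H Y} (hx : x ∈ GC S Y d) : W.map f x ∈ GC S X d :=
  ⟨S.map f hx.1, gz_map f hx.2⟩

lemma GC.push (f : X ⟶ Y) {d e : ℤ} {x : W.H X} (hx : x ∈ GC S X d)
    (h : e = d + Y.dim - X.dim) : W.push f x ∈ GC S Y e :=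
  ⟨S.push f hx.1, gz_push f hx.2 h⟩

lemma GC.xp {d e s : ℤ} {x : W.H P} {y : W.H Q} (hx : x ∈ GC S P d) (hy : y ∈ GC S Q e)
    (h : s = d + e) : xp W x y ∈ GC S (P.prod Q) s := by
  rw [h]
  exact GC.mul (GC.map _ hx) (GC.map _ hy)

lemma GC_mono (hST : ∀ X, S.C X ≤ T.C X) (Q : 𝒱.Obj) (d : ℤ) : GC S Q d ≤ GC T Q d :=
  inf_le_inf_right _ (hST Q)

variable (S) in
/-- The operators of degree `s` given by the classes of the system. -/
noncomputable def GOp (X Y : 𝒱.Obj) (s : ℤ) : Submodule W.K (W.H X →ₗ[W.K] W.H Y) :=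
  (GC S (X.prod Y) (X.dim + s)).map (corrL W X Y)

lemma mem_GOp {s : ℤ} {u : W.H X →ₗ[W.K] W.H Y} :
    u ∈ GOp S X Y s ↔ ∃ c ∈ GC S (X.prod Y) (X.dim + s), W.corr c = u := Submodule.mem_map

lemma GOp.corr {s d : ℤ} {c : W.H (X.prod Y)} (hc : c ∈ GC S (X.prod Y) d)
    (h : d = X.dim + s) : W.corr c ∈ GOp S X Y s := mem_GOp.2 ⟨c, h ▸ hc, rfl⟩

lemma GOp.op {s : ℤ} {u : W.H X →ₗ[W.K] W.H Y} (hu : u ∈ GOp S X Y s) : u ∈ S.Op X Y := by
  obtain ⟨c, hc, rfl⟩ := mem_GOp.1 hu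
  exact Sys.Op.corr hc.1

lemma GOp.ev {s : ℤ} {u : W.H X →ₗ[W.K] W.H Y} (hu : u ∈ GOp S X Y s) : Ev W u :=
  Sys.Op.ev (GOp.op hu)

lemma GOp.comp' {s t r : ℤ} {u : W.H Y →ₗ[W.K] W.H Z} {w : W.H X →ₗ[W.K] W.H Y}
    (hu : u ∈ GOp S Y Z s) (hw : w ∈ GOp S X Y t) (h : r = s + t) : u ∘ₗ w ∈ GOp S X Z r := by
  obtain ⟨d, hd, rfl⟩ := mem_GOp.1 hu
  obtain ⟨c, hc, rfl⟩ := mem_GOp.1 hw
  rw [← corr_comp' c (S.even hd.1)]
  refine GOp.corr (GC.push _ (GC.mul (GC.map _ hc) (GC.map _ hd)) rfl) ?_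
  simp only [dim_prod]
  push_cast
  omega

lemma GOp.cast {s t : ℤ} {u : W.H X →ₗ[W.K] W.H Y} (hu : u ∈ GOp S X Y s) (h : s = t) :
    u ∈ GOp S X Y t := h ▸ hu

lemma GOp.id : (LinearMap.id : W.H X →ₗ[W.K] W.H X) ∈ GOp S X X 0 := by
  rw [← Sys.corr_diag_one]
  refine GOp.corr (GC.push _ GC.one rfl) ?_
  simp only [dim_prod]
  push_cast
  omega

lemma GOp.mul_left {d : ℤ} {a : W.H X} (ha : a ∈ GC S X d) :
    LinearMap.mulLeft W.K a ∈ GOp S X X d := by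
  have h : W.corr (W.push (diag X) a) = LinearMap.mulLeft W.K a := by
    apply LinearMap.ext
    intro x
    rw [W.corr_diag]
    rfl
  rw [← h]
  refine GOp.corr (GC.push _ ha rfl) ?_
  simp only [dim_prod]
  push_cast
  omega

lemma GOp.exists_adj {s t : ℤ} {u : W.H X →ₗ[W.K] W.H Y} (hu : u ∈ GOp S X Y s)
    (h : t = s + X.dim - Y.dim) : ∃ u' ∈ GOp S Y X t, Adj W u u' := by
  obtain ⟨c, hc, rfl⟩ := mem_GOp.1 hu
  exact ⟨_, GOp.corr (GC.map (swap Y X) hc) (by omega), tr_corr' (S.even hc.1)⟩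

lemma GOp.apply (hST : ∀ X, S.C X ≤ T.C X) {s d e : ℤ} {u : W.H X →ₗ[W.K] W.H Y}
    (hu : u ∈ GOp S X Y s) {x : W.H X} (hx : x ∈ GC T X d) (h : e = d + s) : u x ∈ GC T Y e := by
  obtain ⟨c, hc, rfl⟩ := mem_GOp.1 hu
  rw [corr_apply]
  refine GC.push _ (GC.mul (GC_mono hST _ _ hc) (GC.map _ hx)) ?_
  simp only [dim_prod]
  push_cast
  omega

lemma GOp.map (f : X ⟶ Y) : (W.map f).toLinearMap ∈ GOp S Y X 0 := by
  have h : W.corr (W.push (Obj.lift f (𝟙 X)) 1) = (W.map f).toLinearMap := by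
    apply LinearMap.ext
    intro a
    rw [corr_apply, ← W.push_mul, one_mul, ← W.push_comp, ← W.map_comp]
    have e1 : Obj.lift f (𝟙 X) ≫ snd Y X = 𝟙 X := Obj.lift_snd _ _
    have e2 : Obj.lift f (𝟙 X) ≫ fst Y X = f := Obj.lift_fst _ _
    rw [e1, e2, W.push_id]
    rfl
  rw [← h]
  refine GOp.corr (GC.push _ GC.one rfl) ?_
  simp only [dim_prod]
  push_cast
  omega

lemma GOp.push (f : X ⟶ Y) {s : ℤ} (hs : s = Y.dim - X.dim) : W.push f ∈ GOp S X Y s := by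
  obtain ⟨u', hu', hadj⟩ := GOp.exists_adj (S := S) (t := s) (GOp.map f) (by omega)
  have h : u' = W.push f := by
    apply LinearMap.ext
    intro x
    apply W.tr_ext
    intro y
    have h1 : Adj W u' (W.map f).toLinearMap :=
      hadj.symm (GOp.ev (GOp.map (S := S) f)) (GOp.ev hu')
    rw [h1, W.tr_push]
    rfl
  rw [← h]
  exact hu'

lemma GOp.ext {a : Module.End W.K (W.H X)} {b : Module.End W.K (W.H Y)} (ha : a ∈ GOp S X X 0)
    (hb : b ∈ GOp S Y Y 0) : extOp W a b ∈ GOp S (X.prod Y) (X.prod Y) 0 := by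
  obtain ⟨c, hc, rfl⟩ := mem_GOp.1 ha
  obtain ⟨d, hd, rfl⟩ := mem_GOp.1 hb
  rw [← Sys.corr_ext_class c (S.even hd.1)]
  refine GOp.corr (GC.mul (GC.map _ hc) (GC.map _ hd)) ?_
  simp only [dim_prod]
  push_cast
  omega

lemma GOp_mono (hST : ∀ X, S.C X ≤ T.C X) (P Q : 𝒱.Obj) (s : ℤ) : GOp S P Q s ≤ GOp T P Q s :=
  Submodule.map_mono (GC_mono hST _ _)

variable (S) in
/-- The category of homogeneous operators between twisted varieties. -/
noncomputable def gcat {ι : Type} [Fintype ι] [DecidableEq ι] (X : ι → 𝒱.Obj) (α : ι → ℤ) :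
    Cat W.K (fun i => W.H (X i)) where
  p i := par (W.isInternal (X i))
  p_sq _ := par_mul_par _
  S i j := GOp S (X j) (X i) (α i - α j)
  one _ := GOp.cast GOp.id (by ring)
  mul ha hb := GOp.comp' ha hb (by ring)
  comm ha := (GOp.ev ha).par_comm

end Pool.Agent.H61.GX
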