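import Pool.Agent.H61.GX.Max
import Pool.Agent.H61.ZX.Law

/-!
# The asymptotics of the homogeneous classes
-/

open CategoryTheory AlgebraicGeometry

universe u v

namespace Pool.Agent.H61.GX

open Module Filter Topology
open Pool.Agent.H914 Pool.Agent.H914.VarClass Pool.Agent.H914.VarClass.Obj
  Pool.Agent.H914.WeilCohomology Pool.Agent.Y133.Half Pool.Agent.H61.ZX

variable {k : Type u} [Field k] {𝒱 : VarClass k} {ops : CycleOps 𝒱}
  {W : WeilCohomology.{u, v} ops} {P P₀ Q Z Z' X Y M N : 𝒱.Obj} {S T : Sys W}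

/-- `f n d` is asymptotically `c ν(n)` for all `d` near `(n + 1) dim X / 2`. -/
def Asy (X : 𝒱.Obj) (f : ℕ → ℤ → ℕ) (c : ℝ) (ν : ℕ → ℝ) : Prop :=
  ∀ δ : ℝ, 0 < δ → ∀ J : ℕ, ∃ n₀ : ℕ, ∀ n ≥ n₀, ∀ d : ℤ, |2 * d - (n + 1) * X.dim| ≤ J →
    |(f n d : ℝ) - c * ν n| ≤ δ * ν n

lemma Asy.congr {f g : ℕ → ℤ → ℕ} {c : ℝ} {ν : ℕ → ℝ} (h : Asy X f c ν)
    (hfg : ∀ n d, f n d = g n d) : Asy X g c ν := by
  intro δ hδ J
  obtain ⟨n₀, hn₀⟩ := h δ hδ J
  exact ⟨n₀, fun n hn d hd => by rw [← hfg]; exact hn₀ n hn d hd⟩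

lemma asy_of_low {e : Module.End W.K (W.H Z)} (he : e ∈ GOp S Z Z 0) (hee : e ∘ₗ e = e)
    (h : GLow S X Z e) : Asy X (fun n d => rg S Z e (pw X n) d (Z.dim + (n + 1) * X.dim - d))
      (finrank W.K (LinearMap.range e)) (nrmg S X) := by
  intro δ hδ J
  obtain ⟨n₀, hn₀⟩ := h δ hδ J
  refine ⟨max n₀ 2, fun n hn d hd => ?_⟩
  have h1 := hn₀ n ((le_max_left _ _).trans hn) d (Z.dim + (n + 1) * X.dim - d) (by ring) hd
  have h2 := rg_nrm S (X := X) he hee n ((le_max_right _ _).trans hn)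
    (d := d) (d' := Z.dim + (n + 1) * X.dim - d) (by ring)
  have h3 := nrmg_nonneg (S := S) (X := X) n
  rw [abs_le]
  constructor
  · nlinarith
  · nlinarith

lemma nrmg_pos (hS : GBig S X) (n : ℕ) : 0 < nrmg S X n := by
  have h1 : (0 : ℝ) < finrank W.K (W.H X) := by exact_mod_cast hS.hX
  have h2 : (0 : ℝ) < alc S X ((n - n % 2 - 2) / 2) := by exact_mod_cast hS.pos _
  rw [nrmg]
  positivity

/-- The normalising factors of consecutive powers. -/
lemma nrmg_succ (hS : GBig S X) {δ : ℝ} (hδ : 0 < δ) : ∃ n₀ : ℕ, ∀ n ≥ n₀,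
    nrmg S X (n + 1) ≤ finrank W.K (W.H X) * nrmg S X n ∧
    (1 - δ) * (finrank W.K (W.H X) * nrmg S X n) ≤ nrmg S X (n + 1) := by
  set b := finrank W.K (W.H X) with hb
  have hb0 : (0 : ℝ) < b := by exact_mod_cast hS.hX
  by_cases hδ1 : 1 ≤ δ
  · refine ⟨2, fun n hn => ?_⟩
    have h3 := nrmg_pos hS n
    have h4 := nrmg_pos hS (n + 1)
    refine ⟨?_, ?_⟩
    · rcases Nat.mod_two_eq_zero_or_one n with h | h
      · rw [nrmg, nrmg, h, show (n + 1) % 2 = 1 by omega,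
          show (n + 1 - 1 - 2) / 2 = (n - 0 - 2) / 2 by omega, ← hb]
        apply le_of_eq; ring
      · rw [nrmg, nrmg, h, show (n + 1) % 2 = 0 by omega,
          show (n + 1 - 0 - 2) / 2 = (n - 1 - 2) / 2 + 1 by omega, ← hb]
        have h5 : (alc S X ((n - 1 - 2) / 2 + 1) : ℝ) ≤ (b : ℝ) ^ 2 * alc S X ((n - 1 - 2) / 2) := by
          exact_mod_cast alc_succ_le X _
        calc (b : ℝ) ^ (0 + 1) * alc S X ((n - 1 - 2) / 2 + 1)
            ≤ (b : ℝ) ^ (0 + 1) * ((b : ℝ) ^ 2 * alc S X ((n - 1 - 2) / 2)) :=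
              mul_le_mul_of_nonneg_left h5 (by positivity)
          _ = _ := by ring
    · have : (0 : ℝ) < b * nrmg S X n := by positivity
      nlinarith
  push Not at hδ1
  obtain ⟨l₀, hl₀⟩ := hS.hB ((1 - δ) * (b : ℝ) ^ 2) (by nlinarith [pow_pos hb0 2])
    (by nlinarith [pow_pos hb0 2])
  refine ⟨2 * l₀ + 3, fun n hn => ?_⟩
  rcases Nat.mod_two_eq_zero_or_one n with h | h
  · rw [nrmg, nrmg, h, show (n + 1) % 2 = 1 by omega,
      show (n + 1 - 1 - 2) / 2 = (n - 0 - 2) / 2 by omega, ← hb]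
    have h1 : (0 : ℝ) ≤ (b : ℝ) ^ (1 + 1) * alc S X ((n - 0 - 2) / 2) := by positivity
    refine ⟨le_of_eq (by ring), ?_⟩
    have h2 : (b : ℝ) * ((b : ℝ) ^ (0 + 1) * alc S X ((n - 0 - 2) / 2)) =
      (b : ℝ) ^ (1 + 1) * alc S X ((n - 0 - 2) / 2) := by ring
    rw [h2]
    nlinarith
  · rw [nrmg, nrmg, h, show (n + 1) % 2 = 0 by omega,
      show (n + 1 - 0 - 2) / 2 = (n - 1 - 2) / 2 + 1 by omega, ← hb]
    have h5 : (alc S X ((n - 1 - 2) / 2 + 1) : ℝ) ≤ (b : ℝ) ^ 2 * alc S X ((n - 1 - 2) / 2) := by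
      exact_mod_cast alc_succ_le X _
    have h6 := hl₀ ((n - 1 - 2) / 2) (by omega)
    constructor
    · calc (b : ℝ) ^ (0 + 1) * alc S X ((n - 1 - 2) / 2 + 1)
          ≤ (b : ℝ) ^ (0 + 1) * ((b : ℝ) ^ 2 * alc S X ((n - 1 - 2) / 2)) :=
            mul_le_mul_of_nonneg_left h5 (by positivity)
        _ = _ := by ring
    · calc (1 - δ) * ((b : ℝ) * ((b : ℝ) ^ (1 + 1) * alc S X ((n - 1 - 2) / 2)))
          = (b : ℝ) ^ (0 + 1) * ((1 - δ) * (b : ℝ) ^ 2 * alc S X ((n - 1 - 2) / 2)) := by ring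
        _ ≤ _ := mul_le_mul_of_nonneg_left h6 (by positivity)

/-- The asymptotics of the homogeneous classes on the powers of `X`. -/
theorem asy_pw (hS : GBig S X) :
    Asy X (fun n d => ag S (pw X n) d ((n + 1) * X.dim - d)) 1 (nrmg S X) := by
  have h1 : GLow S X X 1 := by
    refine glow_of_fac hS (m := 0) (s := 0) GOp.id (by rfl)
      (u := (LinearMap.id : W.H X →ₗ[W.K] W.H X))
      (v := (LinearMap.id : W.H X →ₗ[W.K] W.H X)) ?_ ?_ rfl
    · exact GOp.cast (S := S) (X := X) (Y := X) GOp.id (by ring)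
    · exact GOp.id
  have h2 := asy_of_low (S := S) (X := X) (Z := X) GOp.id (by rfl) h1
  set b := finrank W.K (W.H X) with hb
  have hb0 : (0 : ℝ) < b := by exact_mod_cast hS.hX
  have hb1 : (1 : ℝ) ≤ b := by exact_mod_cast hS.hX
  intro δ hδ J
  obtain ⟨n₁, hn₁⟩ := h2 (δ / 4) (by positivity) (J + X.dim)
  obtain ⟨n₂, hn₂⟩ := nrmg_succ hS (δ := min (δ / 4) (1 / 2)) (by positivity)
  refine ⟨max n₁ n₂ + 1, fun n hn d hd => ?_⟩
  obtain ⟨m, rfl⟩ : ∃ m, n = m + 1 := ⟨n - 1, by omega⟩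
  have hm : max n₁ n₂ ≤ m := by omega
  have e1 := hn₁ m ((le_max_left _ _).trans hm) d (by
    have h3 := abs_le.1 hd
    rw [abs_le]
    push_cast at h3 ⊢
    constructor
    · linarith [h3.1]
    · linarith [h3.2])
  obtain ⟨e2, e3⟩ := hn₂ m ((le_max_right _ _).trans hm)
  have e4 : rg S X 1 (pw X m) d (X.dim + (m + 1) * X.dim - d) =
      ag S (pw X (m + 1)) d ((((m + 1 : ℕ) : ℤ) + 1) * X.dim - d) := by
    rw [rg_one, ag_iso S (prodComm X (pw X m)) (by simp only [dim_prod]; ring)]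
    rw [show (X.dim : ℤ) + (m + 1) * X.dim - d = (((m + 1 : ℕ) : ℤ) + 1) * X.dim - d by
      push_cast; ring]
    rfl
  change |((rg S X 1 (pw X m) d (X.dim + (m + 1) * X.dim - d) : ℕ) : ℝ) - _| ≤ _ at e1
  have e5 : finrank W.K (LinearMap.range (LinearMap.id : W.H X →ₗ[W.K] W.H X)) = b :=
    Sys.rank_one X
  rw [e4, e5] at e1
  rw [← hb] at e2 e3
  have h5 := nrmg_pos hS m
  have h6 := nrmg_pos hS (m + 1)
  have h7 : min (δ / 4) (1 / 2 : ℝ) ≤ δ / 4 := min_le_left _ _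
  have h8 : min (δ / 4) (1 / 2 : ℝ) ≤ 1 / 2 := min_le_right _ _
  have h9 : (0 : ℝ) < b * nrmg S X m := by positivity
  have h10 : nrmg S X m ≤ b * nrmg S X m := le_mul_of_one_le_left h5.le hb1
  have h11 : b * nrmg S X m ≤ 2 * nrmg S X (m + 1) := by nlinarith
  have h12 := abs_le.1 e1
  rw [abs_le, one_mul]
  have h13 : δ / 4 * nrmg S X m ≤ δ / 2 * nrmg S X (m + 1) := by nlinarith
  have h14 : b * nrmg S X m - nrmg S X (m + 1) ≤ δ / 2 * nrmg S X (m + 1) := by nlinarith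
  constructor
  · linarith [h12.1]
  · linarith [h12.2]

/-- The projector `z ↦ tr (l z)` onto the multiples of `1` factors through the cohomology
of `X`. -/
lemma gmaxi_ne_zero (hX : ∃ l ∈ GC S X X.dim, W.tr X l = 1) (hZ : ∃ l ∈ GC S Z Z.dim, W.tr Z l = 1)
    {π : Module.End W.K (W.H Z)} (h : GMaxi S S X Z π) : π ≠ 0 := by
  rintro rfl
  obtain ⟨l, hl, hl1⟩ := hX
  obtain ⟨l', hl', hl'1⟩ := hZ
  have h1 : W.corr (W.map (fst X Z) l) ∈ GOp S X Z (-0) := GOp.corr (GC.map _ hl) (by ring)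
  have h2 : W.corr (W.map (fst Z X) l') ∈ GOp S Z X 0 := GOp.corr (GC.map _ hl') (by ring)
  have h3 := h 0 0 (W.corr (W.map (fst X Z) l)) h1 (W.corr (W.map (fst Z X) l')) h2
  have e1 : ∀ x : W.H X, W.corr (W.map (fst X Z) l) x = W.tr X (l * x) • (1 : W.H Z) := by
    intro x
    rw [corr_apply, ← map_mul, W.push_snd']
  have e2 : ∀ z : W.H Z, W.corr (W.map (fst Z X) l') z = W.tr Z (l' * z) • (1 : W.H X) := by
    intro z
    rw [corr_apply, ← map_mul, W.push_snd']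
  have e3 : par (W.isInternal Z) ∘ₗ (1 - 0) ∘ₗ W.corr (W.map (fst X Z) l) ∘ₗ
      W.corr (W.map (fst Z X) l') =
      (W.tr Z ∘ₗ LinearMap.mulLeft W.K l').smulRight (1 : W.H Z) := by
    apply LinearMap.ext
    intro z
    rw [sub_zero]
    change par (W.isInternal Z) (W.corr (W.map (fst X Z) l) (W.corr (W.map (fst Z X) l') z)) =
      W.tr Z (l' * z) • (1 : W.H Z)
    rw [e2, map_smul, e1, mul_one, hl1, one_smul, map_smul, PH.par PH.one, pow_zero, one_smul]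
  have h4 : LinearMap.trace W.K (W.H Z) (par (W.isInternal Z) ∘ₗ (1 - 0) ∘ₗ
      W.corr (W.map (fst X Z) l) ∘ₗ W.corr (W.map (fst Z X) l')) = 1 := by
    rw [e3, LinearMap.trace_smulRight, LinearMap.comp_apply, LinearMap.mulLeft_apply, mul_one,
      hl'1]
  have h5 : (1 : W.K) = 0 := h4.symm.trans h3
  exact one_ne_zero h5

/-- **The asymptotics of the homogeneous classes on `Z × X^n`.** -/
theorem glaw (hST : ∀ X, S.C X ≤ T.C X) (hS : GBig S X) (hT : GBig T X)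
    (hTn : ∀ Q d, GNondeg T Q d) (hZ : ∃ l ∈ GC S Z Z.dim, W.tr Z l = 1) :
    ∃ q p : ℕ, 1 ≤ q ∧ q ≤ p ∧ p ≤ finrank W.K (W.H Z) ∧
      Asy X (fun n d => ag S (Z.prod (pw X n)) d (Z.dim + (n + 1) * X.dim - d)) q (nrmg S X) ∧
      Asy X (fun n d => finrank W.K (GC T (Z.prod (pw X n)) d)) p (nrmg T X) ∧
      (q = p → (∀ n, S.C (pw X n) = T.C (pw X n)) →
        ∀ n d, GC S (Z.prod (pw X n)) d = GC T (Z.prod (pw X n)) d) := by
  have hX : ∃ l ∈ GC S X X.dim, W.tr X l = 1 := by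
    obtain ⟨a, ha, a', ha', h⟩ := hS.tw 0 (Nat.zero_le _)
    refine ⟨a * a', ?_, h⟩
    have := GC.mul ha ha'
    rwa [show ((0 : ℕ) : ℤ) + ((X.dim : ℤ) - (0 : ℕ)) = X.dim by push_cast; ring] at this
  obtain ⟨π, hπ, hmax, -⟩ := exists_gmax (S := S) (T := S) (Z := Z) (X := X) (fun _ => le_rfl)
    GGood.zero
  obtain ⟨ρ, hρ, hρmax, hρπ⟩ := exists_gmax (fun _ => le_rfl) ((hπ.up hST).mono hST)
  set q := finrank W.K (LinearMap.range π) with hq
  set p := finrank W.K (LinearMap.range ρ) with hp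
  have hqp : q ≤ p := by
    rcases hρπ with h | h
    · rw [hq, hp, h]
    · exact h.le
  have hq1 : 1 ≤ q := Sys.finrank_range_pos (gmaxi_ne_zero hX hZ hmax)
  refine ⟨q, p, hq1, hqp, Submodule.finrank_le _, ?_, ?_, ?_⟩
  · refine (asy_of_low hπ.mem hπ.idem (hπ.low S hS fun _ => le_rfl)).congr fun n d => ?_
    exact (ag_le_rg hπ.mem hmax n (by ring)).symm
  · refine (asy_of_low hρ.mem hρ.idem (hρ.low T hT fun _ => le_rfl)).congr fun n d => ?_
    exact finrank_GC_eq (fun _ => le_rfl) (fun _ => rfl) (fun d => hTn _ d) (fun d => hTn _ d) hρ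
      hρmax (by ring)
  · intro hqp' heq n d
    refine Submodule.eq_of_le_of_finrank_eq (GC_mono hST _ _) ?_
    have h1 : ρ = π := by
      rcases hρπ with h | h
      · exact h
      · omega
    rw [h1] at hρmax hρ
    have hmaxST : GMaxi S T X Z π := by
      intro m r s hs t ht
      exact hρmax m r s (GOp_mono hST _ _ _ hs) t ht
    have e1 := finrank_GC_eq hST heq (n := n) (fun d => hTn _ d) (fun d => hTn _ d) (hπ.up hST)
      hmaxST (d := d) (d' := Z.dim + (n + 1) * X.dim - d) (by ring)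
    have e2 := finrank_GC_eq (S := T) (fun _ => le_rfl) (fun _ => rfl) (n := n)
      (fun d => hTn _ d) (fun d => hTn _ d) hρ hρmax (d := d)
      (d' := Z.dim + (n + 1) * X.dim - d) (by ring)
    rw [← e1, ← e2]

end Pool.Agent.H61.GX
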