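import Pool.Agent.H61.GX.Pw
import Pool.Agent.H61.ZX.Max

/-!
# Lower bounds for the homogeneous parts cut out by idempotents
-/

open CategoryTheory AlgebraicGeometry

universe u v

namespace Pool.Agent.H61.GX

open Module
open Pool.Agent.H914 Pool.Agent.H914.VarClass Pool.Agent.H914.VarClass.Obj
  Pool.Agent.H914.WeilCohomology Pool.Agent.Y133.Half Pool.Agent.H61.ZX

variable {k : Type u} [Field k] {𝒱 : VarClass k} {ops : CycleOps 𝒱}
  {W : WeilCohomology.{u, v} ops} {P P₀ Q Z Z' X Y M N : 𝒱.Obj} (S : Sys W) {T : Sys W}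

lemma rBg {ι : Type} [Fintype ι] [DecidableEq ι] (X : ι → 𝒱.Obj) (α : ι → ℤ) (i j : ι)
    {g : Module.End W.K (W.H (X i))} (hg : Ev W g) {d e : ℤ}
    (hd : d = (X j).dim + (α i - α j)) (he : e = (X i).dim + (α j - α i)) :
    rk (A := (gcat S X α).S i j) (B := (gcat S X α).S j i)
      ((gcat S X α).B i j g LinearMap.id) = rg S (X i) g (X j) d e := by
  rw [gcat_B, rk_BG S hg Ev.id (g'' := 1) Adj.one, ← hd, ← he]
  exact cg_iso S (prodComm (X j) (X i)) (by simp only [dim_prod]; ring)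
    (fun x => Sys.swap_op hg x) d e

lemma rg_le_of_fac {e : Module.End W.K (W.H Z)} (he : e ∈ GOp S Z Z 0) {s : ℤ}
    {u : W.H P →ₗ[W.K] W.H Z} (hu : u ∈ GOp S P Z (-s)) {v : W.H Z →ₗ[W.K] W.H P}
    (hv : v ∈ GOp S Z P s) (Q : 𝒱.Obj) {d e' d₁ e₁ : ℤ} (hde : d + e' = Z.dim + Q.dim)
    (h1 : d₁ = d + s) (h2 : d₁ + e₁ = P.dim + Q.dim) :
    rg S P (v ∘ₗ e ∘ₗ u) Q d₁ e₁ ≤ rg S Z e Q d e' := by
  have hh : Ev W (v ∘ₗ e ∘ₗ u) := (GOp.ev hv).comp ((GOp.ev he).comp (GOp.ev hu))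
  let X : Fin 3 → 𝒱.Obj := ![Z, P, Q]
  let α : Fin 3 → ℤ := ![0, s, Q.dim - d]
  have e1 := rBg S X α 0 2 (g := e) (GOp.ev he) (d := d) (e := e')
    (show d = (Q.dim : ℤ) + (0 - (Q.dim - d)) by ring)
    (show e' = (Z.dim : ℤ) + ((Q.dim - d) - 0) by omega)
  have e2 := rBg S X α 1 2 (g := v ∘ₗ e ∘ₗ u) hh (d := d₁) (e := e₁)
    (show d₁ = (Q.dim : ℤ) + (s - (Q.dim - d)) by rw [h1]; ring)
    (show e₁ = (P.dim : ℤ) + ((Q.dim - d) - s) by omega)
  have e3 := B_fac_le (gcat S X α) (i := 0) (j := 2) (l := 1) (e := e) (u := u)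
    (GOp.cast hu (show -s = 0 - s by ring)) (v := v) (GOp.cast hv (show s = s - 0 by ring))
  rw [e1] at e3
  exact le_trans (le_of_eq e2.symm) e3

lemma rg_mono {e f : Module.End W.K (W.H Z)} (he : e ∈ GOp S Z Z 0) (hf : f ∈ GOp S Z Z 0)
    (hef : e ∘ₗ f = e) (Q : 𝒱.Obj) {d e' : ℤ} (hde : d + e' = Z.dim + Q.dim) :
    rg S Z e Q d e' ≤ rg S Z f Q d e' := by
  let X : Fin 2 → 𝒱.Obj := ![Z, Q]
  let α : Fin 2 → ℤ := ![0, Q.dim - d]
  have e1 := rBg S X α 0 1 (g := e) (GOp.ev he) (d := d) (e := e')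
    (show d = (Q.dim : ℤ) + (0 - (Q.dim - d)) by ring)
    (show e' = (Z.dim : ℤ) + ((Q.dim - d) - 0) by omega)
  have e2 := rBg S X α 0 1 (g := f) (GOp.ev hf) (d := d) (e := e')
    (show d = (Q.dim : ℤ) + (0 - (Q.dim - d)) by ring)
    (show e' = (Z.dim : ℤ) + ((Q.dim - d) - 0) by omega)
  have e3 := B_mono (gcat S X α) (i := 0) (j := 1) (e := e) (f := f)
    (GOp.cast he (show (0 : ℤ) = 0 - 0 by ring)) hef
  exact (le_of_eq e1.symm).trans (e3.trans (le_of_eq e2))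

lemma rg_add_orth {e f : Module.End W.K (W.H Z)} (he : e ∈ GOp S Z Z 0) (hf : f ∈ GOp S Z Z 0)
    (hee : e ∘ₗ e = e) (hff : f ∘ₗ f = f) (hef : e ∘ₗ f = 0) (hfe : f ∘ₗ e = 0) (Q : 𝒱.Obj)
    {d e' : ℤ} (hde : d + e' = Z.dim + Q.dim) :
    rg S Z e Q d e' + rg S Z f Q d e' ≤ rg S Z (e + f) Q d e' := by
  let X : Fin 2 → 𝒱.Obj := ![Z, Q]
  let α : Fin 2 → ℤ := ![0, Q.dim - d]
  have a1 : d = (Q.dim : ℤ) + (0 - (Q.dim - d)) := by ring
  have a2 : e' = (Z.dim : ℤ) + ((Q.dim - d) - 0) := by omega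
  have e1 := rBg S X α 0 1 (g := e) (GOp.ev he) a1 a2
  have e2 := rBg S X α 0 1 (g := f) (GOp.ev hf) a1 a2
  have e4 := rBg S X α 0 1 (g := e + f) (GOp.ev (Submodule.add_mem _ he hf)) a1 a2
  have e3 := B_add_orth (gcat S X α) (i := 0) (j := 1) (e := e) (f := f)
    (GOp.cast he (show (0 : ℤ) = 0 - 0 by ring)) (GOp.cast hf (show (0 : ℤ) = 0 - 0 by ring))
    hee hff hef hfe
  have e5 := e3.trans (le_of_eq e4)
  exact (le_of_eq (congrArg₂ (· + ·) e1.symm e2.symm)).trans e5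

lemma exists_newg {π : Module.End W.K (W.H Z)} (hπ : π ∈ GOp S Z Z 0) (hππ : π ∘ₗ π = π) {r : ℤ}
    {s : W.H Y →ₗ[W.K] W.H Z} (hs : s ∈ GOp S Y Z (-r)) {t : W.H Z →ₗ[W.K] W.H Y}
    (ht : t ∈ GOp S Z Y r)
    (h : LinearMap.trace W.K (W.H Z) (par (W.isInternal Z) ∘ₗ (1 - π) ∘ₗ s ∘ₗ t) ≠ 0) :
    ∃ f ∈ GOp S Z Z 0, f ∘ₗ f = f ∧ f ≠ 0 ∧ π ∘ₗ f = 0 ∧ f ∘ₗ π = 0 ∧
      ∃ v ∈ GOp S Z Y r, f = ((1 - π) ∘ₗ s) ∘ₗ v := by
  let X : Fin 2 → 𝒱.Obj := ![Z, Y]
  let α : Fin 2 → ℤ := ![0, r]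
  obtain ⟨f, hf, h1, h2, h3, h4, v, hv, h5⟩ := exists_new (gcat S X α) (i := 0) (j := 1) (π := π)
    (GOp.cast hπ (show (0 : ℤ) = 0 - 0 by ring)) hππ (s := s)
    (GOp.cast hs (show -r = 0 - r by ring)) (t := t) (GOp.cast ht (show r = r - 0 by ring)) h
  exact ⟨f, GOp.cast (S := S) (X := Z) (Y := Z) hf (show 0 - 0 = (0 : ℤ) by ring), h1, h2, h3, h4,
    v, GOp.cast (S := S) (X := Z) (Y := Y) hv (show r - 0 = r by ring), h5⟩

/-- The part cut out by an idempotent. -/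
lemma rg_lower' {g : Module.End W.K (W.H P)} (hg : g ∈ GOp S P P 0)
    (hgg : g ∘ₗ g = g) (Y : 𝒱.Obj) {d e : ℤ} (hde : d + e = (P.dim + P₀.dim) + 2 * Y.dim) :
    ag S ((P.prod P₀).prod (Y.prod Y)) d e +
        finrank W.K (LinearMap.range g) * finrank W.K (W.H P₀) * ac S Y ≤
      rg S P g (P₀.prod (Y.prod Y)) d e +
        finrank W.K (W.H P) * finrank W.K (W.H P₀) * ac S Y := by
  set G : Module.End W.K (W.H (P.prod P₀)) := extOp W g 1 with hG
  have hGm : G ∈ GOp S (P.prod P₀) (P.prod P₀) 0 := GOp.ext hg GOp.id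
  have h11 : (1 : Module.End W.K (W.H P₀)) ∘ₗ 1 = 1 := rfl
  have hGG' : G ∘ₗ G = G := ext_idem hgg h11
  have hGG : G * G = G := hGG'
  have hG' : (1 - G) ∘ₗ (1 - G) = 1 - G := by
    change (1 - G) * (1 - G) = 1 - G
    rw [mul_sub, sub_mul, sub_mul, hGG]
    simp
  have hde' : d + e = (P.prod P₀).dim + 2 * Y.dim := by
    rw [hde, dim_prod]; push_cast; rfl
  have h1 := rg_add_le S (Z := Y.prod Y) G (1 - G) d e
  rw [add_sub_cancel, rg_one] at h1
  have h2 := rg_le_rank S (g := 1 - G) (Submodule.sub_mem _ GOp.id hGm) hG' Y hde'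
  have h3 : rg S (P.prod P₀) G (Y.prod Y) d e = rg S P g (P₀.prod (Y.prod Y)) d e :=
    rg_assoc S g d e
  have h4 : finrank W.K (LinearMap.range G) = finrank W.K (LinearMap.range g) *
      finrank W.K (W.H P₀) := by
    rw [hG, finrank_extOp hgg h11, Sys.rank_one]
  have h5 : finrank W.K (LinearMap.range (1 - G)) + finrank W.K (LinearMap.range G) =
      finrank W.K (W.H P) * finrank W.K (W.H P₀) := by
    have := (Sys.finrank_compl (W := W) (P := P.prod P₀) (g := G) hGG).2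
    rw [this, Y133.Half.finrank_prod]
  rw [h3] at h1
  rw [← h5, h4]
  have h6 : (finrank W.K (LinearMap.range (1 - G)) +
      finrank W.K (LinearMap.range g) * finrank W.K (W.H P₀)) * ac S Y =
      finrank W.K (LinearMap.range (1 - G)) * ac S Y +
      finrank W.K (LinearMap.range g) * finrank W.K (W.H P₀) * ac S Y := by ring
  rw [h6]
  omega

/-- The rank of the part cut out by an idempotent is bounded by the rank of the idempotent. -/
lemma rg_upper {g : Module.End W.K (W.H P)} (hg : g ∈ GOp S P P 0)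
    (hgg : g ∘ₗ g = g) (Y : 𝒱.Obj) {d e : ℤ} (hde : d + e = (P.dim + P₀.dim) + 2 * Y.dim) :
    rg S P g (P₀.prod (Y.prod Y)) d e ≤
      finrank W.K (LinearMap.range g) * finrank W.K (W.H P₀) * ac S Y := by
  set G : Module.End W.K (W.H (P.prod P₀)) := extOp W g 1 with hG
  have hGm : G ∈ GOp S (P.prod P₀) (P.prod P₀) 0 := GOp.ext hg GOp.id
  have h11 : (1 : Module.End W.K (W.H P₀)) ∘ₗ 1 = 1 := rfl
  have hGG : G ∘ₗ G = G := ext_idem hgg h11
  have hde' : d + e = (P.prod P₀).dim + 2 * Y.dim := by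
    rw [hde, dim_prod]; push_cast; rfl
  have h2 := rg_le_rank S (g := G) hGm hGG Y hde'
  have h3 : rg S (P.prod P₀) G (Y.prod Y) d e = rg S P g (P₀.prod (Y.prod Y)) d e :=
    rg_assoc S g d e
  have h4 : finrank W.K (LinearMap.range G) = finrank W.K (LinearMap.range g) *
      finrank W.K (W.H P₀) := by
    rw [hG, finrank_extOp hgg h11, Sys.rank_one]
  rw [h3, h4] at h2
  exact h2

/-- The normalising factor. -/
noncomputable def nrmg (S : Sys W) (X : 𝒱.Obj) (n : ℕ) : ℝ :=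
  (finrank W.K (W.H X) : ℝ) ^ (n % 2 + 1) * alc S X ((n - n % 2 - 2) / 2)

lemma nrmg_nonneg (n : ℕ) : 0 ≤ nrmg S X n := by
  rw [nrmg]; positivity

lemma rg_nrm {e : Module.End W.K (W.H Z)} (he : e ∈ GOp S Z Z 0) (hee : e ∘ₗ e = e) (n : ℕ)
    (hn : 2 ≤ n) {d d' : ℤ} (hd : d + d' = Z.dim + (n + 1) * X.dim) :
    (rg S Z e (pw X n) d d' : ℝ) ≤ finrank W.K (LinearMap.range e) * nrmg S X n := by
  obtain ⟨l, hl⟩ : ∃ l, l = (n - n % 2 - 2) / 2 := ⟨_, rfl⟩
  have hd' : d + d' = ((Z.dim : ℤ) + (pw X (n % 2)).dim) +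
      2 * (pw X ((n - n % 2 - 2) / 2)).dim := by
    rw [hd, dim_pw, dim_pw, dim_split X (a := n % 2) (l := l) (n := n) (by omega), ← hl]
    push_cast
    ring
  have h := rg_upper S (P₀ := pw X (n % 2)) he hee (pw X ((n - n % 2 - 2) / 2)) hd'
  rw [rg_iso S e (phi X n hn) (dim_phi X n hn), finrank_pw] at h
  have h2 : ((finrank W.K (LinearMap.range e) * finrank W.K (W.H X) ^ (n % 2 + 1) *
      ac S (pw X ((n - n % 2 - 2) / 2)) : ℕ) : ℝ) =
      finrank W.K (LinearMap.range e) * nrmg S X n := by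
    push_cast
    rw [nrmg, mul_assoc]
    rfl
  rw [← h2]
  exact_mod_cast h

/-- The ranks of the homogeneous parts cut out by `e` on the products with the powers of `X`, in
codimensions near the middle, are asymptotically as large as possible. -/
def GLow (S : Sys W) (X Z : 𝒱.Obj) (e : Module.End W.K (W.H Z)) : Prop :=
  ∀ δ : ℝ, 0 < δ → ∀ J : ℕ, ∃ n₀ : ℕ, ∀ n ≥ n₀, ∀ d d' : ℤ,
    d + d' = Z.dim + (n + 1) * X.dim → |2 * d - (n + 1) * X.dim| ≤ J →
    ((finrank W.K (LinearMap.range e) : ℝ) - δ) * nrmg S X n ≤ rg S Z e (pw X n) d d'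

variable {S}

lemma glow_zero : GLow S X Z 0 := by
  intro δ hδ J
  refine ⟨0, fun n _ d d' _ _ => ?_⟩
  have h : finrank W.K (LinearMap.range (0 : Module.End W.K (W.H Z))) = 0 := by
    rw [LinearMap.range_zero, finrank_bot]
  rw [h]
  have h1 := nrmg_nonneg (S := S) (X := X) n
  have h2 : (0 : ℝ) ≤ rg S Z 0 (pw X n) d d' := Nat.cast_nonneg _
  push_cast
  nlinarith

lemma glow_add {e f : Module.End W.K (W.H Z)} (he : e ∈ GOp S Z Z 0) (hf : f ∈ GOp S Z Z 0)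
    (hee : e ∘ₗ e = e) (hff : f ∘ₗ f = f) (hef : e ∘ₗ f = 0) (hfe : f ∘ₗ e = 0)
    (h1 : GLow S X Z e) (h2 : GLow S X Z f) : GLow S X Z (e + f) := by
  intro δ hδ J
  obtain ⟨n₁, hn₁⟩ := h1 (δ / 2) (by positivity) J
  obtain ⟨n₂, hn₂⟩ := h2 (δ / 2) (by positivity) J
  refine ⟨max n₁ n₂, fun n hn d d' hd hJ => ?_⟩
  have e1 := hn₁ n ((le_max_left _ _).trans hn) d d' hd hJ
  have e2 := hn₂ n ((le_max_right _ _).trans hn) d d' hd hJ
  have e3 := rg_add_orth S he hf hee hff hef hfe (pw X n) (d := d) (e' := d')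
    (by rw [hd, dim_pw]; push_cast; ring)
  have e4 := (rank_add_orth hee hff hef hfe).2
  have e5 : (rg S Z e (pw X n) d d' : ℝ) + rg S Z f (pw X n) d d' ≤
      rg S Z (e + f) (pw X n) d d' := by
    exact_mod_cast e3
  have e6 : (finrank W.K (LinearMap.range (e + f)) : ℝ) =
      finrank W.K (LinearMap.range e) + finrank W.K (LinearMap.range f) := by
    exact_mod_cast e4
  rw [e6]
  linarith

lemma glow_of_fac (hS : GBig S X) {e : Module.End W.K (W.H Z)} (he : e ∈ GOp S Z Z 0)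
    (hee : e ∘ₗ e = e) {m : ℕ} {s : ℤ} {u : W.H (pw X m) →ₗ[W.K] W.H Z}
    (hu : u ∈ GOp S (pw X m) Z (-s)) {v : W.H Z →ₗ[W.K] W.H (pw X m)}
    (hv : v ∈ GOp S Z (pw X m) s) (h_1 : u ∘ₗ v = e) : GLow S X Z e := by
  intro δ hδ J
  have key : ∀ p : ℕ, ∃ n₀ : ℕ, ∀ n ≥ n₀, n % 2 = p % 2 → ∀ d d' : ℤ,
      d + d' = Z.dim + (n + 1) * X.dim → |2 * d - (n + 1) * X.dim| ≤ J →
      ((finrank W.K (LinearMap.range e) : ℝ) - δ) * nrmg S X n ≤ rg S Z e (pw X n) d d' := by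
    intro p
    set D := X.dim with hD
    have hD1 : 1 ≤ D := hS.hd
    set K₀ : ℕ := m * D + J + 2 * s.natAbs with hK₀
    set k : ℕ := K₀ + ((K₀ + p + m + 1) % 2) with hk
    have hkK : K₀ ≤ k := Nat.le_add_right _ _
    set b := finrank W.K (W.H X) with hb
    have hb1 : (1 : ℝ) ≤ b := by exact_mod_cast hS.hX
    obtain ⟨j, hj⟩ : ∃ j, (m + k + 1) + p % 2 + 2 = 2 * j :=
      ⟨((m + k + 1) + p % 2 + 2) / 2, by omega⟩
    have hB2 : (0 : ℝ) < (b : ℝ) ^ 2 := by positivity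
    obtain ⟨c, hc0, hcB, hc⟩ := exists_close hB2 j hδ
    obtain ⟨l₀, hl₀⟩ := hS.hB c hc0 hcB
    refine ⟨2 * l₀ + p % 2 + 2, fun n hn hpar d d' hd hJ => ?_⟩
    have hn2 : 2 ≤ n := by omega
    obtain ⟨l, hl⟩ : ∃ l, l = (n - n % 2 - 2) / 2 := ⟨_, rfl⟩
    have hl' : l ≥ l₀ := by omega
    have hnl : n = n % 2 + 2 * l + 2 := by omega
    -- the twist
    obtain ⟨h, hh⟩ : ∃ h, m + k + n + 3 = 2 * h := ⟨(m + k + n + 3) / 2, by omega⟩
    have hh' : h = l + j + 1 := by omega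
    have hkD : k ≤ k * D := Nat.le_mul_of_pos_right _ hD1
    have hi0 : 0 ≤ (h : ℤ) * D - d - s := by
      have h2 : 2 * ((h : ℤ) * D - d - s) = ((m : ℤ) + k + 2) * D - (2 * d - (n + 1) * D) - 2 * s := by
        have : (2 : ℤ) * h = m + k + n + 3 := by exact_mod_cast hh.symm
        linear_combination (D : ℤ) * this
      have h3 := abs_le.1 hJ
      have h4 : (k : ℤ) ≤ k * D := by exact_mod_cast hkD
      have h5 : ((m : ℤ) * D + J + 2 * s.natAbs) ≤ k := by exact_mod_cast hkK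
      have h6 : (0 : ℤ) ≤ m * D := by positivity
      have h7 : s ≤ s.natAbs := Int.le_natAbs
      have h8 : ((m : ℤ) + k + 2) * D = m * D + k * D + 2 * D := by ring
      have h9 : (0 : ℤ) ≤ D := by positivity
      have h10 := h3.2
      rw [h8] at h2
      linarith
    obtain ⟨i, hi⟩ : ∃ i : ℕ, (i : ℤ) = (h : ℤ) * D - d - s := ⟨_, Int.toNat_of_nonneg hi0⟩
    have hi1 : i ≤ (k + 1) * D := by
      have h2 : 2 * (i : ℤ) = ((m : ℤ) + k + 2) * D - (2 * d - (n + 1) * D) - 2 * s := by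
        have : (2 : ℤ) * h = m + k + n + 3 := by exact_mod_cast hh.symm
        rw [hi]
        linear_combination (D : ℤ) * this
      have h3 := abs_le.1 hJ
      have h4 : (k : ℤ) ≤ k * D := by exact_mod_cast hkD
      have h5 : ((m : ℤ) * D + J + 2 * s.natAbs) ≤ k := by exact_mod_cast hkK
      have h7 : -s ≤ s.natAbs := by
        have := Int.le_natAbs (a := -s)
        rwa [Int.natAbs_neg] at this
      have h8 : ((m : ℤ) + k + 2) * D = m * D + k * D + 2 * D := by ring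
      have h10 := h3.1
      rw [h8] at h2
      have h11 : (i : ℤ) ≤ ((k : ℤ) + 1) * D := by
        have : ((k : ℤ) + 1) * D = k * D + D := by ring
        rw [this]
        linarith
      exact_mod_cast h11
    obtain ⟨u', hu', v', hv', h'⟩ := fac_tw hS.tw hu hv k i hi1
    rw [h_1] at h'
    set g : Module.End W.K (W.H (pw X (m + k + 1))) := v' ∘ₗ e ∘ₗ u' with hg
    have hgm : g ∈ GOp S (pw X (m + k + 1)) (pw X (m + k + 1)) 0 :=
      GOp.comp' hv' (GOp.comp' he hu' rfl) (by ring)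
    have hgg : g ∘ₗ g = g := by
      apply LinearMap.ext
      intro x
      have e1 : ∀ y, u' (v' y) = e y := fun y => congrArg (fun f => f y) h'
      have e2 : ∀ y, e (e y) = e y := fun y => congrArg (fun f => f y) hee
      change v' (e (u' (v' (e (u' x))))) = v' (e (u' x))
      rw [e1, e2, e2]
    have hrk : finrank W.K (LinearMap.range g) = finrank W.K (LinearMap.range e) := by
      have e1 := trace_idem (K := W.K) (f := g) hgg
      have e2 := trace_idem (K := W.K) (f := e) hee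
      have e3 : LinearMap.trace W.K _ g = LinearMap.trace W.K _ e := by
        rw [hg, LinearMap.trace_comp_comm' (e ∘ₗ u') v', LinearMap.comp_assoc, h', hee]
      rw [e1, e2] at e3
      exact_mod_cast e3
    have hsum : ((h : ℤ) * D) + (h : ℤ) * D =
        ((pw X (m + k + 1)).dim + (pw X (n % 2)).dim) + 2 * (pw X l).dim := by
      rw [dim_pw, dim_pw, dim_pw, ← hD]
      push_cast
      have h2 : (2 : ℤ) * h = m + k + n + 3 := by exact_mod_cast hh.symm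
      have h3 : (n : ℤ) = ((n % 2 : ℕ) : ℤ) + 2 * l + 2 := by exact_mod_cast hnl
      push_cast at h3
      linear_combination (D : ℤ) * h2 + (D : ℤ) * h3
    have h1 := rg_lower' S (P₀ := pw X (n % 2)) hgm hgg (pw X l) hsum
    have h2 : ag S (((pw X (m + k + 1)).prod (pw X (n % 2))).prod ((pw X l).prod (pw X l)))
        ((h : ℤ) * D) ((h : ℤ) * D) = alc S X (l + j) := by
      rw [ag_iso S (prodCongr (pwAdd X (m + k + 1) (n % 2)) (Iso.refl _))
        (by simp only [dim_prod, dim_pw]; ring)]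
      refine ag_pw X (by omega) ?_
      rw [hh', ← hD]
      push_cast
      ring
    have h3 : ac S (pw X l) = alc S X l := rfl
    rw [h2, h3, hrk, finrank_pw, finrank_pw, ← hb] at h1
    have h4 := rg_le_of_fac S he hu' hv' (pw X n) (d := d) (e' := d') (d₁ := (h : ℤ) * D)
      (e₁ := (h : ℤ) * D) (by rw [hd, dim_pw]; push_cast; ring) (by rw [hi]; ring)
      (by
        rw [dim_pw, dim_pw, ← hD]
        push_cast
        have h2 : (2 : ℤ) * h = m + k + n + 3 := by exact_mod_cast hh.symm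
        linear_combination (D : ℤ) * h2)
    rw [← hg] at h4
    have h5 : rg S (pw X (m + k + 1)) g ((pw X (n % 2)).prod ((pw X l).prod (pw X l)))
        ((h : ℤ) * D) ((h : ℤ) * D) =
        rg S (pw X (m + k + 1)) g (pw X n) ((h : ℤ) * D) ((h : ℤ) * D) := by
      rw [hl]
      exact rg_iso S g (phi X n hn2) (dim_phi X n hn2) _ _
    rw [h5] at h1
    have h6 := ratio_pow hc0 hl₀ j l hl'
    have h7 : (alc S X (l + j) : ℝ) + finrank W.K (LinearMap.range e) * (b : ℝ) ^ (n % 2 + 1) *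
        alc S X l ≤ rg S Z e (pw X n) d d' +
          (b : ℝ) ^ (m + k + 1 + 1) * (b : ℝ) ^ (n % 2 + 1) * alc S X l := by
      exact_mod_cast h1.trans (Nat.add_le_add_right h4 _)
    have h8 : (b : ℝ) ^ (m + k + 1 + 1) * (b : ℝ) ^ (n % 2 + 1) = ((b : ℝ) ^ 2) ^ j := by
      rw [← pow_add, ← pow_mul]
      congr 1
      omega
    rw [h8] at h7
    have h9 : (0 : ℝ) ≤ alc S X l := Nat.cast_nonneg _
    have h10 : nrmg S X n = (b : ℝ) ^ (n % 2 + 1) * alc S X l := by rw [nrmg, hl]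
    rw [h10]
    have h11 : (1 : ℝ) ≤ (b : ℝ) ^ (n % 2 + 1) := one_le_pow₀ hb1
    have h12 : δ * alc S X l ≤ δ * ((b : ℝ) ^ (n % 2 + 1) * alc S X l) :=
      mul_le_mul_of_nonneg_left (le_mul_of_one_le_left h9 h11) hδ.le
    have h13 : (((b : ℝ) ^ 2) ^ j - δ) * alc S X l ≤ c ^ j * alc S X l :=
      mul_le_mul_of_nonneg_right hc.le h9
    nlinarith
  obtain ⟨n₁, h₁⟩ := key 0
  obtain ⟨n₂, h₂⟩ := key 1
  refine ⟨max n₁ n₂, fun n hn => ?_⟩
  rcases Nat.mod_two_eq_zero_or_one n with h | h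
  · exact h₁ n ((le_max_left _ _).trans hn) h
  · exact h₂ n ((le_max_right _ _).trans hn) h

end Pool.Agent.H61.GX
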