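import Pool.Agent.H61.GX.Low
import Pool.Agent.H61.ZX.Isot

/-!
# Maximal idempotents of degree zero, and their consequences
-/

open CategoryTheory AlgebraicGeometry

universe u v

namespace Pool.Agent.H61.GX

open Module
open Pool.Agent.H914 Pool.Agent.H914.VarClass Pool.Agent.H914.VarClass.Obj
  Pool.Agent.H914.WeilCohomology Pool.Agent.Y133.Half Pool.Agent.H61.ZX

variable {k : Type u} [Field k] {𝒱 : VarClass k} {ops : CycleOps 𝒱}
  {W : WeilCohomology.{u, v} ops} {P P₀ Q Z Z' X Y M N : 𝒱.Obj} {S T : Sys W}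

/-- The operators of degree zero on `Z` which are sums of operators factoring through a power of
`X`, by a homogeneous operator of the system `T` followed by one of the system `S`. -/
def gidl (S T : Sys W) (X Z : 𝒱.Obj) : Submodule W.K (Module.End W.K (W.H Z)) :=
  Submodule.span W.K {f | ∃ n : ℕ, ∃ r : ℤ, ∃ s ∈ GOp S (pw X n) Z (-r),
    ∃ v ∈ GOp T Z (pw X n) r, s ∘ₗ v = f}

lemma gidl_le (hST : ∀ X, S.C X ≤ T.C X) : gidl S T X Z ≤ GOp T Z Z 0 := by
  refine Submodule.span_le.2 ?_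
  rintro _ ⟨n, r, s, hs, v, hv, rfl⟩
  exact GOp.comp' (GOp_mono hST _ _ _ hs) hv (by ring)

lemma gidl_mono (hST : ∀ X, S.C X ≤ T.C X) : gidl S T X Z ≤ gidl T T X Z := by
  refine Submodule.span_le.2 ?_
  rintro _ ⟨n, r, s, hs, v, hv, rfl⟩
  exact Submodule.subset_span ⟨n, r, s, GOp_mono hST _ _ _ hs, v, hv, rfl⟩

lemma gidl_mul {x y : Module.End W.K (W.H Z)} (hx : x ∈ gidl S T X Z) (hy : y ∈ GOp T Z Z 0) :
    x ∘ₗ y ∈ gidl S T X Z := by
  refine Submodule.span_induction (p := fun x _ => x ∘ₗ y ∈ gidl S T X Z) ?_ ?_ ?_ ?_ hx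
  · rintro _ ⟨n, r, s, hs, v, hv, rfl⟩
    exact Submodule.subset_span ⟨n, r, s, hs, v ∘ₗ y, GOp.comp' hv hy (by ring), rfl⟩
  · rw [LinearMap.zero_comp]; exact Submodule.zero_mem _
  · intro a b _ _ ha hb
    rw [LinearMap.add_comp]; exact Submodule.add_mem _ ha hb
  · intro c a _ ha
    rw [LinearMap.smul_comp]; exact Submodule.smul_mem _ _ ha

/-- The idempotents built from operators of `S`. -/
structure GGood (S T : Sys W) (X Z : 𝒱.Obj) (π : Module.End W.K (W.H Z)) : Prop where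
  mem : π ∈ GOp T Z Z 0
  idem : π ∘ₗ π = π
  gen : π ∈ gidl S T X Z
  low : ∀ U : Sys W, GBig U X → (∀ X, T.C X ≤ U.C X) → GLow U X Z π

lemma GGood.zero : GGood S T X Z 0 :=
  ⟨Submodule.zero_mem _, LinearMap.zero_comp _, Submodule.zero_mem _, fun _ _ _ => glow_zero⟩

lemma GGood.mono (hST : ∀ X, S.C X ≤ T.C X) {π : Module.End W.K (W.H Z)} (h : GGood S T X Z π) :
    GGood T T X Z π := ⟨h.mem, h.idem, gidl_mono hST h.gen, h.low⟩

lemma GGood.up (hST : ∀ X, S.C X ≤ T.C X) {π : Module.End W.K (W.H Z)} (h : GGood S S X Z π) :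
    GGood S T X Z π := by
  refine ⟨GOp_mono hST _ _ _ h.mem, h.idem, ?_, fun U hU hTU => h.low U hU fun X =>
    (hST X).trans (hTU X)⟩
  refine (Submodule.span_le.2 ?_ : gidl S S X Z ≤ gidl S T X Z) h.gen
  rintro _ ⟨n, r, s, hs, v, hv, rfl⟩
  exact Submodule.subset_span ⟨n, r, s, hs, v, GOp_mono hST _ _ _ hv, rfl⟩

/-- The operators from the powers of `X` to `Z` are orthogonal to `1 - π`. -/
def GMaxi (S T : Sys W) (X Z : 𝒱.Obj) (π : Module.End W.K (W.H Z)) : Prop :=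
  ∀ (n : ℕ) (r : ℤ), ∀ s ∈ GOp S (pw X n) Z (-r), ∀ t ∈ GOp T Z (pw X n) r,
    LinearMap.trace W.K (W.H Z) (par (W.isInternal Z) ∘ₗ (1 - π) ∘ₗ s ∘ₗ t) = 0

lemma exists_gmax_aux (hST : ∀ X, S.C X ≤ T.C X) : ∀ (d : ℕ) (π₀ : Module.End W.K (W.H Z)),
    GGood S T X Z π₀ → finrank W.K (W.H Z) - finrank W.K (LinearMap.range π₀) ≤ d →
    ∃ π, GGood S T X Z π ∧ GMaxi S T X Z π ∧
      (π = π₀ ∨ finrank W.K (LinearMap.range π₀) < finrank W.K (LinearMap.range π)) := by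
  intro d
  induction d with
  | zero =>
    intro π₀ h0 hd
    refine ⟨π₀, h0, ?_, Or.inl rfl⟩
    intro n r s hs t ht
    by_contra hne
    obtain ⟨f, hf, hff, hf0, hπf, hfπ, v, hv, hfv⟩ :=
      exists_newg T h0.mem h0.idem (GOp_mono hST _ _ _ hs) ht hne
    have h1 := (rank_add_orth (K := W.K) h0.idem hff hπf hfπ).2
    have h2 := Sys.finrank_range_pos hf0
    have h3 : finrank W.K (LinearMap.range (π₀ + f)) ≤ finrank W.K (W.H Z) :=
      Submodule.finrank_le _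
    omega
  | succ d ih =>
    intro π₀ h0 hd
    by_cases hmax : GMaxi S T X Z π₀
    · exact ⟨π₀, h0, hmax, Or.inl rfl⟩
    unfold GMaxi at hmax
    push Not at hmax
    obtain ⟨n, r, s, hs, t, ht, hne⟩ := hmax
    obtain ⟨f, hf, hff, hf0, hπf, hfπ, v, hv, hfv⟩ :=
      exists_newg T h0.mem h0.idem (GOp_mono hST _ _ _ hs) ht hne
    have h1 := rank_add_orth (K := W.K) h0.idem hff hπf hfπ
    have h2 := Sys.finrank_range_pos hf0
    have h1π : (1 - π₀) ∈ GOp T Z Z 0 := Submodule.sub_mem _ GOp.id h0.mem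
    have hu : (1 - π₀) ∘ₗ s ∈ GOp T (pw X n) Z (-r) :=
      GOp.comp' h1π (GOp_mono hST _ _ _ hs) (by ring)
    have hfgen : f ∈ gidl S T X Z := by
      have e1 : f = s ∘ₗ v - π₀ ∘ₗ (s ∘ₗ v) := by
        rw [hfv, LinearMap.sub_comp, LinearMap.sub_comp]
        rfl
      rw [e1]
      exact Submodule.sub_mem _ (Submodule.subset_span ⟨n, r, s, hs, v, hv, rfl⟩)
        (gidl_mul h0.gen (GOp.comp' (GOp_mono hST _ _ _ hs) hv (by ring)))
    have hgood : GGood S T X Z (π₀ + f) := by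
      refine ⟨Submodule.add_mem _ h0.mem hf, h1.1, Submodule.add_mem _ h0.gen hfgen, ?_⟩
      intro U hU hTU
      refine glow_add (GOp_mono hTU _ _ _ h0.mem) (GOp_mono hTU _ _ _ hf) h0.idem hff hπf hfπ
        (h0.low U hU hTU) ?_
      exact glow_of_fac hU (GOp_mono hTU _ _ _ hf) hff (GOp_mono hTU _ _ _ hu)
        (GOp_mono hTU _ _ _ hv) hfv.symm
    obtain ⟨π, hπ1, hπ2, hπ3⟩ := ih (π₀ + f) hgood (by
      have h3 : finrank W.K (LinearMap.range (π₀ + f)) ≤ finrank W.K (W.H Z) :=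
        Submodule.finrank_le _
      omega)
    refine ⟨π, hπ1, hπ2, Or.inr ?_⟩
    rcases hπ3 with rfl | hπ3
    · omega
    · omega

theorem exists_gmax (hST : ∀ X, S.C X ≤ T.C X) {π₀ : Module.End W.K (W.H Z)}
    (h0 : GGood S T X Z π₀) : ∃ π, GGood S T X Z π ∧ GMaxi S T X Z π ∧
      (π = π₀ ∨ finrank W.K (LinearMap.range π₀) < finrank W.K (LinearMap.range π)) :=
  exists_gmax_aux hST _ π₀ h0 le_rfl

/-- The part cut out by `1 - π` vanishes. -/
lemma rg_compl_eq_zero {π : Module.End W.K (W.H Z)} (hπ : π ∈ GOp S Z Z 0) (h : GMaxi S S X Z π)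
    (n : ℕ) {d d' : ℤ} (hd : d + d' = Z.dim + (n + 1) * X.dim) :
    rg S Z (1 - π) (pw X n) d d' = 0 := by
  have h1 : (1 - π) ∈ GOp S Z Z 0 := Submodule.sub_mem _ GOp.id hπ
  let X' : Fin 2 → 𝒱.Obj := ![Z, pw X n]
  let α : Fin 2 → ℤ := ![0, (pw X n).dim - d]
  have a1 : d = ((pw X n).dim : ℤ) + (0 - ((pw X n).dim - d)) := by ring
  have a2 : d' = (Z.dim : ℤ) + (((pw X n).dim - d) - 0) := by
    rw [dim_pw]; push_cast; linarith
  obtain ⟨ρ, hρ⟩ : ∃ ρ : Module.End W.K (W.H Z), ρ = 1 - π := ⟨_, rfl⟩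
  rw [← hρ] at h1 ⊢
  have e1 := rBg S X' α 0 1 (g := ρ) (GOp.ev h1) a1 a2
  refine e1.symm.trans ?_
  have h2 : (gcat S X' α).B 0 1 ρ LinearMap.id = 0 := by
    apply LinearMap.ext
    intro s
    apply LinearMap.ext
    intro t
    rw [Cat.B_apply]
    rw [hρ]
    exact h n ((pw X n).dim - d) s.1 (GOp.cast (S := S) (X := pw X n) (Y := Z) s.2
      (show 0 - (((pw X n).dim : ℤ) - d) = -((pw X n).dim - d) by ring)) t.1
      (GOp.cast (S := S) (X := Z) (Y := pw X n) t.2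
      (show ((pw X n).dim : ℤ) - d - 0 = (pw X n).dim - d by ring))
  rw [h2, rk]
  simp

lemma ag_le_rg {π : Module.End W.K (W.H Z)} (hπ : π ∈ GOp S Z Z 0)
    (h : GMaxi S S X Z π) (n : ℕ) {d d' : ℤ} (hd : d + d' = Z.dim + (n + 1) * X.dim) :
    ag S (Z.prod (pw X n)) d d' = rg S Z π (pw X n) d d' := by
  apply le_antisymm
  · have h1 := rg_add_le S (P := Z) (Z := pw X n) π (1 - π) d d'
    rwa [add_sub_cancel, rg_one, rg_compl_eq_zero hπ h n hd, add_zero] at h1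
  · rw [← rg_one]
    refine rg_mono S hπ GOp.id ?_ (pw X n) (by rw [hd, dim_pw]; push_cast; ring)
    rfl

/-- The pairing on the homogeneous classes of `T` is perfect. -/
def GNondeg (T : Sys W) (Q : 𝒱.Obj) (d : ℤ) : Prop :=
  ∀ c ∈ GC T Q d, (∀ y ∈ GC T Q (Q.dim - d), W.tr Q (c * y) = 0) → c = 0

/-- If the pairing on the classes of `T` is perfect, the operators of `S` are fixed by a maximal
idempotent. -/
lemma comp_eq_of_gmaxi {n : ℕ} (hT : ∀ d, GNondeg T ((pw X n).prod Z) d)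
    (hST : ∀ X, S.C X ≤ T.C X)
    {π : Module.End W.K (W.H Z)} (hπ : π ∈ GOp T Z Z 0) (h : GMaxi S T X Z π) {r : ℤ}
    {s : W.H (pw X n) →ₗ[W.K] W.H Z} (hs : s ∈ GOp S (pw X n) Z (-r)) : π ∘ₗ s = s := by
  have h1 : (1 - π) ∈ GOp T Z Z 0 := Submodule.sub_mem _ GOp.id hπ
  have h2 : (1 - π) ∘ₗ s ∈ GOp T (pw X n) Z (-r) :=
    GOp.comp' h1 (GOp_mono hST _ _ _ hs) (by ring)
  obtain ⟨c, hc, hcs⟩ := mem_GOp.1 h2
  have h3 : c = 0 := by
    refine hT _ c hc fun y hy => ?_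
    have h4 : W.map (swap Z (pw X n)) y ∈ GC T (Z.prod (pw X n))
        (((pw X n).prod Z).dim - ((pw X n).dim + -r)) := GC.map _ hy
    have h5 := h n r s hs (W.corr (W.map (swap Z (pw X n)) y)) (GOp.corr h4 (by
      rw [dim_prod]; push_cast; ring))
    have h6 := trace_corr_corr (W := W) c (W.map (swap Z (pw X n)) y)
    rw [hcs, swap_swap] at h6
    rw [← h6]
    exact h5
  rw [h3, corr_zero] at hcs
  have h7 : (1 - π) ∘ₗ s = s - π ∘ₗ s := by rw [LinearMap.sub_comp]; rfl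
  rw [h7] at hcs
  exact (sub_eq_zero.1 hcs.symm).symm

lemma CopG {n m : ℕ} (heq : ∀ n, S.C (pw X n) = T.C (pw X n)) {r : ℤ}
    {t : W.H (pw X n) →ₗ[W.K] W.H (pw X m)}
    (ht : t ∈ GOp T (pw X n) (pw X m) r) : t ∈ GOp S (pw X n) (pw X m) r := by
  obtain ⟨c, hc, rfl⟩ := mem_GOp.1 ht
  refine GOp.corr (d := (pw X n).dim + r) ⟨?_, hc.2⟩ rfl
  have h1 : W.map (pwAdd X n m).inv c ∈ S.C (pw X (n + m + 1)) := by
    rw [heq]
    exact T.map _ hc.1
  have h2 := S.map (pwAdd X n m).hom h1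
  rw [← W.map_comp, Iso.hom_inv_id, W.map_id] at h2
  exact h2

lemma gidl_comp_mem (heq : ∀ n, S.C (pw X n) = T.C (pw X n)) {x : Module.End W.K (W.H Z)}
    (hx : x ∈ gidl S T X Z) {n : ℕ} {a : ℤ} {t : W.H (pw X n) →ₗ[W.K] W.H Z}
    (ht : t ∈ GOp T (pw X n) Z a) : x ∘ₗ t ∈ GOp S (pw X n) Z a := by
  refine Submodule.span_induction (p := fun x _ => x ∘ₗ t ∈ GOp S (pw X n) Z a) ?_ ?_ ?_ ?_ hx
  · rintro _ ⟨m, r, s, hs, v, hv, rfl⟩
    rw [LinearMap.comp_assoc]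
    exact GOp.comp' hs (CopG heq (GOp.comp' hv ht rfl)) (by ring)
  · rw [LinearMap.zero_comp]; exact Submodule.zero_mem _
  · intro a b _ _ ha hb
    rw [LinearMap.add_comp]; exact Submodule.add_mem _ ha hb
  · intro c a _ ha
    rw [LinearMap.smul_comp]; exact Submodule.smul_mem _ _ ha

lemma inj_of_gnondeg {d e : ℤ} (hT : GNondeg T Q d) (he : e = Q.dim - d) :
    Function.Injective (FG T Q 1 d e) := by
  subst he
  rw [← LinearMap.ker_eq_bot, LinearMap.ker_eq_bot']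
  intro c hc
  apply Subtype.ext
  refine hT c c.2 fun y hy => ?_
  exact congrArg (fun f : GC T Q (Q.dim - d) →ₗ[W.K] W.K => f ⟨y, hy⟩) hc

lemma ag_eq_of_gnondeg {d e : ℤ} (hT : GNondeg T Q d) (he : e = Q.dim - d) :
    ag T Q d e = finrank W.K (GC T Q d) :=
  LinearMap.finrank_range_of_inj (inj_of_gnondeg hT he)

/-- The form of an idempotent has the rank of its image. -/
lemma rg_eq_finrank {g : Module.End W.K (W.H P)} {d e : ℤ}
    (hT : GNondeg T (P.prod Q) d) (he : e = (P.prod Q).dim - d)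
    (M : Submodule W.K (W.H (P.prod Q)))
    (h1 : M ≤ GC T (P.prod Q) d) (h2 : ∀ c ∈ M, extOp W g 1 c = c)
    (h3 : ∀ c ∈ GC T (P.prod Q) d, extOp W g 1 c ∈ M) : rg T P g Q d e = finrank W.K M := by
  have hinj := inj_of_gnondeg hT he
  let L : GC T (P.prod Q) d →ₗ[W.K] GC T (P.prod Q) d :=
    (extOp W g 1).restrict fun c hc => h1 (h3 c hc)
  have hL : FG T (P.prod Q) (extOp W g 1) d e = FG T (P.prod Q) 1 d e ∘ₗ L := by
    apply LinearMap.ext
    intro c
    apply LinearMap.ext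
    intro y
    rfl
  rw [rg, cg, rk, hL, LinearMap.range_comp]
  rw [(Submodule.equivMapOfInjective _ hinj _).symm.finrank_eq]
  have h4 : (LinearMap.range L).map (GC T (P.prod Q) d).subtype = M := by
    ext x
    constructor
    · rintro ⟨_, ⟨c, rfl⟩, rfl⟩
      exact h3 c c.2
    · intro hx
      exact ⟨L ⟨x, h1 hx⟩, ⟨_, rfl⟩, h2 x hx⟩
  rw [← h4]
  exact (Submodule.equivMapOfInjective _ (Submodule.subtype_injective _) _).finrank_eq

/-- **The homogeneous classes of `S`, if `S` and `T` agree on the powers of `X`.** -/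
lemma finrank_GC_eq (hST : ∀ X, S.C X ≤ T.C X) (heq : ∀ n, S.C (pw X n) = T.C (pw X n))
    {n : ℕ} (hT : ∀ d, GNondeg T ((pw X n).prod Z) d) (hT' : ∀ d, GNondeg T (Z.prod (pw X n)) d)
    {π : Module.End W.K (W.H Z)} (hπ : GGood S T X Z π) (h : GMaxi S T X Z π)
    {d d' : ℤ} (hd : d + d' = Z.dim + (n + 1) * X.dim) :
    rg T Z π (pw X n) d d' = finrank W.K (GC S (Z.prod (pw X n)) d) := by
  refine rg_eq_finrank (hT' d) (by rw [dim_prod, dim_pw]; push_cast; linarith)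
    (GC S (Z.prod (pw X n)) d) (GC_mono hST _ _) ?_ ?_
  · intro c hc
    have h1 : W.map (swap (pw X n) Z) c ∈ GC S ((pw X n).prod Z) d := GC.map _ hc
    have h2 := comp_eq_of_gmaxi hT hST hπ.mem h (r := (pw X n).dim - d)
      (GOp.corr h1 (by ring))
    have h3 : W.corr (W.map (swap (pw X n) Z) (extOp W π 1 c) - W.map (swap (pw X n) Z) c) = 0 := by
      rw [ext_swap (GOp.ev hπ.mem), sub_eq_add_neg, corr_add, corr_one_ext (GOp.ev hπ.mem),
        h2]
      have h4 := W.corr_add (W.map (swap (pw X n) Z) c) (-(W.map (swap (pw X n) Z) c))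
      rw [add_neg_cancel, corr_zero] at h4
      exact h4.symm
    have h4 := corr_inj h3
    have h5 := congrArg (W.map (swap Z (pw X n))) (sub_eq_zero.1 h4)
    rwa [swap_swap, swap_swap] at h5
  · intro c hc
    have h1 : W.map (swap (pw X n) Z) c ∈ GC T ((pw X n).prod Z) d := GC.map _ hc
    have h2 := gidl_comp_mem heq hπ.gen (GOp.corr (s := d - (pw X n).dim) h1 (by ring))
    rw [← corr_one_ext (GOp.ev hπ.mem), ← ext_swap (GOp.ev hπ.mem)] at h2
    obtain ⟨y, hy, hy'⟩ := mem_GOp.1 h2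
    have h3 : W.corr (y - W.map (swap (pw X n) Z) (extOp W π 1 c)) = 0 := by
      have h4 := W.corr_add (y - W.map (swap (pw X n) Z) (extOp W π 1 c))
        (W.map (swap (pw X n) Z) (extOp W π 1 c))
      rw [sub_add_cancel, hy'] at h4
      exact right_eq_add.1 h4
    have h4 := sub_eq_zero.1 (corr_inj h3)
    have h5 := GC.map (swap Z (pw X n)) hy
    rw [h4, swap_swap] at h5
    rwa [show ((pw X n).dim : ℤ) + (d - (pw X n).dim) = d by ring] at h5

end Pool.Agent.H61.GX
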