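import Pool.Agent.H61.GX.Chain

/-!
# The zero-infinity law for numerically trivial classes, codimension by codimension
-/

open CategoryTheory AlgebraicGeometry

universe u v

namespace Pool.Agent.H61.GX

open Module
open Pool.Agent.H914 Pool.Agent.H914.VarClass Pool.Agent.H914.VarClass.Obj
  Pool.Agent.H914.WeilCohomology Pool.Agent.Y133.Half Pool.Agent.H61.ZX

variable {k : Type u} [Field k] {𝒱 : VarClass k} {ops : CycleOps 𝒱}
  {W : WeilCohomology.{u, v} ops} {P P₀ Q Z Z' X Y M N : 𝒱.Obj} {S T : Sys W}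

/-- The system is graded by the codimension. -/
def SGr (S : Sys W) : Prop :=
  ∀ Q, ∀ c ∈ S.C Q, (∀ j : ℕ, proj (W.isInternal Q) (2 * j) c ∈ S.C Q) ∧
    ∑ j ∈ Finset.range (Q.dim + 1), proj (W.isInternal Q) (2 * j) c = c

/-- The numerically trivial classes of codimension `d`. -/
noncomputable def GNum (S : Sys W) (Q : 𝒱.Obj) (d : ℤ) : Submodule W.K (W.H Q) :=
  S.Num Q ⊓ gz W Q d

lemma gnum_le (Q : 𝒱.Obj) (d : ℤ) : GNum S Q d ≤ GC S Q d := fun _ h => ⟨h.1.1, h.2⟩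

lemma tr_homog {d : ℤ} (hS : SGr S) {c : W.H Q} (hc : c ∈ gz W Q d)
    (h : ∀ y ∈ GC S Q (Q.dim - d), W.tr Q (c * y) = 0) : ∀ y ∈ S.C Q, W.tr Q (c * y) = 0 := by
  intro y hy
  rw [← (hS Q y hy).2, Finset.mul_sum, map_sum]
  refine Finset.sum_eq_zero fun j _ => ?_
  have h1 : proj (W.isInternal Q) (2 * j) y ∈ gz W Q (j : ℤ) := by
    rw [gz_nat]; exact proj_mem _ _ _
  by_cases hj : (j : ℤ) = Q.dim - d
  · exact h _ ⟨(hS Q y hy).1 j, hj ▸ h1⟩
  · exact gz_tr (gz_mul hc h1) (by omega)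

lemma mem_gnum (hS : SGr S) {d : ℤ} {c : W.H Q} :
    c ∈ GNum S Q d ↔ c ∈ GC S Q d ∧ ∀ y ∈ GC S Q (Q.dim - d), W.tr Q (c * y) = 0 := by
  constructor
  · rintro ⟨h1, h2⟩
    exact ⟨⟨h1.1, h2⟩, fun y hy => h1.2 y hy.1⟩
  · rintro ⟨h1, h2⟩
    exact ⟨⟨h1.1, tr_homog hS h1.2 h2⟩, h1.2⟩

/-- The homogeneous components of a numerically trivial class are numerically trivial. -/
lemma proj_num (hS : SGr S) {c : W.H Q} (hc : c ∈ S.Num Q) (j : ℕ) :
    proj (W.isInternal Q) (2 * j) c ∈ GNum S Q j := by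
  have hg : proj (W.isInternal Q) (2 * j) c ∈ gz W Q (j : ℤ) := by
    rw [gz_nat]; exact proj_mem _ _ _
  rw [mem_gnum hS]
  refine ⟨⟨(hS Q c hc.1).1 j, hg⟩, fun y hy => ?_⟩
  have h1 := hc.2 y hy.1
  rw [← (hS Q c hc.1).2, Finset.sum_mul, map_sum] at h1
  by_cases hj : j ∈ Finset.range (Q.dim + 1)
  · rw [← h1]
    symm
    refine Finset.sum_eq_single_of_mem j hj fun i _ hij => ?_
    have hi : proj (W.isInternal Q) (2 * i) c ∈ gz W Q (i : ℤ) := by
      rw [gz_nat]; exact proj_mem _ _ _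
    exact gz_tr (gz_mul hi hy.2) (by omega)
  · have h2 : W.gr Q (2 * j) = ⊥ := W.gr_eq_bot Q _ (by
      rw [Finset.mem_range] at hj; omega)
    have h3 := proj_mem (W.isInternal Q) (2 * j) c
    rw [h2, Submodule.mem_bot] at h3
    rw [h3, zero_mul, map_zero]

lemma num_eq_bot_iff (hS : SGr S) : S.Num Q = ⊥ ↔ ∀ d : ℕ, GNum S Q d = ⊥ := by
  constructor
  · intro h d
    rw [GNum, h, bot_inf_eq]
  · intro h
    rw [eq_bot_iff]
    intro c hc
    rw [Submodule.mem_bot, ← (hS Q c hc.1).2]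
    refine Finset.sum_eq_zero fun j _ => ?_
    have h1 := proj_num hS hc j
    rw [h, Submodule.mem_bot] at h1
    exact h1

/-- Descending sequences of classes of given codimension. -/
def GDesc (S T : Sys W) (P : 𝒱.Obj) (d₀ : ℤ) (n : ℕ) : Prop :=
  ∃ w : ℕ → W.H P, (∀ j ≤ n, w j ∈ GC T P d₀) ∧ w n ≠ 0 ∧
    ∀ j < n, ∃ x ∈ S.NOp P P, x ∈ GOp S P P 0 ∧ w (j + 1) = x (w j)

lemma GDesc.zero (h : (1 : W.H P) ≠ 0) : GDesc S T P 0 0 :=
  ⟨fun _ => 1, fun _ _ => GC.one, h, fun j hj => absurd hj (Nat.not_lt_zero j)⟩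

lemma GDesc.succ {n : ℕ} {d₀ d₁ e : ℤ} (h : GDesc S T P d₀ n) (hST : ∀ X, S.C X ≤ T.C X)
    {z : W.H Q} (hz : z ∈ S.Num Q) (hze : z ∈ gz W Q e) (hz0 : z ≠ 0) {a a' : W.H Q}
    (ha : a ∈ GC S Q e) (ha' : a' ∈ GC S Q (Q.dim - e)) (haa : W.tr Q (a * a') = 1)
    (hd : d₁ = d₀ + e) : GDesc S T (P.prod Q) d₁ (n + 1) := by
  obtain ⟨w, hw, h0, hx⟩ := h
  have ha0 : a ≠ 0 := by
    rintro rfl
    rw [zero_mul, map_zero] at haa
    exact zero_ne_one haa
  have hzC : z ∈ GC S Q e := ⟨hz.1, hze⟩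
  refine ⟨fun j => if j ≤ n then xp W (w j) a else xp W (w n) z, fun j hj => ?_, ?_,
    fun j hj => ?_⟩
  · dsimp only
    split_ifs with h
    · exact GC.xp (hw j h) (GC_mono hST _ _ ha) hd
    · exact GC.xp (hw n le_rfl) (GC_mono hST _ _ hzC) hd
  · dsimp only
    rw [if_neg (by omega)]
    exact fun h => h0 (xp_eq_zero_right hz0 h)
  · rcases Nat.lt_succ_iff_lt_or_eq.1 hj with hj' | rfl
    · obtain ⟨x, hx, hx', e⟩ := hx j hj'
      refine ⟨_, Sys.NOp.ext_left hx, GOp.ext hx' GOp.id, ?_⟩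
      dsimp only
      rw [if_pos (by omega), if_pos (by omega), extOp_xp, Module.End.one_apply, e]
    · have hcl : xp W a' z ∈ GC S (Q.prod Q) (Q.dim - e + e) := GC.xp ha' hzC rfl
      refine ⟨extOp W (1 : Module.End W.K (W.H P)) (W.corr (xp W a' z)),
        Sys.NOp.ext_right ?_, GOp.ext GOp.id (GOp.corr hcl (by ring)), ?_⟩
      · exact Sys.NOp.corr (Sys.Num.mul' (S.map _ ha'.1) (Sys.Num.map _ hz))
      · dsimp only
        rw [if_neg (by omega), if_pos le_rfl, extOp_xp, Module.End.one_apply]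
        have h1 := corr_xp (W := W) a' (S.even hz.1) (S.even ha.1)
        rw [PH.even_comm (S.even ha'.1), haa, mul_zero, pow_zero, one_mul, one_smul] at h1
        rw [h1]

/-- The subspace generated by a class. -/
noncomputable def gorb (S : Sys W) (w : W.H P) : Submodule W.K (W.H P) :=
  (GOp S P P 0).map (LinearMap.applyₗ w)

lemma mem_gorb {w x : W.H P} : x ∈ gorb S w ↔ ∃ a ∈ GOp S P P 0, a w = x := Submodule.mem_map

lemma gorb_stable (w : W.H P) : ∀ a ∈ GOp S P P 0, ∀ m ∈ gorb S w, a m ∈ gorb S w := by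
  intro a ha m hm
  obtain ⟨u, hu, rfl⟩ := mem_gorb.1 hm
  exact mem_gorb.2 ⟨_, GOp.comp' ha hu (by ring), rfl⟩

lemma self_mem_gorb (w : W.H P) : w ∈ gorb S w := mem_gorb.2 ⟨_, GOp.id, rfl⟩

/-- The chain of stable subspaces given by a descending sequence. -/
lemma GDesc.chain {n : ℕ} {d₀ : ℤ} (h : GDesc S T P d₀ n) (hST : ∀ X, S.C X ≤ T.C X)
    (hnil : ∀ x ∈ S.NOp P P, x ∈ GOp S P P 0 → IsNilpotent x) :
    ∃ M : ℕ → Submodule W.K (W.H P), (∀ j, ∀ a ∈ GOp S P P 0, ∀ m ∈ M j, a m ∈ M j) ∧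
      (∀ j < n + 1, M j < M (j + 1)) ∧ M (n + 1) ≤ GC T P d₀ := by
  obtain ⟨w, hw, h0, hx⟩ := h
  have hne : ∀ i, i ≤ n → w (n - i) ≠ 0 := by
    intro i
    induction i with
    | zero => intro _; simpa using h0
    | succ i ih =>
      intro hi h
      obtain ⟨x, _, _, e⟩ := hx (n - (i + 1)) (by omega)
      apply ih (by omega)
      have : n - i = n - (i + 1) + 1 := by omega
      rw [this, e, h, map_zero]
  refine ⟨fun j => if j = 0 then ⊥ else gorb S (w (n + 1 - j)), fun j a ha m hm => ?_,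
    fun j hj => ?_, ?_⟩
  · dsimp only at hm ⊢
    split_ifs at hm ⊢ with h
    · rw [(Submodule.mem_bot _).1 hm, map_zero]; exact Submodule.zero_mem _
    · exact gorb_stable _ a ha m hm
  · dsimp only
    rw [if_neg (by omega : j + 1 ≠ 0)]
    rcases Nat.eq_zero_or_pos j with rfl | hj0
    · rw [if_pos rfl, bot_lt_iff_ne_bot]
      intro h
      have h1 := self_mem_gorb (S := S) (w (n + 1 - (0 + 1)))
      rw [h, Submodule.mem_bot] at h1
      exact hne 0 (by omega) (by simpa using h1)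
    · rw [if_neg (by omega)]
      obtain ⟨x, hxm, hxg, e⟩ := hx (n + 1 - (j + 1)) (by omega)
      have e1 : n + 1 - (j + 1) + 1 = n + 1 - j := by omega
      rw [e1] at e
      refine lt_of_le_of_ne ?_ ?_
      · intro y hy
        obtain ⟨a, ha, rfl⟩ := mem_gorb.1 hy
        rw [e]
        exact mem_gorb.2 ⟨_, GOp.comp' ha hxg (by ring), rfl⟩
      · intro heq
        have h1 := self_mem_gorb (S := S) (w (n + 1 - (j + 1)))
        rw [← heq] at h1
        obtain ⟨a, ha, h2⟩ := mem_gorb.1 h1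
        rw [e] at h2
        obtain ⟨N, hN⟩ := hnil _ (Sys.NOp.comp_left (GOp.op ha) hxm) (GOp.comp' ha hxg (by ring))
        have h3 : ∀ i : ℕ, ((a ∘ₗ x : Module.End W.K (W.H P)) ^ i) (w (n + 1 - (j + 1))) =
            w (n + 1 - (j + 1)) := by
          intro i
          induction i with
          | zero => rfl
          | succ i ih =>
            rw [pow_succ, Module.End.mul_apply, LinearMap.comp_apply, h2, ih]
        have h4 := h3 N
        rw [hN, LinearMap.zero_apply] at h4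
        have h5 : n + 1 - (j + 1) = n - j := by omega
        rw [h5] at h4
        exact hne j (by omega) h4.symm
  · dsimp only
    rw [if_neg (by omega)]
    intro y hy
    obtain ⟨a, ha, rfl⟩ := mem_gorb.1 hy
    exact GOp.apply hST ha (hw _ (by omega)) (by ring)

lemma exists_gdesc (hST : ∀ X, S.C X ≤ T.C X) (h1 : (1 : W.H X) ≠ 0) {q : ℕ} {e : ℤ}
    {z : W.H (pw X q)} (hz : z ∈ S.Num (pw X q)) (hze : z ∈ gz W (pw X q) e) (hz0 : z ≠ 0)
    {a a' : W.H (pw X q)} (ha : a ∈ GC S (pw X q) e)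
    (ha' : a' ∈ GC S (pw X q) ((pw X q).dim - e)) (haa : W.tr (pw X q) (a * a') = 1) (N : ℕ) :
    ∃ (m : ℕ) (P : 𝒱.Obj) (d₀ : ℤ), Nonempty (P ≅ pw X m) ∧ GDesc S T P d₀ N := by
  induction N with
  | zero => exact ⟨0, X, 0, ⟨Iso.refl _⟩, GDesc.zero h1⟩
  | succ N ih =>
    obtain ⟨m, P, d₀, ⟨θ⟩, hP⟩ := ih
    exact ⟨m + q + 1, P.prod (pw X q), d₀ + e, ⟨prodCongr θ (Iso.refl _) ≪≫ pwAdd X m q⟩,
      hP.succ hST hz hze hz0 ha ha' haa rfl⟩

/-- **The zero-infinity law.** If a numerically trivial class on a power of `X` is not zero, the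
homogeneous classes of `T` near the middle outnumber the rank of the form on those of `S`. -/
theorem gnum_or (hgr : SGr S) (hST : ∀ X, S.C X ≤ T.C X) (hS : GBig S X) :
    (∀ n, S.Num (pw X n) = ⊥) ∨ ∀ (N : ℕ) (J : ℕ), ∃ n₀ : ℕ, ∀ n ≥ n₀, ∀ d : ℤ,
      |2 * d - (n + 1) * X.dim| ≤ J → N * nrmg S X n ≤ finrank W.K (GC T (pw X n) d) := by
  by_cases hN : ∀ q, S.Num (pw X q) = ⊥
  · exact Or.inl hN
  right
  intro N J
  push Not at hN
  obtain ⟨q, hq⟩ := hN
  rw [Ne, num_eq_bot_iff hgr] at hq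
  push Not at hq
  obtain ⟨i, hi⟩ := hq
  obtain ⟨z, hz, hz0⟩ := Submodule.exists_mem_ne_zero_of_ne_bot hi
  have hiq : i ≤ (q + 1) * X.dim := by
    by_contra hcon
    apply hz0
    have h1 := hz.2
    rw [gz_nat, W.gr_eq_bot _ _ (by rw [dim_pw]; omega)] at h1
    exact (Submodule.mem_bot _).1 h1
  obtain ⟨a, ha, a', ha', haa⟩ := tw_pw hS.tw q i hiq
  have h1 : (1 : W.H X) ≠ 0 := by
    have : Nontrivial (W.H X) := Module.nontrivial_of_finrank_pos hS.hX
    exact one_ne_zero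
  obtain ⟨m, P, d₀, ⟨θ⟩, hP⟩ := exists_gdesc (T := T) hST h1 hz.1 hz.2 hz0 ha
    (by rw [dim_pw]; push_cast; exact ha') haa N
  obtain ⟨M, hM, hlt, hMT⟩ := hP.chain hST fun x hx hx' =>
    nilp_g hS θ hx' fun y hy => Sys.NOp.trace hx (GOp.op hy)
  obtain ⟨n₀, hn₀⟩ := low_chain hST hS θ M hM (N + 1) hlt hMT one_pos J
  refine ⟨n₀, fun n hn d hd => ?_⟩
  have h2 := hn₀ n hn d hd
  have h3 : (((N + 1 : ℕ) : ℝ) - 1) = N := by push_cast; ring
  rwa [h3] at h2

/-- If the classes of `S` and `T` on a power of `X` differ, the homogeneous classes of `T` are at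
least twice as many as the rank of the form on those of `S`. -/
theorem gtwo (hST : ∀ X, S.C X ≤ T.C X) (hS : GBig S X) {m i : ℕ}
    (hi : i ≤ (m + 1) * X.dim) (hne : GC S (pw X m) (i : ℤ) ≠ GC T (pw X m) (i : ℤ)) {δ : ℝ}
    (hδ : 0 < δ) (J : ℕ) : ∃ n₀ : ℕ, ∀ n ≥ n₀, ∀ d : ℤ,
      |2 * d - (n + 1) * X.dim| ≤ J → (2 - δ) * nrmg S X n ≤ finrank W.K (GC T (pw X n) d) := by
  obtain ⟨a, ha, a', ha', haa⟩ := tw_pw hS.tw m i hi
  have ha0 : a ≠ 0 := by
    rintro rfl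
    rw [zero_mul, map_zero] at haa
    exact zero_ne_one haa
  have hlt : GC S (pw X m) (i : ℤ) < GC T (pw X m) (i : ℤ) :=
    lt_of_le_of_ne (GC_mono hST _ _) hne
  have h := low_chain (T := T) hST hS (Iso.refl (pw X m)) (fun n => match n with
      | 0 => ⊥
      | 1 => GC S (pw X m) (i : ℤ)
      | _ + 2 => GC T (pw X m) (i : ℤ)) (by
      rintro (_ | _ | n) a ha x hx
      · rw [(Submodule.mem_bot _).1 hx, map_zero]; exact Submodule.zero_mem _
      · exact GOp.apply (T := S) (fun _ => le_rfl) ha hx (by ring)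
      · exact GOp.apply hST ha hx (by ring)) 2 (by
      intro n hn
      interval_cases n
      · rw [bot_lt_iff_ne_bot]
        intro h
        change GC S (pw X m) (i : ℤ) = ⊥ at h
        rw [h, Submodule.mem_bot] at ha
        exact ha0 ha
      · exact hlt) (d₀ := i) le_rfl hδ J
  push_cast at h
  exact h

end Pool.Agent.H61.GX
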