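import Pool.Graph.R_seed8.Y133.Half.TateHalfDefs
import Pool.Agent.H61.GX.Defs

/-!
# Algebraic and Tate classes of given codimension: definitions
-/

open CategoryTheory AlgebraicGeometry

universe u v

namespace Pool.Agent.H61.GX

open Pool.Agent.H914 Pool.Agent.H914.VarClass Pool.Agent.H914.VarClass.Obj
  Pool.Agent.H914.WeilCohomology Pool.Agent.W534 Pool.Agent.Y133.Half

variable {k : Type u} [Field k] {𝒱 : VarClass k} {ops : CycleOps 𝒱}
  {W : WeilCohomology.{u, v} ops} {p : ℕ}

/-- The dimension of the space spanned by the classes of the algebraic cycles of codimension `j`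
on `Y`. -/
noncomputable def algDimIn (W : WeilCohomology.{u, v} ops) (Y : 𝒱.Obj) (j : ℕ) : ℕ :=
  dimOf W {c : W.H Y | ∃ z, Y.IsCyc j z ∧ W.cl Y z = c}

/-- The dimension of the space of the generalised Tate classes of codimension `j` on `Y`. -/
noncomputable def genTateDimIn (Φ : FrobSystem W p) (Y : 𝒱.Obj) (j : ℕ) : ℕ :=
  dimOf W {c : W.H Y | ∃ s, 0 < s ∧ c ∈ genTate Φ Y s j}

/-- The dimension of the space of the Tate classes of codimension `j` on `Y`. -/
noncomputable def tateDimIn (Φ : FrobSystem W p) (Y : 𝒱.Obj) (j : ℕ) : ℕ :=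
  dimOf W {c : W.H Y | IsTate Φ Y j c}

end Pool.Agent.H61.GX
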