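import Pool.Agent.H61.GX.Gap
import Pool.Agent.H61.GX.PropDefs
import Pool.Graph.R_seed8.Y133.Half.TrueTate

/-!
# Algebraic and Tate classes of given codimension
-/

open CategoryTheory AlgebraicGeometry

universe u v

namespace Pool.Agent.H61.GX

open Module Filter Topology
open Pool.Agent.H914 Pool.Agent.H914.VarClass Pool.Agent.H914.VarClass.Obj
  Pool.Agent.H914.WeilCohomology Pool.Agent.Y133.Half Pool.Agent.H61.ZX Pool.Agent.W534
  Pool.Agent.W536.RR Pool.Agent.H281R3.HT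

variable {k : Type u} [Field k] {𝒱 : VarClass k} {ops : CycleOps 𝒱}
  {W : WeilCohomology.{u, v} ops} {Q Z X Y : 𝒱.Obj} {p : ℕ}

lemma sgr_alg (W : WeilCohomology.{u, v} ops) : SGr (algSys W) := by
  refine sgr_of_le fun Q c hc => ?_
  refine algSpan_induction (p := fun c => c ∈ ⨆ j : ℕ, GC (algSys W) Q (j : ℤ)) ?_ ?_ ?_ ?_ hc
  · exact Submodule.zero_mem _
  · intro a b ha hb; exact Submodule.add_mem _ ha hb
  · intro t a ha; exact Submodule.smul_mem _ _ ha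
  · intro i z hz
    refine Submodule.mem_iSup_of_mem i ?_
    rw [gc_alg]
    exact Pool.Agent.H447.mem_span_cl hz

lemma sgr_tate (Φ : FrobSystem W p) : SGr (tateSys Φ) := by
  refine sgr_of_le fun Q c hc => ?_
  refine TC.ind (Φ := Φ) (q := fun c => c ∈ ⨆ j : ℕ, GC (tateSys Φ) Q (j : ℤ)) ?_ ?_ ?_ hc
  · intro s j hs x hx
    exact Submodule.mem_iSup_of_mem j ⟨TC.of hs hx, by rw [gz_nat]; exact hx.2⟩
  · exact Submodule.zero_mem _
  · intro x y hx hy; exact Submodule.add_mem _ hx hy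

lemma algDimIn_eq (W : WeilCohomology.{u, v} ops) (Y : 𝒱.Obj) (j : ℕ) :
    algDimIn W Y j = finrank W.K (GC (algSys W) Y (j : ℤ)) := by
  have h : {c : W.H Y | ∃ z, Y.IsCyc j z ∧ W.cl Y z = c} =
      {c | ∃ p : ℕ, (p : ℤ) = (j : ℤ) ∧ ∃ z, Y.IsCyc p z ∧ W.cl Y z = c} := by
    ext c
    constructor
    · rintro ⟨z, hz, h⟩
      exact ⟨j, rfl, z, hz, h⟩
    · rintro ⟨i, hi, z, hz, h⟩
      have : i = j := by exact_mod_cast hi
      subst this
      exact ⟨z, hz, h⟩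
  rw [gc_alg, algDimIn, dimOf, Set.finrank, spanCycles, h]

lemma genTateDimIn_eq (Φ : FrobSystem W p) (Y : 𝒱.Obj) (j : ℕ) :
    genTateDimIn Φ Y j = finrank W.K (GC (tateSys Φ) Y (j : ℤ)) := by
  rw [gc_tate, genTateDimIn, dimOf, Set.finrank]
  have h : {c : W.H Y | ∃ s, 0 < s ∧ c ∈ genTate Φ Y s j} = (Y163.genU Φ Y j : Set (W.H Y)) := by
    ext c
    rw [SetLike.mem_coe, Y163.mem_genU]
    rfl
  rw [h, Submodule.span_eq]

lemma ssTateIn_iff (Φ : FrobSystem W p) (Y : 𝒱.Obj) (j : ℕ) :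
    SemisimpleTateIn Φ Y j ↔ GC (algSys W) Y (j : ℤ) = GC (tateSys Φ) Y (j : ℤ) := by
  constructor
  · intro h
    refine le_antisymm (GC_mono (alg_le_tate Φ) _ _) ?_
    rw [gc_tate, gc_alg]
    intro c hc
    obtain ⟨s, hs, hc⟩ := (Y163.mem_genU Φ).1 hc
    exact h s hs hc
  · intro h s hs c hc
    rw [gc_tate, gc_alg] at h
    rw [h]
    exact (Y163.mem_genU Φ).2 ⟨s, hs, hc⟩

/-- Duality. -/
lemma genTateDimIn_symm (Φ : FrobSystem W p) {Y : 𝒱.Obj} {i j : ℕ} (h : i + j = Y.dim) :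
    genTateDimIn Φ Y i = genTateDimIn Φ Y j := by
  have e0 : (i : ℤ) + j = Y.dim := by exact_mod_cast h
  have h1 := half_pair (S := tateSys Φ) (T := tateSys Φ) (sgr_tate Φ) (fun _ => le_rfl) e0
    (gnondeg_tate Φ Y i) (gnondeg_tate Φ Y j)
  have h2 := half_pair (S := tateSys Φ) (T := tateSys Φ) (sgr_tate Φ) (fun _ => le_rfl)
    (d := j) (d' := i) (by linarith) (gnondeg_tate Φ Y j) (gnondeg_tate Φ Y i)
  rw [ag_eq_of_gnondeg (gnondeg_tate Φ Y i) (by linarith)] at h1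
  rw [ag_eq_of_gnondeg (gnondeg_tate Φ Y j) (by linarith)] at h2
  rw [genTateDimIn_eq, genTateDimIn_eq]
  omega

/-- All codimensions, natural or not. -/
lemma gc_all {S T : Sys W} (h : ∀ j : ℕ, GC S Q (j : ℤ) = GC T Q (j : ℤ)) (d : ℤ) :
    GC S Q d = GC T Q d := by
  by_cases hd : 0 ≤ d
  · lift d to ℕ using hd
    exact h d
  · rw [GC, GC, gz_neg (by omega), inf_bot_eq, inf_bot_eq]

/-- If the Frobenius endomorphism is semisimple, generalised Tate classes are Tate classes. -/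
lemma tate_set_eq (Φ : FrobSystem W p) {Q : 𝒱.Obj}
    (h : ∃ m, 0 < m ∧ ∀ t, (frob Φ Q (m * t)).IsSemisimple) (j : ℕ) (c : W.H Q) :
    IsTate Φ Q j c ↔ ∃ s, 0 < s ∧ c ∈ genTate Φ Q s j := by
  constructor
  · rintro ⟨h1, s, hs, h2⟩
    refine ⟨s, hs, ?_, h1⟩
    refine (Module.End.mem_maxGenEigenspace _ _ _).2 ⟨1, ?_⟩
    rw [pow_one, LinearMap.sub_apply, sub_eq_zero, LinearMap.smul_apply, Module.End.one_apply,
      card_pow]
    exact h2
  · rintro ⟨s, hs, hx⟩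
    obtain ⟨m, hm, hss⟩ := h
    have h1 := genTate_mono' Φ s m j hx
    refine ⟨hx.2, m * s, Nat.mul_pos hm hs, ?_⟩
    have h2 := (hss s).isFinitelySemisimple.maxGenEigenspace_eq_eigenspace
      ((card Φ Q (m * s) : W.K) ^ j)
    have h3 : c ∈ (frob Φ Q (m * s)).maxGenEigenspace
      ((card Φ Q (m * s) : W.K) ^ j) := h1.1
    rw [h2, Module.End.mem_eigenspace_iff] at h3
    rw [← card_pow]
    exact h3

end Pool.Agent.H61.GX
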