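import Pool.Agent.H61.GX.CS

/-!
# Powers of a variety: middle codimensions and twists
-/

open CategoryTheory AlgebraicGeometry

universe u v

namespace Pool.Agent.H61.GX

open Module
open Pool.Agent.H914 Pool.Agent.H914.VarClass Pool.Agent.H914.VarClass.Obj
  Pool.Agent.H914.WeilCohomology Pool.Agent.Y133.Half Pool.Agent.H61.ZX

variable {k : Type u} [Field k] {𝒱 : VarClass k} {ops : CycleOps 𝒱}
  {W : WeilCohomology.{u, v} ops} {P P₀ Q Z Z' X Y M N : 𝒱.Obj} {S T : Sys W}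

lemma dim_pw (X : 𝒱.Obj) (n : ℕ) : (pw X n).dim = (n + 1) * X.dim := by
  induction n with
  | zero => rw [zero_add, one_mul]; rfl
  | succ n ih => rw [pw, dim_prod, ih]; ring

variable (S) in
/-- The rank of the intersection form on the classes of middle codimension on `X^(2l+2)`. -/
noncomputable def alc (X : 𝒱.Obj) (l : ℕ) : ℕ := ac S (pw X l)

lemma dim_split (X : 𝒱.Obj) {a l n : ℕ} (h : n = a + 2 * l + 2) :
    ((n : ℤ) + 1) * X.dim = (a + 1) * X.dim + 2 * ((l + 1) * X.dim) := by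
  subst h
  push_cast
  ring

lemma dim_pwIso (X : 𝒱.Obj) {m l n : ℕ} (h : m + 2 * l + 1 = 2 * n) :
    ((pw X m).prod ((pw X l).prod (pw X l))).dim = ((pw X n).prod (pw X n)).dim := by
  simp only [dim_prod, dim_pw]
  have h1 : (m + 1) + ((l + 1) + (l + 1)) = (n + 1) + (n + 1) := by omega
  calc (m + 1) * X.dim + ((l + 1) * X.dim + (l + 1) * X.dim) =
        ((m + 1) + ((l + 1) + (l + 1))) * X.dim := by ring
    _ = _ := by rw [h1]; ring

lemma ag_pw (X : 𝒱.Obj) {m l n : ℕ} (h : m + 2 * l + 1 = 2 * n) {c : ℤ}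
    (hc : c = (n + 1) * X.dim) :
    ag S ((pw X m).prod ((pw X l).prod (pw X l))) c c = alc S X n := by
  rw [ag_iso S (pwIso X h) (dim_pwIso X h), alc, ac, hc, dim_pw]
  push_cast
  rfl

lemma dim_phi (X : 𝒱.Obj) (n : ℕ) (hn : 2 ≤ n) :
    ((pw X (n % 2)).prod ((pw X ((n - n % 2 - 2) / 2)).prod
      (pw X ((n - n % 2 - 2) / 2)))).dim = (pw X n).dim := by
  obtain ⟨l, hl⟩ : ∃ l, l = (n - n % 2 - 2) / 2 := ⟨_, rfl⟩
  rw [← hl]
  simp only [dim_prod, dim_pw]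
  have h1 : (n % 2 + 1) + ((l + 1) + (l + 1)) = n + 1 := by omega
  calc (n % 2 + 1) * X.dim + ((l + 1) * X.dim + (l + 1) * X.dim) =
        ((n % 2 + 1) + ((l + 1) + (l + 1))) * X.dim := by ring
    _ = _ := by rw [h1]

/-- The rank bound for products with `Y × Y`. -/
lemma ag_le (P Y : 𝒱.Obj) {d e : ℤ} (hde : d + e = P.dim + 2 * Y.dim) :
    ag S (P.prod (Y.prod Y)) d e ≤ finrank W.K (W.H P) * ac S Y := by
  rw [← rg_one, ← Sys.rank_one P]
  exact rg_le_rank S GOp.id rfl Y hde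

lemma alc_succ_le (X : 𝒱.Obj) (l : ℕ) :
    alc S X (l + 1) ≤ finrank W.K (W.H X) ^ 2 * alc S X l := by
  rw [← ag_pw (S := S) X (m := 1) (l := l) (n := l + 1) (by ring) rfl,
    ← finrank_pw (W := W) X 1]
  refine ag_le _ _ ?_
  simp only [dim_pw]
  push_cast
  ring

lemma alc_convex (X : 𝒱.Obj) (l : ℕ) :
    alc S X (l + 1) ^ 2 ≤ alc S X (l + 2) * alc S X l := by
  have h := csg S (P := pw X 1) (g := 1) (g' := 1) GOp.id rfl Adj.one (pw X l)
    (d := ((l + 1 : ℕ) + 1) * X.dim) (e := ((l + 1 : ℕ) + 1) * X.dim)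
    (by simp only [dim_pw]; push_cast; ring)
  rw [extOp_one, rg_one, rg_one, ag_pw X (m := 1) (l := l) (n := l + 1) (by ring) rfl] at h
  have h2 : ag S (((pw X 1).prod (pw X 1)).prod ((pw X l).prod (pw X l)))
      ((pw X 1).dim + (pw X l).dim) ((pw X 1).dim + (pw X l).dim) = alc S X (l + 2) := by
    rw [ag_iso S (prodCongr (pwAdd X 1 1) (Iso.refl _))
      (by simp only [dim_prod, dim_pw]; ring)]
    refine ag_pw X (m := 3) (by ring) ?_
    simp only [dim_pw]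
    push_cast
    ring
  rw [h2] at h
  exact h

/-- The system has many classes of middle codimension on the powers of `X`, and twists. -/
structure GBig (S : Sys W) (X : 𝒱.Obj) : Prop where
  tw : ∀ i : ℕ, i ≤ X.dim → ∃ a ∈ GC S X i, ∃ a' ∈ GC S X ((X.dim : ℤ) - i), W.tr X (a * a') = 1
  pos : ∀ l, 0 < alc S X l
  hB : ∀ c : ℝ, 0 ≤ c → c < (finrank W.K (W.H X) : ℝ) ^ 2 →
    ∃ l₀, ∀ l ≥ l₀, c * alc S X l ≤ alc S X (l + 1)
  hX : 0 < finrank W.K (W.H X)
  hd : 0 < X.dim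

/-- Twists on the powers of `X`. -/
lemma tw_pw (h : ∀ i : ℕ, i ≤ X.dim → ∃ a ∈ GC S X i, ∃ a' ∈ GC S X ((X.dim : ℤ) - i),
    W.tr X (a * a') = 1) (n : ℕ) : ∀ i : ℕ, i ≤ (n + 1) * X.dim → ∃ a ∈ GC S (pw X n) i,
      ∃ a' ∈ GC S (pw X n) (((n : ℤ) + 1) * X.dim - i), W.tr (pw X n) (a * a') = 1 := by
  induction n with
  | zero =>
    intro i hi
    obtain ⟨a, ha, a', ha', h1⟩ := h i (by omega)
    refine ⟨a, ha, a', ?_, h1⟩
    rw [show ((0 : ℕ) + 1 : ℤ) * X.dim - i = (X.dim : ℤ) - i by push_cast; ring]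
    exact ha'
  | succ n ih =>
    intro i hi
    obtain ⟨i₁, i₂, rfl, h1, h2⟩ : ∃ i₁ i₂, i = i₁ + i₂ ∧ i₁ ≤ (n + 1) * X.dim ∧ i₂ ≤ X.dim := by
      by_cases hle : i ≤ (n + 1) * X.dim
      · exact ⟨i, 0, rfl, hle, Nat.zero_le _⟩
      · refine ⟨(n + 1) * X.dim, i - (n + 1) * X.dim, by omega, le_rfl, ?_⟩
        have : (n + 1 + 1) * X.dim = (n + 1) * X.dim + X.dim := by ring
        omega
    obtain ⟨a, ha, a', ha', e1⟩ := ih i₁ h1
    obtain ⟨b, hb, b', hb', e2⟩ := h i₂ h2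
    refine ⟨(xp W a b : W.H ((pw X n).prod X)), GC.xp (P := pw X n) (Q := X) ha hb (by push_cast; rfl),
      (xp W a' b' : W.H ((pw X n).prod X)), GC.xp (P := pw X n) (Q := X) ha' hb'
        (by push_cast; ring), ?_⟩
    have e3 := xp_mul (W := W) a a' b b' (S.even hb.1) (S.even ha'.1)
    simp only [mul_zero, pow_zero, one_smul] at e3
    refine (congrArg (W.tr ((pw X n).prod X)) e3).trans ?_
    rw [tr_xp, e1, e2, mul_one]

/-- An idempotent which factors through a power of `X`, factors through larger powers with a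
twist. -/
lemma fac_tw (h : ∀ i : ℕ, i ≤ X.dim → ∃ a ∈ GC S X i, ∃ a' ∈ GC S X ((X.dim : ℤ) - i),
    W.tr X (a * a') = 1) {m : ℕ} {s : ℤ} {u : W.H (pw X m) →ₗ[W.K] W.H Z}
    (hu : u ∈ GOp S (pw X m) Z (-s)) {v : W.H Z →ₗ[W.K] W.H (pw X m)}
    (hv : v ∈ GOp S Z (pw X m) s) (k i : ℕ) (hi : i ≤ (k + 1) * X.dim) :
    ∃ u' ∈ GOp S (pw X (m + k + 1)) Z (-(s + i)), ∃ v' ∈ GOp S Z (pw X (m + k + 1)) (s + i),
      u' ∘ₗ v' = u ∘ₗ v := by
  obtain ⟨a, ha, a', ha', h1⟩ := tw_pw h k i hi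
  set φ := pwAdd X m k with hφ
  have e1 : (W.map φ.hom).toLinearMap ∈ GOp S (pw X (m + k + 1)) ((pw X m).prod (pw X k)) 0 :=
    GOp.map _
  have e2 : (W.map φ.inv).toLinearMap ∈ GOp S ((pw X m).prod (pw X k)) (pw X (m + k + 1)) 0 :=
    GOp.map _
  have e3 : (W.map (fst (pw X m) (pw X k))).toLinearMap ∈
      GOp S (pw X m) ((pw X m).prod (pw X k)) 0 := GOp.map _
  have e4 : W.push (fst (pw X m) (pw X k)) ∈
      GOp S ((pw X m).prod (pw X k)) (pw X m) (-(((k : ℤ) + 1) * X.dim)) := by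
    refine GOp.push _ ?_
    simp only [dim_prod, dim_pw]
    push_cast
    ring
  have e5 : LinearMap.mulLeft W.K (W.map (snd (pw X m) (pw X k)) a) ∈
      GOp S ((pw X m).prod (pw X k)) ((pw X m).prod (pw X k)) i := GOp.mul_left (GC.map _ ha)
  have e6 : LinearMap.mulLeft W.K (W.map (snd (pw X m) (pw X k)) a') ∈
      GOp S ((pw X m).prod (pw X k)) ((pw X m).prod (pw X k)) (((k : ℤ) + 1) * X.dim - i) :=
    GOp.mul_left (GC.map _ ha')
  have key : ∀ x : W.H (pw X m), W.push (fst (pw X m) (pw X k))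
      (W.map (snd (pw X m) (pw X k)) a' * (W.map (snd (pw X m) (pw X k)) a *
        W.map (fst (pw X m) (pw X k)) x)) = x := by
    intro x
    have hev : a' * a ∈ PH W (pw X k) 0 := S.even (S.mul ha'.1 ha.1)
    have h1' : W.map (snd (pw X m) (pw X k)) a' * (W.map (snd (pw X m) (pw X k)) a *
        W.map (fst (pw X m) (pw X k)) x) = xp W x (a' * a) := by
      rw [← mul_assoc, ← map_mul, PH.even_comm (PH.map _ hev)]
      rfl
    rw [h1']
    have h2 := push_fst (W := W) x (a' * a) hev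
    rw [PH.even_comm (S.even ha'.1), h1, one_smul] at h2
    rw [PH.even_comm (S.even ha'.1)]
    exact h2
  refine ⟨u ∘ₗ W.push (fst (pw X m) (pw X k)) ∘ₗ
    LinearMap.mulLeft W.K (W.map (snd (pw X m) (pw X k)) a') ∘ₗ (W.map φ.hom).toLinearMap,
    GOp.comp' hu (GOp.comp' e4 (GOp.comp' e6 e1 rfl) rfl) (by ring),
    (W.map φ.inv).toLinearMap ∘ₗ
    LinearMap.mulLeft W.K (W.map (snd (pw X m) (pw X k)) a) ∘ₗ
      (W.map (fst (pw X m) (pw X k))).toLinearMap ∘ₗ v,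
    GOp.comp' e2 (GOp.comp' e5 (GOp.comp' e3 hv rfl) rfl) (by ring), ?_⟩
  apply LinearMap.ext
  intro x
  change u (W.push (fst (pw X m) (pw X k)) (W.map (snd (pw X m) (pw X k)) a' *
    W.map φ.hom (W.map φ.inv (W.map (snd (pw X m) (pw X k)) a *
      W.map (fst (pw X m) (pw X k)) (v x))))) = u (v x)
  rw [← W.map_comp, φ.hom_inv_id, W.map_id, key]

end Pool.Agent.H61.GX
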