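import Pool.Agent.H61.GX.Gr

/-!
# Ranks of intersection forms on homogeneous classes
-/

open CategoryTheory AlgebraicGeometry

universe u v

namespace Pool.Agent.H61.GX

open Module
open Pool.Agent.H914 Pool.Agent.H914.VarClass Pool.Agent.H914.VarClass.Obj
  Pool.Agent.H914.WeilCohomology Pool.Agent.Y133.Half Pool.Agent.H61.ZX

variable {k : Type u} [Field k] {𝒱 : VarClass k} {ops : CycleOps 𝒱}
  {W : WeilCohomology.{u, v} ops} {P Q Z Z' X Y M N : 𝒱.Obj} (S : Sys W)

/-- The form `tr (u c * c')` on the classes of codimensions `d` and `e`. -/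
noncomputable def FG (Z : 𝒱.Obj) (u : Module.End W.K (W.H Z)) (d e : ℤ) :
    GC S Z d →ₗ[W.K] GC S Z e →ₗ[W.K] W.K :=
  (S.F Z u).compl₁₂ (Submodule.inclusion inf_le_left) (Submodule.inclusion inf_le_left)

lemma FG_apply (u : Module.End W.K (W.H Z)) (d e : ℤ) (c : GC S Z d) (c' : GC S Z e) :
    FG S Z u d e c c' = W.tr Z (u (c : W.H Z) * (c' : W.H Z)) := rfl

/-- The rank of the form `tr (u c * c')` on the classes of codimensions `d` and `e`. -/
noncomputable def cg (Z : 𝒱.Obj) (u : Module.End W.K (W.H Z)) (d e : ℤ) : ℕ := rk (FG S Z u d e)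

/-- The pull-back of homogeneous classes. -/
noncomputable def mapG (f : X ⟶ Y) (d : ℤ) : GC S Y d →ₗ[W.K] GC S X d :=
  (W.map f).toLinearMap.restrict fun _ hc => GC.map f hc

variable {S}

lemma mapG_surj (θ : Z' ≅ Z) (d : ℤ) : Function.Surjective (mapG S θ.hom d) := by
  rintro ⟨c, hc⟩
  refine ⟨⟨_, GC.map θ.inv hc⟩, Subtype.ext ?_⟩
  change W.map θ.hom (W.map θ.inv c) = c
  rw [← W.map_comp, θ.hom_inv_id, W.map_id]

variable (S)

/-- Ranks of intersection forms do not change under isomorphisms. -/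
theorem cg_iso (θ : Z' ≅ Z) (hdim : Z'.dim = Z.dim) {u : Module.End W.K (W.H Z)}
    {u' : Module.End W.K (W.H Z')} (h : ∀ x, u' (W.map θ.hom x) = W.map θ.hom (u x)) (d e : ℤ) :
    cg S Z' u' d e = cg S Z u d e := by
  have hinv : ∀ x : W.H Z', W.map θ.hom (W.map θ.inv x) = x := by
    intro x
    rw [← W.map_comp, θ.hom_inv_id, W.map_id]
  set w : W.H Z := W.push θ.hom 1 with hw
  have hwS : w ∈ GC S Z 0 := GC.push _ GC.one (by rw [hdim]; ring)
  set v : W.H Z := W.map θ.inv (W.push θ.inv 1) with hv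
  have hvS : v ∈ GC S Z 0 := GC.map _ (GC.push _ GC.one (by rw [hdim]; ring))
  have hwv : w * v = 1 := by
    have h1 : W.push θ.hom (W.push θ.inv (1 : W.H Z)) = 1 := by
      rw [← W.push_comp, θ.inv_hom_id, W.push_id]
    have h2 : W.push θ.inv (1 : W.H Z) = 1 * W.map θ.hom v := by
      rw [hv, hinv, one_mul]
    rw [h2, W.push_mul] at h1
    exact h1
  have hmul : ∀ {a c : W.H Z}, a ∈ GC S Z 0 → c ∈ GC S Z e → a * c ∈ GC S Z e := by
    intro a c ha hc
    have := GC.mul ha hc
    rwa [zero_add] at this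
  let m : GC S Z e →ₗ[W.K] GC S Z e := (LinearMap.mulLeft W.K w).restrict fun c hc => hmul hwS hc
  have hm : Function.Surjective m := by
    rintro ⟨c, hc⟩
    refine ⟨⟨v * c, hmul hvS hc⟩, Subtype.ext ?_⟩
    change w * (v * c) = c
    rw [← mul_assoc, hwv, one_mul]
  have h1 : (FG S Z' u' d e).compl₁₂ (mapG S θ.hom d) (mapG S θ.hom e) =
      (FG S Z u d e).compl₁₂ LinearMap.id m := by
    apply LinearMap.ext
    intro c
    apply LinearMap.ext
    intro c'
    rw [LinearMap.compl₁₂_apply, LinearMap.compl₁₂_apply, FG_apply, FG_apply]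
    change W.tr Z' (u' (W.map θ.hom (c : W.H Z)) * W.map θ.hom (c' : W.H Z)) =
      W.tr Z (u (c : W.H Z) * (w * (c' : W.H Z)))
    have h2 := W.tr_push θ.hom 1 (u (c : W.H Z) * (c' : W.H Z))
    rw [h, ← map_mul, ← one_mul (W.map θ.hom _), ← h2, ← hw, ← mul_assoc, ← mul_assoc,
      PH.even_comm (S.even hwS.1)]
  rw [cg, cg, ← rk_comp (FG S Z' u' d e) (mapG_surj θ d) (mapG_surj θ e), h1,
    rk_comp (FG S Z u d e) (f := LinearMap.id) Function.surjective_id hm]

lemma cg_add_le (u u' : Module.End W.K (W.H Z)) (d e : ℤ) :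
    cg S Z (u + u') d e ≤ cg S Z u d e + cg S Z u' d e := by
  have h1 : FG S Z (u + u') d e = FG S Z u d e + FG S Z u' d e := by
    apply LinearMap.ext
    intro c
    apply LinearMap.ext
    intro c'
    rw [LinearMap.add_apply, LinearMap.add_apply, FG_apply, FG_apply, FG_apply,
      LinearMap.add_apply, add_mul, map_add]
  rw [cg, h1]
  exact rk_add_le _ _

lemma cg_le (u : Module.End W.K (W.H Z)) (d e : ℤ) :
    cg S Z u d e ≤ finrank W.K (LinearMap.range u) :=
  (rk_comp_le _ _ _).trans (S.rk_F_le u)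

/-- The rank of the intersection form on the classes of codimensions `d` and `e`. -/
noncomputable def ag (Z : 𝒱.Obj) (d e : ℤ) : ℕ := cg S Z 1 d e

/-- The rank of the intersection form on the part of the classes on `P × Z` cut out by the
idempotent `g`. -/
noncomputable def rg (P : 𝒱.Obj) (g : Module.End W.K (W.H P)) (Z : 𝒱.Obj) (d e : ℤ) : ℕ :=
  cg S (P.prod Z) (extOp W g 1) d e

lemma ag_iso (θ : Z' ≅ Z) (hdim : Z'.dim = Z.dim) (d e : ℤ) : ag S Z' d e = ag S Z d e :=
  cg_iso S θ hdim (fun _ => rfl) d e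

lemma rg_one (d e : ℤ) : rg S P 1 Z d e = ag S (P.prod Z) d e := by rw [rg, extOp_one, ag]

lemma rg_add_le (g h : Module.End W.K (W.H P)) (d e : ℤ) :
    rg S P (g + h) Z d e ≤ rg S P g Z d e + rg S P h Z d e := by
  rw [rg, extOp_add_left]
  exact cg_add_le S _ _ d e

lemma rg_le (g : Module.End W.K (W.H P)) (hg : g ∘ₗ g = g) (d e : ℤ) :
    rg S P g Z d e ≤ finrank W.K (LinearMap.range g) * finrank W.K (W.H Z) := by
  refine (cg_le S _ d e).trans ?_
  have h1 : (1 : Module.End W.K (W.H Z)) ∘ₗ 1 = 1 := rfl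
  rw [finrank_extOp hg h1]
  have h2 : LinearMap.range (1 : Module.End W.K (W.H Z)) = ⊤ := LinearMap.range_id
  rw [h2, finrank_top]

lemma rg_iso (g : Module.End W.K (W.H P)) (θ : Z' ≅ Z) (hdim : Z'.dim = Z.dim) (d e : ℤ) :
    rg S P g Z' d e = rg S P g Z d e := by
  let Θ : P.prod Z' ≅ P.prod Z :=
    { hom := Obj.lift (fst _ _) (snd _ _ ≫ θ.hom)
      inv := Obj.lift (fst _ _) (snd _ _ ≫ θ.inv)
      hom_inv_id := by apply prod_hom_ext <;> simp
      inv_hom_id := by apply prod_hom_ext <;> simp }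
  refine cg_iso S Θ (by rw [dim_prod, dim_prod, hdim]) (fun x => ?_) d e
  have h : (extOp W g (1 : Module.End W.K (W.H Z'))) ∘ₗ (W.map Θ.hom).toLinearMap =
      (W.map Θ.hom).toLinearMap ∘ₗ (extOp W g (1 : Module.End W.K (W.H Z))) := by
    apply xp_ext
    intro i j p _ z _
    have e1 : Θ.hom ≫ fst _ _ = fst _ _ := Obj.lift_fst _ _
    have e2 : Θ.hom ≫ snd _ _ = snd _ _ ≫ θ.hom := Obj.lift_snd _ _
    have e3 : ∀ p : W.H P, ∀ z : W.H Z, W.map Θ.hom (xp W p z) = xp W p (W.map θ.hom z) := by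
      intro p z
      rw [map_xp, e1, e2, W.map_comp, xp_def]
    simp only [LinearMap.comp_apply, AlgHom.toLinearMap_apply, e3, extOp_xp, Module.End.one_apply]
  exact congrArg (fun f => f x) h

lemma rg_assoc (g : Module.End W.K (W.H P)) (d e : ℤ) :
    rg S (P.prod Q) (extOp W g 1) Z d e = rg S P g (Q.prod Z) d e :=
  cg_iso S (θ₃ P Q Z) (by simp only [dim_prod]; ring) (fun x => θ₃_op g x) d e

/-! ### Operators and classes -/

/-- The map from homogeneous classes to homogeneous operators. -/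
noncomputable def corrG (X Y : 𝒱.Obj) (s : ℤ) :
    GC S (X.prod Y) (X.dim + s) →ₗ[W.K] GOp S X Y s :=
  (corrL W X Y).submoduleMap (GC S (X.prod Y) (X.dim + s))

variable {S} in
lemma corrG_surj {s : ℤ} : Function.Surjective (corrG S X Y s) :=
  LinearMap.submoduleMap_surjective _ _

/-- The form `tr (p g u g' v)` on pairs of homogeneous operators in opposite directions. -/
noncomputable def BG (M N : 𝒱.Obj) (g : Module.End W.K (W.H M))
    (g' : Module.End W.K (W.H N)) (s t : ℤ) : GOp S N M s →ₗ[W.K] GOp S M N t →ₗ[W.K] W.K :=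
  LinearMap.mk₂ W.K (fun u v => LinearMap.trace W.K (W.H M) (par (W.isInternal M) ∘ₗ g ∘ₗ
      (u : W.H N →ₗ[W.K] W.H M) ∘ₗ g' ∘ₗ (v : W.H M →ₗ[W.K] W.H N)))
    (fun u u' v => by
      simp only [Submodule.coe_add, LinearMap.add_comp, LinearMap.comp_add, map_add])
    (fun c u v => by
      simp only [Submodule.coe_smul, LinearMap.smul_comp, LinearMap.comp_smul, map_smul])
    (fun u v v' => by
      simp only [Submodule.coe_add, LinearMap.comp_add, map_add])
    (fun c u v => by
      simp only [Submodule.coe_smul, LinearMap.comp_smul, map_smul])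

lemma BG_apply (g : Module.End W.K (W.H M)) (g' : Module.End W.K (W.H N)) (s t : ℤ)
    (u : GOp S N M s) (v : GOp S M N t) : BG S M N g g' s t u v = LinearMap.trace W.K (W.H M)
      (par (W.isInternal M) ∘ₗ g ∘ₗ (u : W.H N →ₗ[W.K] W.H M) ∘ₗ g' ∘ₗ
        (v : W.H M →ₗ[W.K] W.H N)) := rfl

lemma gcat_B {ι : Type} [Fintype ι] [DecidableEq ι] (X : ι → 𝒱.Obj) (α : ι → ℤ) (i j : ι)
    (g : Module.End W.K (W.H (X i))) (g' : Module.End W.K (W.H (X j))) :
    rk (A := (gcat S X α).S i j) (B := (gcat S X α).S j i) ((gcat S X α).B i j g g') =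
      rk (A := GOp S (X j) (X i) (α i - α j)) (B := GOp S (X i) (X j) (α j - α i))
        (BG S (X i) (X j) g g' (α i - α j) (α j - α i)) := rfl

/-- The rank of the form of a pair of idempotents as a rank of an intersection form. -/
theorem rk_BG {g : Module.End W.K (W.H M)} (hg : Ev W g)
    {g' g'' : Module.End W.K (W.H N)} (hg' : Ev W g') (hadj : Adj W g'' g') (s t : ℤ) :
    rk (A := GOp S N M s) (B := GOp S M N t) (BG S M N g g' s t) =
      cg S (N.prod M) (extOp W g'' g) (N.dim + s) (M.dim + t) := by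
  have h1 : (BG S M N g g' s t).compl₁₂ (corrG S N M s) (corrG S M N t) =
      (FG S (N.prod M) (extOp W g'' g) (N.dim + s) (M.dim + t)).compl₁₂ LinearMap.id
        (mapG S (swap N M) (M.dim + t)) := by
    apply LinearMap.ext
    intro c
    apply LinearMap.ext
    intro d
    rw [LinearMap.compl₁₂_apply, LinearMap.compl₁₂_apply, BG_apply, FG_apply]
    change LinearMap.trace W.K (W.H M) (par (W.isInternal M) ∘ₗ g ∘ₗ
      W.corr (c : W.H _) ∘ₗ g' ∘ₗ W.corr (d : W.H _)) = W.tr _ (extOp W g'' g (c : W.H _) *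
        W.map (swap N M) (d : W.H _))
    rw [← trace_corr_corr, corr_extOp hadj hg' hg]
    rfl
  have h2 : Function.Surjective (mapG S (swap N M) (M.dim + t)) := by
    rintro ⟨c, hc⟩
    exact ⟨⟨_, GC.map (swap M N) hc⟩, Subtype.ext (swap_swap c)⟩
  have h3 := rk_comp (A := GOp S N M s) (B := GOp S M N t) (BG S M N g g' s t)
    (corrG_surj (S := S) (X := N) (Y := M)) (corrG_surj (S := S) (X := M) (Y := N))
  have h4 := rk_comp (FG S (N.prod M) (extOp W g'' g) (N.dim + s) (M.dim + t))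
    (f := LinearMap.id) Function.surjective_id h2
  rw [cg, ← h3, h1, h4]

end Pool.Agent.H61.GX
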