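import Pool.Agent.H61.GX.Law
import Pool.Graph.R_seed8.Y163.TateC
import Pool.Graph.R_seed8.Y133.Half.TateSS

/-!
# Algebraic classes and generalised Tate classes of given codimension
-/

open CategoryTheory AlgebraicGeometry

universe u v

namespace Pool.Agent.H61.GX

open Module Filter Topology
open Pool.Agent.H914 Pool.Agent.H914.VarClass Pool.Agent.H914.VarClass.Obj
  Pool.Agent.H914.WeilCohomology Pool.Agent.Y133.Half Pool.Agent.H61.ZX Pool.Agent.W534
  Pool.Agent.W536.RR Pool.Agent.H281R3.HT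

variable {k : Type u} [Field k] {𝒱 : VarClass k} {ops : CycleOps 𝒱}
  {W : WeilCohomology.{u, v} ops} {P P₀ Q Z Z' X Y M N : 𝒱.Obj} {S T : Sys W}

/-! ### Algebraic classes -/

lemma proj_alg {c : W.H Q} (hc : c ∈ (algSys W).C Q) (j : ℕ) :
    proj (W.isInternal Q) (2 * j) c ∈ spanCycles W Q j := by
  refine algSpan_induction (p := fun c => proj (W.isInternal Q) (2 * j) c ∈ spanCycles W Q j)
    ?_ ?_ ?_ ?_ hc
  · rw [map_zero]; exact Submodule.zero_mem _
  · intro a b ha hb; rw [map_add]; exact Submodule.add_mem _ ha hb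
  · intro t a ha; rw [map_smul]; exact Submodule.smul_mem _ _ ha
  · intro i z hz
    by_cases h : i = j
    · subst h
      rw [proj_same _ (W.cl_mem hz)]
      exact Pool.Agent.H447.mem_span_cl hz
    · rw [proj_ne _ (W.cl_mem hz) (by omega)]
      exact Submodule.zero_mem _

lemma gc_alg (Q : 𝒱.Obj) (j : ℕ) : GC (algSys W) Q (j : ℤ) = spanCycles W Q j := by
  apply le_antisymm
  · rintro c ⟨hc, hc'⟩
    rw [gz_nat] at hc'
    have h := proj_alg hc j
    rwa [proj_same _ hc'] at h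
  · intro c hc
    refine ⟨?_, by rw [gz_nat]; exact span_gr hc⟩
    refine (Submodule.span_le.2 ?_ : spanCycles W Q j ≤ (algSys W).C Q) hc
    rintro _ ⟨p, hp, z, hz, rfl⟩
    exact cl_mem_algSpan hz

lemma kRank_eq_ag (Z : 𝒱.Obj) (j l : ℕ) : kRank W Z j l = ag (algSys W) Z j l := by
  let f : GC (algSys W) Z (j : ℤ) ≃ₗ[W.K] spanCycles W Z j := LinearEquiv.ofEq _ _ (gc_alg Z j)
  let g : GC (algSys W) Z (l : ℤ) ≃ₗ[W.K] spanCycles W Z l := LinearEquiv.ofEq _ _ (gc_alg Z l)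
  let β : spanCycles W Z j →ₗ[W.K] spanCycles W Z l →ₗ[W.K] W.K := pair W Z j l
  have h1 : FG (algSys W) Z 1 j l = β.compl₁₂ f.toLinearMap g.toLinearMap := by
    apply LinearMap.ext
    intro c
    apply LinearMap.ext
    intro d
    rfl
  rw [ag, cg, h1, rk_comp β f.surjective g.surjective]
  rfl

/-! ### Powers -/

lemma dim_pw' (X : 𝒱.Obj) (n : ℕ) : (Y163.pw X n).dim = (pw X n).dim := by
  rw [Y163.dim_pw, dim_pw]

/-- Reversing the order of the factors. -/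
noncomputable def revPw (X : 𝒱.Obj) : ∀ n, Y163.pw X n ≅ pw X n
  | 0 => Iso.refl X
  | n + 1 => prodCongr (Iso.refl X) (revPw X n) ≪≫ prodComm X (pw X n)

lemma mrank_eq_alc (X : 𝒱.Obj) (n : ℕ) : Y163.mrank W X n = alc (algSys W) X n := by
  rw [Y163.mrank, kRank_eq_ag, alc, ac, ← ag_iso (algSys W) (prodCongr (revPw X n) (revPw X n))
    (by simp only [dim_prod, dim_pw'])]
  rw [dim_pw]
  rfl

/-! ### Monotonicity -/

lemma ag_mono (hST : ∀ X, S.C X ≤ T.C X) (Q : 𝒱.Obj) (d e : ℤ) : ag S Q d e ≤ ag T Q d e := by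
  rw [ag, ag, cg, cg]
  have h1 : FG S Q 1 d e = (FG T Q 1 d e).compl₁₂ (Submodule.inclusion (GC_mono hST Q d))
      (Submodule.inclusion (GC_mono hST Q e)) := rfl
  rw [h1]
  exact rk_comp_le _ _ _

/-- The growth of the ranks of the intersection forms in middle codimension. -/
lemma gbig_of_growth (htw : ∀ i : ℕ, i ≤ X.dim → ∃ a ∈ GC S X i, ∃ a' ∈ GC S X ((X.dim : ℤ) - i),
    W.tr X (a * a') = 1) (hX : 0 < finrank W.K (W.H X)) (hd : 0 < X.dim) {e : ℕ}
    (hg : ∀ n, (finrank W.K (W.H X) ^ 2) ^ (n + 1) ≤ alc S X n * (n + 2) ^ e) : GBig S X := by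
  have hpos : ∀ l, 0 < alc S X l := by
    intro l
    apply Nat.pos_of_ne_zero
    intro h
    have h1 := hg l
    rw [h, zero_mul] at h1
    exact absurd (pow_pos (pow_pos hX 2) (l + 1)) (by omega)
  refine ⟨htw, hpos, fun c _ hc => ?_, hX, hd⟩
  have h1 := Y163.tendsto_ratio (α := alc S X) (b := finrank W.K (W.H X) ^ 2) (e := e)
    (pow_pos hX 2) (alc_succ_le X) (fun n => by rw [mul_comm]; exact alc_convex X n) hg
  push_cast at h1
  obtain ⟨l₀, hl₀⟩ := eventually_atTop.1 (h1.eventually (lt_mem_nhds hc))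
  refine ⟨l₀, fun l hl => ?_⟩
  have h2 := hl₀ l hl
  have h3 : (0 : ℝ) < alc S X l := by exact_mod_cast hpos l
  rw [lt_div_iff₀ h3] at h2
  exact h2.le

/-- Twists from powers of a divisor. -/
lemma alg_tw {D : X.Cycles} (hD : X.IsCyc 1 D) (h : W.tr X (W.cl X D ^ X.dim) ≠ 0) (i : ℕ)
    (hi : i ≤ X.dim) : ∃ a ∈ GC (algSys W) X i, ∃ a' ∈ GC (algSys W) X ((X.dim : ℤ) - i),
      W.tr X (a * a') = 1 := by
  have hmem : ∀ j : ℕ, W.cl X D ^ j ∈ GC (algSys W) X j := by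
    intro j
    rw [gc_alg, ← Y163.cl_divPow_fund]
    exact Pool.Agent.H447.mem_span_cl (Y163.divPow_fund_mem (ops := ops) hD j)
  refine ⟨W.cl X D ^ i, hmem i, (W.tr X (W.cl X D ^ X.dim))⁻¹ • W.cl X D ^ (X.dim - i), ?_, ?_⟩
  · have h1 := hmem (X.dim - i)
    rw [Nat.cast_sub hi] at h1
    exact Submodule.smul_mem _ _ h1
  · rw [mul_smul_comm, map_smul, ← pow_add, show i + (X.dim - i) = X.dim by omega, smul_eq_mul,
      inv_mul_cancel₀ h]

lemma alg_pt {D : X.Cycles} (hD : X.IsCyc 1 D) (h : W.tr X (W.cl X D ^ X.dim) ≠ 0) :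
    ∃ l ∈ GC (algSys W) X X.dim, W.tr X l = 1 := by
  obtain ⟨a, ha, a', ha', h⟩ := alg_tw hD h 0 (Nat.zero_le _)
  refine ⟨a * a', ?_, h⟩
  have := GC.mul ha ha'
  rwa [show ((0 : ℕ) : ℤ) + ((X.dim : ℤ) - (0 : ℕ)) = X.dim by push_cast; ring] at this

theorem gbig_alg [IsAlgClosed W.K] (hX : par (W.isInternal X) ∈ KOp W X X 0) {D : X.Cycles}
    (hD : X.IsCyc 1 D) (h : W.tr X (W.cl X D ^ X.dim) ≠ 0) (hd : 0 < X.dim) :
    GBig (algSys W) X := by
  have hH : 0 < finrank W.K (W.H X) := by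
    have : Nontrivial (W.H X) := by
      by_contra hcon
      rw [not_nontrivial_iff_subsingleton] at hcon
      apply h
      rw [Subsingleton.elim (W.cl X D ^ X.dim) 0, map_zero]
    exact finrank_pos
  refine gbig_of_growth (alg_tw hD h) hH hd (e := finrank W.K (W.H X) ^ 2) fun n => ?_
  rw [← mrank_eq_alc]
  exact Y163.mrank_growth hX n

theorem GBig.mono' (hST : ∀ X, S.C X ≤ T.C X) (h : GBig S X) {e : ℕ}
    (hg : ∀ n, (finrank W.K (W.H X) ^ 2) ^ (n + 1) ≤ alc S X n * (n + 2) ^ e) : GBig T X := by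
  refine gbig_of_growth (fun i hi => ?_) h.hX h.hd (e := e) fun n =>
    (hg n).trans (Nat.mul_le_mul_right _ (ag_mono hST _ _ _))
  obtain ⟨a, ha, a', ha', e⟩ := h.tw i hi
  exact ⟨a, GC_mono hST _ _ ha, a', GC_mono hST _ _ ha', e⟩

/-! ### Generalised Tate classes -/

section Tate

variable {p : ℕ} (Φ : FrobSystem W p)

lemma gc_tate (Q : 𝒱.Obj) (j : ℕ) : GC (tateSys Φ) Q (j : ℤ) = Y163.genU Φ Q j := by
  apply le_antisymm
  · rintro c ⟨hc, hc'⟩
    rw [gz_nat] at hc'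
    obtain ⟨s, hs, h⟩ := TC.level (Φ := Φ) hc
    have h1 := h j
    rw [proj_same _ hc'] at h1
    exact (Y163.mem_genU Φ).2 ⟨s, hs, h1⟩
  · intro c hc
    obtain ⟨s, hs, h⟩ := (Y163.mem_genU Φ).1 hc
    exact ⟨TC.of hs h, by rw [gz_nat]; exact h.2⟩

lemma gnondeg_tate (Q : 𝒱.Obj) (d : ℤ) : GNondeg (tateSys Φ) Q d := by
  intro c hc h
  refine TC.nondeg (Φ := Φ) hc.1 fun y hy => ?_
  refine TC.ind (Φ := Φ) (q := fun y => W.tr Q (c * y) = 0) ?_ ?_ ?_ hy
  · intro s j hs y hy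
    have hy' : y ∈ GC (tateSys Φ) Q (j : ℤ) := ⟨TC.of hs hy, by rw [gz_nat]; exact hy.2⟩
    by_cases hj : (j : ℤ) = Q.dim - d
    · exact h y (hj ▸ hy')
    · exact gz_tr (gz_mul hc.2 hy'.2) (by omega)
  · rw [mul_zero, map_zero]
  · intro a b ha hb
    rw [mul_add, map_add, ha, hb, add_zero]

end Tate

end Pool.Agent.H61.GX
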